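import Mathlib

set_option autoImplicit false

namespace Pool.Agent.H859R2

open Finset Matrix

/-- AM-GM for products. -/
lemma prod_le_pow_avg {ι : Type*} [Fintype ι] [Nonempty ι] (z : ι → ℝ) (hz : ∀ i, 0 ≤ z i) :
    ∏ i, z i ≤ ((∑ i, z i) / Fintype.card ι) ^ Fintype.card ι := by
  have hn : 0 < Fintype.card ι := Fintype.card_pos
  have hn' : (0 : ℝ) < Fintype.card ι := by exact_mod_cast hn
  have h := Real.geom_mean_le_arith_mean_weighted (univ : Finset ι)
    (fun _ => (1 : ℝ) / Fintype.card ι) z (fun _ _ => by positivity)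
    (by simp [Finset.sum_const, Finset.card_univ]) (fun i _ => hz i)
  have h1 : ∏ i, z i ^ ((1 : ℝ) / Fintype.card ι) = (∏ i, z i) ^ ((1 : ℝ) / Fintype.card ι) := by
    rw [Real.finsetProd_rpow _ _ (fun i _ => hz i)]
  rw [h1] at h
  have h2 : ∑ i, (1 : ℝ) / Fintype.card ι * z i = (∑ i, z i) / Fintype.card ι := by
    rw [← Finset.mul_sum]; ring
  rw [h2] at h
  have hp : 0 ≤ ∏ i, z i := Finset.prod_nonneg fun i _ => hz i
  calc ∏ i, z i = ((∏ i, z i) ^ ((1 : ℝ) / Fintype.card ι)) ^ Fintype.card ι := by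
        rw [← Real.rpow_natCast, ← Real.rpow_mul hp, one_div_mul_cancel hn'.ne', Real.rpow_one]
    _ ≤ _ := pow_le_pow_left₀ (Real.rpow_nonneg hp _) h _

/-- the determinant of a positive semidefinite matrix is at most `(trace / n) ^ n` -/
lemma det_le_trace {ι : Type*} [Fintype ι] [DecidableEq ι] [Nonempty ι] {C : Matrix ι ι ℝ}
    (hC : C.PosSemidef) : C.det ≤ (C.trace / Fintype.card ι) ^ Fintype.card ι := by
  have h1 := hC.1.det_eq_prod_eigenvalues
  have h2 := hC.1.trace_eq_sum_eigenvalues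
  rw [h1, h2]
  exact prod_le_pow_avg _ (fun i => hC.eigenvalues_nonneg i)

end Pool.Agent.H859R2
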