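import Mathlib

/-! Bounded functions on a group which are harmonic on both sides (twisted on one side) are constant. -/

set_option autoImplicit false

namespace Pool.H859R2.BiHarm

open Filter Topology ComplexConjugate

variable {G : Type} [Group G] (μ : G → ℝ)

/-- bounded -/
def Bd (f : G → ℝ) : Prop := ∃ C, ∀ x, |f x| ≤ C

/-- right averaging -/
noncomputable def Pr (f : G → ℝ) : G → ℝ := fun x => ∑' g, μ g * f (x * g)
/-- left averaging -/
noncomputable def Pl (f : G → ℝ) : G → ℝ := fun x => ∑' g, μ g * f (g * x)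

variable {μ}

omit [Group G] in
theorem summable_mul (hμ : Summable μ) (hμ0 : ∀ g, 0 ≤ μ g) {f : G → ℝ} {C : ℝ}
    (hf : ∀ g, |f g| ≤ C) : Summable fun g => μ g * f g := by
  refine Summable.of_norm_bounded (g := fun g => μ g * C) (hμ.mul_right C) fun g => ?_
  rw [norm_mul, Real.norm_of_nonneg (hμ0 g)]
  exact mul_le_mul_of_nonneg_left (hf g) (hμ0 g)

omit [Group G] in
theorem abs_tsum_le (hμ : HasSum μ 1) (hμ0 : ∀ g, 0 ≤ μ g) {f : G → ℝ} {C : ℝ}
    (hf : ∀ g, |f g| ≤ C) : |∑' g, μ g * f g| ≤ C := by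
  have h := hμ.mul_right C
  rw [one_mul] at h
  have := tsum_of_norm_bounded (f := fun g => μ g * f g) h (fun g => by
    rw [norm_mul, Real.norm_of_nonneg (hμ0 g)]
    exact mul_le_mul_of_nonneg_left (hf g) (hμ0 g))
  exact this

theorem sumr (hμ : HasSum μ 1) (hμ0 : ∀ g, 0 ≤ μ g) {f : G → ℝ} (hf : Bd f) (x : G) :
    Summable fun g => μ g * f (x * g) := by
  obtain ⟨C, hC⟩ := hf
  exact summable_mul hμ.summable hμ0 (f := fun g => f (x * g)) fun g => hC _

theorem suml (hμ : HasSum μ 1) (hμ0 : ∀ g, 0 ≤ μ g) {f : G → ℝ} (hf : Bd f) (x : G) :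
    Summable fun g => μ g * f (g * x) := by
  obtain ⟨C, hC⟩ := hf
  exact summable_mul hμ.summable hμ0 (f := fun g => f (g * x)) fun g => hC _

theorem Bd_Pr (hμ : HasSum μ 1) (hμ0 : ∀ g, 0 ≤ μ g) {f : G → ℝ} (hf : Bd f) : Bd (Pr μ f) := by
  obtain ⟨C, hC⟩ := hf
  exact ⟨C, fun x => abs_tsum_le hμ hμ0 (f := fun g => f (x * g)) fun g => hC _⟩

theorem Bd_Pl (hμ : HasSum μ 1) (hμ0 : ∀ g, 0 ≤ μ g) {f : G → ℝ} (hf : Bd f) : Bd (Pl μ f) := by
  obtain ⟨C, hC⟩ := hf
  exact ⟨C, fun x => abs_tsum_le hμ hμ0 (f := fun g => f (g * x)) fun g => hC _⟩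

theorem Pr_mono (hμ : HasSum μ 1) (hμ0 : ∀ g, 0 ≤ μ g) {f f' : G → ℝ} (hf : Bd f) (hf' : Bd f')
    (h : ∀ x, f x ≤ f' x) (x : G) : Pr μ f x ≤ Pr μ f' x :=
  (sumr hμ hμ0 hf x).tsum_le_tsum (fun g => mul_le_mul_of_nonneg_left (h _) (hμ0 g))
    (sumr hμ hμ0 hf' x)

theorem Pr_sub (hμ : HasSum μ 1) (hμ0 : ∀ g, 0 ≤ μ g) {f f' : G → ℝ} (hf : Bd f) (hf' : Bd f') :
    Pr μ (fun x => f x - f' x) = fun x => Pr μ f x - Pr μ f' x := by
  funext x
  unfold Pr
  rw [← (sumr hμ hμ0 hf x).tsum_sub (sumr hμ hμ0 hf' x)]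
  congr 1
  funext g
  ring

theorem comm (hμ : HasSum μ 1) (hμ0 : ∀ g, 0 ≤ μ g) {f : G → ℝ} (hf : Bd f) :
    Pr μ (Pl μ f) = Pl μ (Pr μ f) := by
  obtain ⟨C, hC⟩ := hf
  funext x
  unfold Pr Pl
  simp only [← tsum_mul_left]
  have hs : Summable (Function.uncurry fun b a : G => μ a * (μ b * f (b * (x * a)))) := by
    have h1 : Summable fun p : G × G => μ p.1 * μ p.2 :=
      hμ.summable.mul_of_nonneg hμ.summable hμ0 hμ0
    refine Summable.of_norm_bounded (g := fun p : G × G => μ p.1 * μ p.2 * C) (h1.mul_right C)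
      fun p => ?_
    change ‖μ p.2 * (μ p.1 * f (p.1 * (x * p.2)))‖ ≤ _
    rw [norm_mul, norm_mul, Real.norm_of_nonneg (hμ0 _), Real.norm_of_nonneg (hμ0 _),
      ← mul_assoc, mul_comm (μ p.2)]
    exact mul_le_mul_of_nonneg_left (hC _) (mul_nonneg (hμ0 _) (hμ0 _))
  rw [Summable.tsum_comm hs]
  congr 1; funext a
  congr 1; funext b
  rw [mul_left_comm, mul_assoc a x b]

theorem Bd_iter (hμ : HasSum μ 1) (hμ0 : ∀ g, 0 ≤ μ g) {f : G → ℝ} (hf : Bd f) (m : ℕ) :
    Bd ((Pr μ)^[m] f) := by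
  induction m with
  | zero => exact hf
  | succ m ih => rw [Function.iterate_succ_apply']; exact Bd_Pr hμ hμ0 ih

theorem iter_mono (hμ : HasSum μ 1) (hμ0 : ∀ g, 0 ≤ μ g) {f f' : G → ℝ} (hf : Bd f) (hf' : Bd f')
    (h : ∀ x, f x ≤ f' x) (m : ℕ) (x : G) : (Pr μ)^[m] f x ≤ (Pr μ)^[m] f' x := by
  induction m generalizing x with
  | zero => exact h x
  | succ m ih =>
    rw [Function.iterate_succ_apply', Function.iterate_succ_apply']
    exact Pr_mono hμ hμ0 (Bd_iter hμ hμ0 hf m) (Bd_iter hμ hμ0 hf' m) ih x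

theorem le_iter (hμ : HasSum μ 1) (hμ0 : ∀ g, 0 ≤ μ g) {f : G → ℝ} (hf : Bd f)
    (h : ∀ x, f x ≤ Pr μ f x) (m : ℕ) (x : G) : f x ≤ (Pr μ)^[m] f x := by
  induction m generalizing x with
  | zero => exact le_rfl
  | succ m ih =>
    rw [Function.iterate_succ_apply']
    exact (h x).trans (Pr_mono hμ hμ0 hf (Bd_iter hμ hμ0 hf m) ih x)

theorem iter_sub (hμ : HasSum μ 1) (hμ0 : ∀ g, 0 ≤ μ g) {f f' : G → ℝ} (hf : Bd f) (hf' : Bd f')
    (m : ℕ) : (Pr μ)^[m] (fun x => f x - f' x) = fun x => (Pr μ)^[m] f x - (Pr μ)^[m] f' x := by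
  induction m with
  | zero => rfl
  | succ m ih =>
    rw [Function.iterate_succ_apply', ih, Function.iterate_succ_apply',
      Function.iterate_succ_apply', Pr_sub hμ hμ0 (Bd_iter hμ hμ0 hf m) (Bd_iter hμ hμ0 hf' m)]

theorem iter_comm (hμ : HasSum μ 1) (hμ0 : ∀ g, 0 ≤ μ g) {f : G → ℝ} (hf : Bd f) (m : ℕ) :
    (Pr μ)^[m] (Pl μ f) = Pl μ ((Pr μ)^[m] f) := by
  induction m with
  | zero => rfl
  | succ m ih =>
    rw [Function.iterate_succ_apply', ih, Function.iterate_succ_apply',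
      comm hμ hμ0 (Bd_iter hμ hμ0 hf m)]

theorem Pl_one (f : G → ℝ) : Pl μ f 1 = Pr μ f 1 := by
  unfold Pl Pr
  simp

omit [Group G] in
theorem jensen (hμ : HasSum μ 1) (hμ0 : ∀ g, 0 ≤ μ g) {a : G → ℝ} {C : ℝ}
    (ha : ∀ g, |a g| ≤ C) : (∑' g, μ g * a g) ^ 2 ≤ ∑' g, μ g * (a g) ^ 2 := by
  set m := ∑' g, μ g * a g with hm
  have h1 : HasSum (fun g => μ g * a g) m := (summable_mul hμ.summable hμ0 ha).hasSum
  have h2 : HasSum (fun g => μ g * (a g) ^ 2) (∑' g, μ g * (a g) ^ 2) := by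
    refine (summable_mul hμ.summable hμ0 (f := fun g => (a g) ^ 2) (C := C ^ 2) fun g => ?_).hasSum
    rw [abs_pow]
    exact pow_le_pow_left₀ (abs_nonneg _) (ha g) 2
  have h3 := (h2.sub (h1.mul_left (2 * m))).add (hμ.mul_right (m ^ 2))
  have h4 : 0 ≤ (∑' g, μ g * (a g) ^ 2) - 2 * m * m + 1 * m ^ 2 := by
    refine h3.nonneg fun g => ?_
    have : μ g * (a g) ^ 2 - 2 * m * (μ g * a g) + μ g * m ^ 2 = μ g * (a g - m) ^ 2 := by ring
    rw [this]
    exact mul_nonneg (hμ0 g) (sq_nonneg _)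
  nlinarith

theorem sub_harm (hμ : HasSum μ 1) (hμ0 : ∀ g, 0 ≤ μ g) (k : G → ℂ) (C : ℝ)
    (hk : ∀ x, ‖k x‖ ≤ C) (ψ : G → ℂ) (hψ : ∀ g, ‖ψ g‖ ≤ 1)
    (h2 : ∀ x, k x = ∑' g, (μ g : ℂ) * (ψ g * k (x * g))) (x : G) :
    Complex.normSq (k x) ≤ Pr μ (fun y => Complex.normSq (k y)) x := by
  have h3 : ‖k x‖ ≤ ∑' g, μ g * ‖k (x * g)‖ := by
    rw [h2 x]
    have hs : Summable fun g => μ g * ‖k (x * g)‖ :=
      summable_mul hμ.summable hμ0 (f := fun g => ‖k (x * g)‖) (C := C) fun g => by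
        rw [abs_of_nonneg (norm_nonneg _)]; exact hk _
    refine tsum_of_norm_bounded hs.hasSum fun g => ?_
    rw [norm_mul, norm_mul, Complex.norm_real, Real.norm_of_nonneg (hμ0 g)]
    refine mul_le_mul_of_nonneg_left ?_ (hμ0 g)
    exact mul_le_of_le_one_left (norm_nonneg _) (hψ g)
  rw [Complex.normSq_eq_norm_sq]
  calc ‖k x‖ ^ 2 ≤ (∑' g, μ g * ‖k (x * g)‖) ^ 2 := pow_le_pow_left₀ (norm_nonneg _) h3 2
    _ ≤ ∑' g, μ g * ‖k (x * g)‖ ^ 2 := jensen hμ hμ0 (C := C) fun g => by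
        rw [abs_of_nonneg (norm_nonneg _)]; exact hk _
    _ = Pr μ (fun y => Complex.normSq (k y)) x := by
        unfold Pr
        simp only [Complex.normSq_eq_norm_sq]

theorem Bd_normSq {k : G → ℂ} {C : ℝ} (hk : ∀ x, ‖k x‖ ≤ C) :
    Bd (fun y => Complex.normSq (k y)) :=
  ⟨C ^ 2, fun x => by
    change |Complex.normSq (k x)| ≤ C ^ 2
    rw [Complex.normSq_eq_norm_sq, abs_of_nonneg (by positivity)]
    exact pow_le_pow_left₀ (norm_nonneg _) (hk x) 2⟩

/-- Bounded functions harmonic on the left and twisted harmonic on the right are constant. -/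
theorem biharm (hμ : HasSum μ 1) (hμ0 : ∀ g, 0 < μ g) (k : G → ℂ) (C : ℝ)
    (hk : ∀ x, ‖k x‖ ≤ C) (ψ : G → ℂ) (hψ : ∀ g, ‖ψ g‖ ≤ 1)
    (h1 : ∀ x, k x = ∑' g, (μ g : ℂ) * k (g * x))
    (h2 : ∀ x, k x = ∑' g, (μ g : ℂ) * (ψ g * k (x * g))) (s : G) : k s = k 1 := by
  have hμ0' : ∀ g, 0 ≤ μ g := fun g => (hμ0 g).le
  have hμc : HasSum (fun g => (μ g : ℂ)) 1 := by
    have := Complex.hasSum_ofReal.2 hμ
    simpa using this
  -- summability of complex series
  have hsc : ∀ (u : G → ℂ) (D : ℝ), (∀ g, ‖u g‖ ≤ D) → Summable fun g => (μ g : ℂ) * u g := by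
    intro u D hu
    refine Summable.of_norm_bounded (g := fun g => μ g * D) (hμ.summable.mul_right D) fun g => ?_
    rw [norm_mul, Complex.norm_real, Real.norm_of_nonneg (hμ0' g)]
    exact mul_le_mul_of_nonneg_left (hu g) (hμ0' g)
  set F : G → ℝ := fun y => Complex.normSq (k y) with hF
  have hFb : Bd F := Bd_normSq hk
  let D : G → G → ℝ := fun s y => Complex.normSq (k (s * y) - k y)
  have hDb : ∀ s, Bd (D s) := fun s => Bd_normSq (k := fun y => k (s * y) - k y) (C := C + C)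
    fun x => (norm_sub_le _ _).trans (add_le_add (hk _) (hk _))
  have hDs : ∀ s x, D s x ≤ Pr μ (D s) x := by
    intro s x
    refine sub_harm hμ hμ0' (fun y => k (s * y) - k y) (C + C)
      (fun x => (norm_sub_le _ _).trans (add_le_add (hk _) (hk _))) ψ hψ (fun y => ?_) x
    have e1 : Summable fun g => (μ g : ℂ) * (ψ g * k (s * y * g)) :=
      hsc _ C fun g => by
        rw [norm_mul]
        exact (mul_le_mul (hψ g) (hk _) (norm_nonneg _) zero_le_one).trans (by rw [one_mul])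
    have e2 : Summable fun g => (μ g : ℂ) * (ψ g * k (y * g)) :=
      hsc _ C fun g => by
        rw [norm_mul]
        exact (mul_le_mul (hψ g) (hk _) (norm_nonneg _) zero_le_one).trans (by rw [one_mul])
    rw [h2 (s * y), h2 y, ← e1.tsum_sub e2]
    congr 1
    funext g
    rw [mul_assoc s y g]
    ring
  -- the left Laplacian of the square
  have hq : ∀ x, HasSum (fun s => μ s * D s x) (Pl μ F x - F x) := by
    intro x
    have ha : HasSum (fun s => μ s * Complex.normSq (k (s * x))) (Pl μ F x) :=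
      (suml hμ hμ0' hFb x).hasSum
    have hb : HasSum (fun s => μ s * Complex.normSq (k x)) (1 * Complex.normSq (k x)) :=
      hμ.mul_right _
    have hc : HasSum (fun s => (μ s : ℂ) * k (s * x)) (k x) := by
      have := (hsc (fun s => k (s * x)) C fun g => hk _).hasSum
      rwa [← h1 x] at this
    have hd := Complex.hasSum_re (hc.mul_right (conj (k x)))
    have he := (ha.add hb).sub (hd.mul_left 2)
    have e1 : Pl μ F x + 1 * Complex.normSq (k x) - 2 * (k x * conj (k x)).re = Pl μ F x - F x := by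
      rw [Complex.mul_conj, Complex.ofReal_re, hF]
      ring
    rw [e1] at he
    have e2 : (fun s => μ s * D s x) = fun s => μ s * Complex.normSq (k (s * x)) +
        μ s * Complex.normSq (k x) - 2 * ((μ s : ℂ) * k (s * x) * conj (k x)).re := by
      funext s
      have e3 : D s x = Complex.normSq (k (s * x) - k x) := rfl
      rw [e3, Complex.normSq_sub, mul_assoc ((μ s : ℂ)), Complex.re_ofReal_mul]
      ring
    rw [e2]
    exact he
  have hqb : Bd (fun x => Pl μ F x - F x) := by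
    obtain ⟨C1, h1⟩ := Bd_Pl hμ hμ0' hFb
    obtain ⟨C2, h2⟩ := hFb
    exact ⟨C1 + C2, fun x => (abs_sub _ _).trans (add_le_add (h1 x) (h2 x))⟩
  let a : ℕ → ℝ := fun m => (Pr μ)^[m] F 1
  have hstep : ∀ m, (Pr μ)^[m] (fun x => Pl μ F x - F x) 1 = a (m + 1) - a m := by
    intro m
    rw [iter_sub hμ hμ0' (Bd_Pl hμ hμ0' hFb) hFb, iter_comm hμ hμ0' hFb]
    change Pl μ ((Pr μ)^[m] F) 1 - _ = _
    rw [Pl_one]
    change _ = (Pr μ)^[m + 1] F 1 - _
    rw [Function.iterate_succ_apply']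
  -- the key inequality
  have hkey : ∀ m, μ s * D s 1 ≤ a (m + 1) - a m := by
    intro m
    rw [← hstep]
    have hb : Bd (fun x => μ s * D s x) := by
      obtain ⟨C1, h1⟩ := hDb s
      refine ⟨μ s * C1, fun x => ?_⟩
      rw [abs_mul, abs_of_nonneg (hμ0' s)]
      exact mul_le_mul_of_nonneg_left (h1 x) (hμ0' s)
    have hle : ∀ x, μ s * D s x ≤ Pr μ (fun x => μ s * D s x) x := by
      intro x
      have : Pr μ (fun x => μ s * D s x) x = μ s * Pr μ (D s) x := by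
        unfold Pr
        rw [← tsum_mul_left]
        congr 1
        funext g
        ring
      rw [this]
      exact mul_le_mul_of_nonneg_left (hDs s x) (hμ0' s)
    refine (le_iter hμ hμ0' hb hle m 1).trans (iter_mono hμ hμ0' hb hqb (fun x => ?_) m 1)
    exact le_hasSum (hq x) s fun t _ => mul_nonneg (hμ0' t) (Complex.normSq_nonneg _)
  have hsum : ∀ M : ℕ, (M : ℝ) * (μ s * D s 1) ≤ a M - a 0 := by
    intro M
    induction M with
    | zero => simp
    | succ M ih =>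
      have := hkey M
      push_cast
      linarith
  obtain ⟨C2, hC2⟩ := hFb
  have hFC : Bd F := ⟨C2, hC2⟩
  have hiter : ∀ m x, |(Pr μ)^[m] F x| ≤ C2 := by
    intro m
    induction m with
    | zero => exact hC2
    | succ m ih =>
      intro x
      rw [Function.iterate_succ_apply']
      exact abs_tsum_le hμ hμ0' (f := fun g => (Pr μ)^[m] F (x * g)) fun g => ih _
  have hbound : ∀ M : ℕ, (M : ℝ) * (μ s * D s 1) ≤ C2 + C2 := by
    intro M
    have h3 := hsum M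
    have h4 := abs_le.1 (hiter M 1)
    have h5 := abs_le.1 (hiter 0 1)
    have h6 : a M ≤ C2 := h4.2
    have h7 : -C2 ≤ a 0 := h5.1
    linarith
  have hD0 : D s 1 = 0 := by
    by_contra hne
    have hpos : 0 < μ s * D s 1 :=
      mul_pos (hμ0 s) (lt_of_le_of_ne (Complex.normSq_nonneg _) (Ne.symm hne))
    obtain ⟨M, hM⟩ := exists_nat_gt ((C2 + C2) / (μ s * D s 1))
    rw [div_lt_iff₀ hpos] at hM
    linarith [hbound M]
  have h8 : k (s * 1) - k 1 = 0 := Complex.normSq_eq_zero.1 hD0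
  rw [mul_one] at h8
  exact sub_eq_zero.1 h8

end Pool.H859R2.BiHarm
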