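import Mathlib

/-! The convolution algebra `ℓ¹(G)` of a discrete group as a Banach algebra. -/

set_option autoImplicit false

namespace Pool.H859R2.L1

open Filter Topology
open scoped ENNReal

/-- the Banach space `ℓ¹(G)` -/
def A (G : Type) : Type := lp (fun _ : G => ℂ) 1

section basic

variable {G : Type}

noncomputable instance : NormedAddCommGroup (A G) :=
  inferInstanceAs (NormedAddCommGroup (lp (fun _ : G => ℂ) 1))
noncomputable instance : NormedSpace ℂ (A G) :=
  inferInstanceAs (NormedSpace ℂ (lp (fun _ : G => ℂ) 1))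
noncomputable instance : CompleteSpace (A G) :=
  inferInstanceAs (CompleteSpace (lp (fun _ : G => ℂ) 1))

/-- evaluation -/
noncomputable def ev (x : G) : A G →L[ℂ] ℂ := lp.evalCLM ℂ (fun _ : G => ℂ) 1 x

theorem ext_ev {f g : A G} (h : ∀ x, ev x f = ev x g) : f = g := by
  apply lp.ext
  funext x
  exact h x

open Classical in
/-- the point masses -/
noncomputable def dl (x : G) : A G := lp.single 1 x (1 : ℂ)

open Classical in
theorem ev_dl (x y : G) : ev y (dl x) = if y = x then 1 else 0 := by
  change (lp.single (E := fun _ : G => ℂ) 1 x (1 : ℂ)) y = _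
  rw [lp.single_apply, Pi.single_apply]

theorem norm_dl (x : G) : ‖dl x‖ = 1 := by
  classical
  change ‖lp.single (E := fun _ : G => ℂ) 1 x (1 : ℂ)‖ = 1
  rw [lp.norm_single (by norm_num)]
  simp

theorem summable_ev (f : A G) : Summable fun x => ‖ev x f‖ := by
  have := lp.memℓp (show lp (fun _ : G => ℂ) 1 from f)
  rw [memℓp_gen_iff (by simp)] at this
  simp only [ENNReal.toReal_one, Real.rpow_one] at this
  exact this

theorem norm_eq (f : A G) : ‖f‖ = ∑' x, ‖ev x f‖ := by
  have := lp.norm_eq_tsum_rpow (p := 1) (by simp) (show lp (fun _ : G => ℂ) 1 from f)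
  simp only [ENNReal.toReal_one, Real.rpow_one, div_one] at this
  exact this

theorem hasSum_dl (f : A G) : HasSum (fun x => ev x f • dl x) f := by
  classical
  have := lp.hasSum_single (p := 1) (by simp) (show lp (fun _ : G => ℂ) 1 from f)
  have h2 : (fun x => ev x f • dl x) = fun x => lp.single (E := fun _ : G => ℂ) 1 x (ev x f) := by
    funext x
    change ev x f • (lp.single (E := fun _ : G => ℂ) 1 x (1 : ℂ)) =
      lp.single (E := fun _ : G => ℂ) 1 x (ev x f)
    rw [← lp.single_smul]
    simp
  rw [h2]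
  exact this

/-- the element with given coordinates -/
noncomputable def mk (f : G → ℂ) (h : Summable fun x => ‖f x‖) : A G :=
  ⟨f, by
    change Memℓp f 1
    rw [memℓp_gen_iff (by simp)]
    simpa using h⟩

theorem ev_mk (f : G → ℂ) (h : Summable fun x => ‖f x‖) (x : G) : ev x (mk f h) = f x := rfl

variable {E : Type*} [NormedAddCommGroup E] [NormedSpace ℂ E]

theorem clm_ext {F : Type*} [NormedAddCommGroup F] [NormedSpace ℂ F] {φ ψ : A G →L[ℂ] F}
    (h : ∀ x, φ (dl x) = ψ (dl x)) : φ = ψ := by
  ext f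
  have h1 := (hasSum_dl f).mapL φ
  have h2 := (hasSum_dl f).mapL ψ
  have h3 : (fun x => φ (ev x f • dl x)) = fun x => ψ (ev x f • dl x) := by
    funext x; rw [map_smul, map_smul, h]
  rw [h3] at h1
  exact h1.unique h2

variable [CompleteSpace E]

theorem summable_lift (v : G → E) (C : ℝ) (hv : ∀ g, ‖v g‖ ≤ C) (f : A G) :
    Summable fun g => ev g f • v g := by
  refine Summable.of_norm_bounded (g := fun g => ‖ev g f‖ * C) ((summable_ev f).mul_right _) ?_
  intro g
  rw [norm_smul]
  exact mul_le_mul_of_nonneg_left (hv g) (norm_nonneg _)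

/-- the universal property of `ℓ¹`. -/
noncomputable def lift (v : G → E) (C : ℝ) (hv : ∀ g, ‖v g‖ ≤ C) : A G →L[ℂ] E :=
  LinearMap.mkContinuous
    { toFun := fun f => ∑' g, ev g f • v g
      map_add' := fun f g => by
        rw [← (summable_lift v C hv f).tsum_add (summable_lift v C hv g)]
        congr 1; funext x
        rw [map_add, add_smul]
      map_smul' := fun c f => by
        rw [RingHom.id_apply, ← (summable_lift v C hv f).tsum_const_smul]
        congr 1; funext x
        rw [map_smul, smul_smul, smul_eq_mul] } C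
    (fun f => by
      change ‖∑' g, ev g f • v g‖ ≤ C * ‖f‖
      rw [norm_eq, ← tsum_mul_left]
      refine tsum_of_norm_bounded ((summable_ev f).mul_left C).hasSum (fun g => ?_)
      rw [norm_smul, mul_comm]
      exact mul_le_mul_of_nonneg_right (hv g) (norm_nonneg _))

theorem lift_apply (v : G → E) (C : ℝ) (hv : ∀ g, ‖v g‖ ≤ C) (f : A G) :
    lift v C hv f = ∑' g, ev g f • v g := rfl

theorem lift_dl (v : G → E) (C : ℝ) (hv : ∀ g, ‖v g‖ ≤ C) (x : G) :
    lift v C hv (dl x) = v x := by
  classical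
  rw [lift_apply, tsum_eq_single x]
  · rw [ev_dl, if_pos rfl, one_smul]
  · intro y hy
    rw [ev_dl, if_neg hy, zero_smul]

theorem norm_lift_le (v : G → E) (C : ℝ) (hC : 0 ≤ C) (hv : ∀ g, ‖v g‖ ≤ C) :
    ‖lift v C hv‖ ≤ C := LinearMap.mkContinuous_norm_le _ hC _

end basic

section alg

variable {G : Type} [Group G]

/-- left translation -/
noncomputable def tau (g : G) : A G →L[ℂ] A G :=
  lift (fun x => dl (g * x)) 1 (fun x => (norm_dl _).le)

theorem tau_dl (g x : G) : tau g (dl x) = dl (g * x) := lift_dl _ _ _ _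

theorem norm_tau_le (g : G) : ‖tau g‖ ≤ 1 := norm_lift_le _ _ zero_le_one _

/-- convolution -/
noncomputable def cv : A G →L[ℂ] A G →L[ℂ] A G := lift tau 1 norm_tau_le

theorem cv_dl (g : G) : cv (dl g) = tau g := lift_dl _ _ _ _

theorem norm_cv_le : ‖(cv : A G →L[ℂ] A G →L[ℂ] A G)‖ ≤ 1 := norm_lift_le _ _ zero_le_one _

theorem cv_dl_dl (g h : G) : cv (dl g) (dl h) = dl (g * h) := by
  rw [cv_dl, tau_dl]

theorem ev_tau (x y : G) (g : A G) : ev x (tau y g) = ev (y⁻¹ * x) g := by
  classical
  have : (ev x).comp (tau y) = ev (y⁻¹ * x) := by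
    apply clm_ext
    intro z
    rw [ContinuousLinearMap.comp_apply, tau_dl, ev_dl, ev_dl]
    congr 1
    rw [eq_iff_iff]
    constructor
    · rintro rfl; group
    · intro h; rw [← h]; group
  exact DFunLike.congr_fun this g

theorem ev_cv (f g : A G) (x : G) : ev x (cv f g) = ∑' y, ev y f * ev (y⁻¹ * x) g := by
  have h1 : HasSum (fun y => ev y f • tau y) (cv f) := (summable_lift tau 1 norm_tau_le f).hasSum
  have h2 := h1.mapL ((ev x).comp (ContinuousLinearMap.apply ℂ (A G) g))
  have h3 := h2.tsum_eq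
  change _ = ev x (cv f g) at h3
  rw [← h3]
  congr 1
  funext y
  change ev x ((ev y f • tau y) g) = _
  rw [ContinuousLinearMap.smul_apply, map_smul, ev_tau, smul_eq_mul]

theorem cv_one (f : A G) : cv f (dl 1) = f := by
  have : (ContinuousLinearMap.apply ℂ (A G) (dl (1 : G))).comp cv = ContinuousLinearMap.id ℂ _ := by
    apply clm_ext
    intro x
    change cv (dl x) (dl 1) = dl x
    rw [cv_dl_dl, mul_one]
  exact DFunLike.congr_fun this f

theorem one_cv (f : A G) : cv (dl 1) f = f := by
  have : cv (dl (1 : G)) = ContinuousLinearMap.id ℂ _ := by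
    apply clm_ext
    intro x
    change cv (dl 1) (dl x) = dl x
    rw [cv_dl_dl, one_mul]
  rw [this]; rfl

theorem cv_assoc (f g h : A G) : cv (cv f g) h = cv f (cv g h) := by
  -- reduce f
  have e1 : ∀ x y z : G, cv (cv (dl x) (dl y)) (dl z) = cv (dl x) (cv (dl y) (dl z)) := by
    intro x y z
    rw [cv_dl_dl, cv_dl_dl, cv_dl_dl, cv_dl_dl, mul_assoc]
  have e2 : ∀ (x y : G) (h : A G), cv (cv (dl x) (dl y)) h = cv (dl x) (cv (dl y) h) := by
    intro x y h
    have : cv (cv (dl x) (dl y)) = (cv (dl x)).comp (cv (dl y)) := clm_ext fun z => e1 x y z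
    rw [this]; rfl
  have e3 : ∀ (x : G) (g h : A G), cv (cv (dl x) g) h = cv (dl x) (cv g h) := by
    intro x g h
    have : ((ContinuousLinearMap.apply ℂ (A G) h).comp cv).comp (cv (dl x)) =
        (cv (dl x)).comp ((ContinuousLinearMap.apply ℂ (A G) h).comp cv) :=
      clm_ext fun y => e2 x y h
    exact DFunLike.congr_fun this g
  have : ((ContinuousLinearMap.apply ℂ (A G) h).comp cv).comp
      ((ContinuousLinearMap.apply ℂ (A G) g).comp cv) =
      (ContinuousLinearMap.apply ℂ (A G) (cv g h)).comp cv :=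
    clm_ext fun x => e3 x g h
  exact DFunLike.congr_fun this f

noncomputable instance : NormedRing (A G) :=
  { (inferInstance : NormedAddCommGroup (A G)) with
    mul := fun f g => cv f g
    one := dl 1
    mul_assoc := cv_assoc
    one_mul := one_cv
    mul_one := cv_one
    left_distrib := fun f g h => map_add (cv f) g h
    right_distrib := fun f g h => by
      change cv (f + g) h = cv f h + cv g h
      rw [map_add]; rfl
    zero_mul := fun f => by
      change cv 0 f = 0
      rw [map_zero]; rfl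
    mul_zero := fun f => map_zero (cv f)
    norm_mul_le := fun f g => by
      change ‖cv f g‖ ≤ ‖f‖ * ‖g‖
      calc ‖cv f g‖ ≤ ‖cv f‖ * ‖g‖ := (cv f).le_opNorm g
        _ ≤ (‖(cv : A G →L[ℂ] A G →L[ℂ] A G)‖ * ‖f‖) * ‖g‖ :=
          mul_le_mul_of_nonneg_right (cv.le_opNorm f) (norm_nonneg _)
        _ ≤ (1 * ‖f‖) * ‖g‖ := by
          gcongr
          exact norm_cv_le
        _ = ‖f‖ * ‖g‖ := by rw [one_mul] }

theorem mul_def (f g : A G) : f * g = cv f g := rfl
theorem one_def : (1 : A G) = dl 1 := rfl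

noncomputable instance : Algebra ℂ (A G) :=
  Algebra.ofModule (fun r f g => by
    change cv (r • f) g = r • cv f g
    rw [map_smul]; rfl) (fun r f g => by
    change cv f (r • g) = r • cv f g
    rw [map_smul])

noncomputable instance : NormedAlgebra ℂ (A G) :=
  { (inferInstance : Algebra ℂ (A G)) with
    norm_smul_le := fun r f => norm_smul_le (α := ℂ) (β := A G) r f }

instance : NormOneClass (A G) := ⟨norm_dl 1⟩

theorem dl_mul (g h : G) : dl g * dl h = dl (g * h) := cv_dl_dl g h

theorem ev_mul (f g : A G) (x : G) : ev x (f * g) = ∑' y, ev y f * ev (y⁻¹ * x) g := ev_cv f g x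

end alg

end Pool.H859R2.L1
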