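import Pool.Agent.H859R2.L1Main

/-! Closed two-sided ideals of codimension two in `ℓ¹(G)`. -/

set_option autoImplicit false

namespace Pool.H859R2.L1

open Filter Topology ComplexConjugate

variable {G : Type} [Group G]

/-- strictly positive probability weights on a countable group -/
theorem exists_weights [Countable G] : ∃ μ : G → ℝ, HasSum μ 1 ∧ ∀ g, 0 < μ g := by
  obtain ⟨e⟩ := nonempty_encodable G
  obtain ⟨ν, hν0, c, hc, -⟩ := posSumOfEncodable (ε := 1) one_pos G
  have hcpos : 0 < c := by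
    have h1 := le_hasSum hc 1 fun g _ => (hν0 g).le
    exact (hν0 1).trans_le h1
  refine ⟨fun g => ν g / c, ?_, fun g => div_pos (hν0 g) hcpos⟩
  have := hc.div_const c
  rwa [div_self hcpos.ne'] at this

/-- a bounded point derivation at a character vanishes -/
theorem deriv_zero (α : A G →ₐ[ℂ] ℂ) (q : A G →L[ℂ] ℂ)
    (hq : ∀ a b, q (a * b) = α a * q b + q a * α b) : q = 0 := by
  apply clm_ext
  intro g
  change q (dl g) = 0
  have h1 : ∀ n : ℕ, q (dl (g ^ (n + 1))) = (n + 1) * α (dl g) ^ n * q (dl g) := by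
    intro n
    induction n with
    | zero => simp
    | succ n ih =>
      rw [pow_succ, ← dl_mul, hq, ih]
      have h2 : α (dl (g ^ (n + 1))) = α (dl g) ^ (n + 1) := by
        clear ih
        induction n with
        | zero => simp
        | succ n ih => rw [pow_succ, ← dl_mul, map_mul, ih]; ring
      rw [h2]
      push_cast
      ring
  have h2 : ∀ n : ℕ, ((n : ℝ) + 1) * ‖q (dl g)‖ ≤ ‖q‖ := by
    intro n
    have h3 : ‖q (dl (g ^ (n + 1)))‖ ≤ ‖q‖ := by
      refine (q.le_opNorm _).trans ?_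
      rw [norm_dl, mul_one]
    rw [h1, norm_mul, norm_mul, norm_pow, norm_char, one_pow, mul_one] at h3
    have h4 : ‖((n : ℂ) + 1)‖ = (n : ℝ) + 1 := by
      have : ((n : ℂ) + 1) = ((n + 1 : ℕ) : ℂ) := by push_cast; rfl
      rw [this, Complex.norm_natCast]
      push_cast; rfl
    rwa [h4] at h3
  by_contra hne
  have hpos : 0 < ‖q (dl g)‖ := norm_pos_iff.2 hne
  obtain ⟨n, hn⟩ := exists_nat_gt (‖q‖ / ‖q (dl g)‖)
  rw [div_lt_iff₀ hpos] at hn
  have := h2 n
  nlinarith

theorem table_aux {B : Type*} [Ring B] [Algebra ℂ B] (a b x : B) (pa qa pb qb t s : ℂ) :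
    a * b - ((pa * pb + qa * qb * t) • (1 : B) + (pa * qb + qa * pb + qa * qb * s) • x) =
      (a - (pa • 1 + qa • x)) * b + (pa • 1 + qa • x) * (b - (pb • 1 + qb • x)) +
      (qa * qb) • (x * x - (t • 1 + s • x)) := by
  simp only [sub_mul, add_mul, mul_sub, mul_add, smul_mul_assoc, mul_smul_comm, one_mul,
    mul_one, smul_smul, smul_add, smul_sub]
  module

theorem classify (I : Submodule ℂ (A G)) (hI : IsClosed (I : Set (A G)))
    (hl : ∀ a, ∀ s ∈ I, a * s ∈ I) (hr : ∀ a, ∀ s ∈ I, s * a ∈ I)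
    (hd : Module.finrank ℂ (A G ⧸ I) = 2) :
    ∃ α β : A G →ₐ[ℂ] ℂ, I = Ke α ⊓ Ke β := by
  have hc : IsClosed (I : Set (A G)) := hI
  have hfd : FiniteDimensional ℂ (A G ⧸ I) := Module.finite_of_finrank_pos (by rw [hd]; norm_num)
  -- `1 ∉ I`
  have h1 : (1 : A G) ∉ I := by
    intro h
    have : I = ⊤ := by
      rw [eq_top_iff]
      intro x _
      have := hl x 1 h
      rwa [mul_one] at this
    subst this
    have h2 : Module.finrank ℂ (A G ⧸ (⊤ : Submodule ℂ (A G))) = 0 :=
      Module.finrank_zero_of_subsingleton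
    rw [h2] at hd
    norm_num at hd
  have h1' : I.mkQ 1 ≠ 0 := fun h => h1 ((Submodule.Quotient.mk_eq_zero I).1 h)
  -- a second basis vector
  obtain ⟨y, hy⟩ : ∃ y : A G ⧸ I, y ∉ Submodule.span ℂ {I.mkQ 1} := by
    by_contra hcon
    push Not at hcon
    have h2 : Submodule.span ℂ {I.mkQ 1} = ⊤ := by
      rw [eq_top_iff]; intro y _; exact hcon y
    have h3 := finrank_span_le_card (R := ℂ) ({I.mkQ 1} : Set (A G ⧸ I))
    rw [h2, finrank_top, hd] at h3
    simp at h3
  obtain ⟨x, rfl⟩ := I.mkQ_surjective y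
  have hli : LinearIndependent ℂ ![I.mkQ 1, I.mkQ x] := by
    rw [LinearIndependent.pair_iff]
    intro s t hst
    by_cases ht : t = 0
    · subst ht
      simp only [zero_smul, add_zero, smul_eq_zero] at hst
      rcases hst with h | h
      · exact ⟨h, rfl⟩
      · exact absurd h h1'
    · exfalso
      apply hy
      have h2 : I.mkQ x = (-(t⁻¹ * s)) • I.mkQ 1 := by
        have h3 : t • I.mkQ x = -(s • I.mkQ 1) := by
          rw [eq_neg_iff_add_eq_zero, add_comm]; exact hst
        calc I.mkQ x = t⁻¹ • (t • I.mkQ x) := by rw [smul_smul, inv_mul_cancel₀ ht, one_smul]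
          _ = (-(t⁻¹ * s)) • I.mkQ 1 := by rw [h3, smul_neg, smul_smul, neg_smul]
      rw [h2]
      exact Submodule.smul_mem _ _ (Submodule.mem_span_singleton_self _)
  let bs := basisOfLinearIndependentOfCardEqFinrank hli (by rw [hd]; rfl)
  have hb0 : bs 0 = I.mkQ 1 := by
    simp [bs]
  have hb1 : bs 1 = I.mkQ x := by
    simp [bs]
  let p : A G →L[ℂ] ℂ := (LinearMap.toContinuousLinearMap (bs.coord 0)).comp I.mkQL
  let q : A G →L[ℂ] ℂ := (LinearMap.toContinuousLinearMap (bs.coord 1)).comp I.mkQL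
  have hpq : ∀ a, I.mkQ a = p a • I.mkQ 1 + q a • I.mkQ x := by
    intro a
    have := bs.sum_repr (I.mkQ a)
    rw [Fin.sum_univ_two, hb0, hb1] at this
    exact this.symm
  have hmem : ∀ a, a - (p a • 1 + q a • x) ∈ I := by
    intro a
    rw [← Submodule.Quotient.mk_eq_zero]
    change I.mkQ _ = 0
    rw [map_sub, map_add, map_smul, map_smul, hpq a, sub_self]
  have hp1 : p 1 = 1 := by
    change bs.repr (I.mkQ 1) 0 = 1
    rw [← hb0, bs.repr_self]; simp
  have hq1 : q 1 = 0 := by
    change bs.repr (I.mkQ 1) 1 = 0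
    rw [← hb0, bs.repr_self]; simp
  have hpx : p x = 0 := by
    change bs.repr (I.mkQ x) 0 = 0
    rw [← hb1, bs.repr_self]; simp
  have hqx : q x = 1 := by
    change bs.repr (I.mkQ x) 1 = 1
    rw [← hb1, bs.repr_self]; simp
  have hker : ∀ a, a ∈ I ↔ p a = 0 ∧ q a = 0 := by
    intro a
    constructor
    · intro ha
      have h0 : I.mkQ a = 0 := (Submodule.Quotient.mk_eq_zero I).2 ha
      constructor
      · change bs.repr (I.mkQ a) 0 = 0
        rw [h0]; simp
      · change bs.repr (I.mkQ a) 1 = 0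
        rw [h0]; simp
    · rintro ⟨h2, h3⟩
      have := hmem a
      rw [h2, h3, zero_smul, zero_smul, add_zero, sub_zero] at this
      exact this
  set s := q (x * x) with hs
  set t := p (x * x) with ht
  -- multiplication table
  have hmul : ∀ a b, a * b - ((p a * p b + q a * q b * t) • (1 : A G) +
      (p a * q b + q a * p b + q a * q b * s) • x) ∈ I := by
    intro a b
    have e : a * b - ((p a * p b + q a * q b * t) • (1 : A G) +
      (p a * q b + q a * p b + q a * q b * s) • x) =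
      (a - (p a • 1 + q a • x)) * b + (p a • 1 + q a • x) * (b - (p b • 1 + q b • x)) +
      (q a * q b) • (x * x - (t • 1 + s • x)) := table_aux a b x _ _ _ _ _ _
    rw [e]
    exact I.add_mem (I.add_mem (hr _ _ (hmem a)) (hl _ _ (hmem b))) (I.smul_mem _ (hmem _))
  have hpm : ∀ a b, p (a * b) = p a * p b + q a * q b * t := by
    intro a b
    have := ((hker _).1 (hmul a b)).1
    rw [map_sub, map_add, map_smul, map_smul, hp1, hpx, smul_eq_mul, smul_eq_mul] at this
    linear_combination this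
  have hqm : ∀ a b, q (a * b) = p a * q b + q a * p b + q a * q b * s := by
    intro a b
    have := ((hker _).1 (hmul a b)).2
    rw [map_sub, map_add, map_smul, map_smul, hq1, hqx, smul_eq_mul, smul_eq_mul] at this
    linear_combination this
  -- the character attached to a root
  have hchar : ∀ r : ℂ, r * r = s * r + t → ∃ α : A G →ₐ[ℂ] ℂ, ∀ a, α a = p a + r * q a := by
    intro r hr2
    refine ⟨AlgHom.ofLinearMap ((p + r • q : A G →L[ℂ] ℂ) : A G →ₗ[ℂ] ℂ) ?_ ?_, fun a => rfl⟩
    · change p 1 + r * q 1 = 1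
      rw [hp1, hq1]; ring
    · intro a b
      change p (a * b) + r * q (a * b) = (p a + r * q a) * (p b + r * q b)
      rw [hpm, hqm]
      linear_combination (-(q a * q b)) * hr2
  -- roots
  obtain ⟨w, hw⟩ : ∃ w : ℂ, w * w = s * s + 4 * t := by
    obtain ⟨w, hw⟩ := IsAlgClosed.exists_pow_nat_eq (s * s + 4 * t) two_pos
    exact ⟨w, by rw [← hw]; ring⟩
  by_cases hw0 : w = 0
  · exfalso
    subst hw0
    obtain ⟨α, hα⟩ := hchar (s / 2) (by linear_combination (1 / 4) * hw)
    have hq0 := deriv_zero α q (fun a b => by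
      rw [hα, hα, hqm]
      ring)
    rw [hq0] at hqx
    simp at hqx
  · obtain ⟨α, hα⟩ := hchar ((s + w) / 2) (by linear_combination (1 / 4) * hw)
    obtain ⟨β, hβ⟩ := hchar ((s - w) / 2) (by linear_combination (1 / 4) * hw)
    refine ⟨α, β, ?_⟩
    ext a
    rw [Submodule.mem_inf, mem_Ke, mem_Ke, hker, hα, hβ]
    constructor
    · rintro ⟨h2, h3⟩
      rw [h2, h3]; simp
    · rintro ⟨h2, h3⟩
      have h4 : w * q a = 0 := by linear_combination h2 - h3
      have h5 : q a = 0 := (mul_eq_zero.1 h4).resolve_left hw0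
      rw [h5] at h2
      exact ⟨by simpa using h2, h5⟩

/-- Closed two-sided ideals of codimension two in `ℓ¹` of a countable group are idempotent. -/
theorem main [Countable G] (I : Submodule ℂ (A G)) (hI : IsClosed (I : Set (A G)))
    (hl : ∀ a, ∀ s ∈ I, a * s ∈ I) (hr : ∀ a, ∀ s ∈ I, s * a ∈ I)
    (hd : Module.finrank ℂ (A G ⧸ I) = 2) : I * I = I := by
  obtain ⟨μ, hμ, hμ0⟩ := exists_weights (G := G)
  obtain ⟨α, β, rfl⟩ := classify I hI hl hr hd
  exact inf_mul_self hμ hμ0 α β

end Pool.H859R2.L1
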