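import Mathlib

/-! Cesàro means of a contraction in a Banach algebra, and a Cohen type factorisation. -/

set_option autoImplicit false

namespace Pool.H859R2.L1

open Filter Topology

variable {B : Type*} [NormedRing B] [NormedAlgebra ℂ B] [NormOneClass B]

/-- Cesàro means -/
noncomputable def U (T : B) (N : ℕ) : B :=
  ((N : ℂ) + 1)⁻¹ • ∑ k ∈ Finset.range (N + 1), T ^ (k + 1)

/-- auxiliary polynomial -/
noncomputable def W (T : B) (N : ℕ) : B :=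
  ((N : ℂ) + 1)⁻¹ • ∑ k ∈ Finset.range (N + 1), ∑ i ∈ Finset.range (k + 1), T ^ i

theorem norm_cast_inv (N : ℕ) : ‖((N : ℂ) + 1)⁻¹‖ = ((N : ℝ) + 1)⁻¹ := by
  rw [norm_inv]
  congr 1
  have : ((N : ℂ) + 1) = ((N + 1 : ℕ) : ℂ) := by push_cast; rfl
  rw [this, Complex.norm_natCast]
  push_cast; rfl

omit [NormedAlgebra ℂ B] in
theorem norm_pow_le_one {T : B} (hT : ‖T‖ ≤ 1) (k : ℕ) : ‖T ^ k‖ ≤ 1 :=
  (norm_pow_le T k).trans (pow_le_one₀ (norm_nonneg _) hT)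

theorem norm_U_le {T : B} (hT : ‖T‖ ≤ 1) (N : ℕ) : ‖U T N‖ ≤ 1 := by
  unfold U
  rw [norm_smul, norm_cast_inv]
  have h1 : ‖∑ k ∈ Finset.range (N + 1), T ^ (k + 1)‖ ≤ (N : ℝ) + 1 := by
    calc ‖∑ k ∈ Finset.range (N + 1), T ^ (k + 1)‖
        ≤ ∑ k ∈ Finset.range (N + 1), ‖T ^ (k + 1)‖ := norm_sum_le _ _
      _ ≤ ∑ _k ∈ Finset.range (N + 1), (1 : ℝ) := Finset.sum_le_sum fun k _ => norm_pow_le_one hT _
      _ = (N : ℝ) + 1 := by simp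
  have h2 : (0 : ℝ) < (N : ℝ) + 1 := by positivity
  rw [inv_mul_le_iff₀ h2, mul_one]
  exact h1

omit [NormOneClass B] in
theorem one_sub_mul_W (T : B) (N : ℕ) : (1 - T) * W T N = 1 - U T N := by
  unfold U W
  rw [mul_smul_comm, Finset.mul_sum]
  simp only [mul_neg_geom_sum]
  rw [Finset.sum_sub_distrib, smul_sub]
  congr 1
  rw [Finset.sum_const, Finset.card_range]
  rw [← Nat.cast_smul_eq_nsmul ℂ, smul_smul]
  push_cast
  rw [inv_mul_cancel₀ (by exact_mod_cast Nat.succ_ne_zero N), one_smul]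

omit [NormOneClass B] in
theorem W_mul_one_sub (T : B) (N : ℕ) : W T N * (1 - T) = 1 - U T N := by
  unfold U W
  rw [smul_mul_assoc, Finset.sum_mul]
  simp only [geom_sum_mul_neg]
  rw [Finset.sum_sub_distrib, smul_sub]
  congr 1
  rw [Finset.sum_const, Finset.card_range]
  rw [← Nat.cast_smul_eq_nsmul ℂ, smul_smul]
  push_cast
  rw [inv_mul_cancel₀ (by exact_mod_cast Nat.succ_ne_zero N), one_smul]

omit [NormOneClass B] in
theorem comm_U_T (T : B) (N : ℕ) : Commute T (U T N) := by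
  unfold U
  refine Commute.smul_right ?_ _
  exact Commute.sum_right _ _ _ fun k _ => (Commute.refl T).pow_right _

omit [NormOneClass B] in
theorem comm_U_U (T : B) (M N : ℕ) : Commute (U T M) (U T N) := by
  unfold U
  refine Commute.smul_right (Commute.smul_left ?_ _) _
  refine Commute.sum_right _ _ _ fun k _ => Commute.sum_left _ _ _ fun j _ => ?_
  exact (Commute.refl T).pow_pow _ _

omit [NormOneClass B] in
theorem U_mul_one_sub (T : B) (N : ℕ) :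
    U T N * (1 - T) = ((N : ℂ) + 1)⁻¹ • (T - T ^ (N + 2)) := by
  unfold U
  rw [smul_mul_assoc]
  congr 1
  have h1 : ∑ k ∈ Finset.range (N + 1), T ^ (k + 1) = T * ∑ k ∈ Finset.range (N + 1), T ^ k := by
    rw [Finset.mul_sum]
    refine Finset.sum_congr rfl fun k _ => ?_
    rw [pow_succ']
  rw [h1, mul_assoc, geom_sum_mul_neg, mul_sub, mul_one, ← pow_succ']

theorem norm_U_mul_one_sub {T : B} (hT : ‖T‖ ≤ 1) (N : ℕ) :
    ‖U T N * (1 - T)‖ ≤ 2 * ((N : ℝ) + 1)⁻¹ := by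
  rw [U_mul_one_sub, norm_smul, norm_cast_inv, mul_comm]
  refine mul_le_mul_of_nonneg_right ?_ (by positivity)
  calc ‖T - T ^ (N + 2)‖ ≤ ‖T‖ + ‖T ^ (N + 2)‖ := norm_sub_le _ _
    _ ≤ 1 + 1 := add_le_add hT (norm_pow_le_one hT _)
    _ = 2 := by norm_num

theorem tendsto_two_inv : Tendsto (fun N : ℕ => 2 * ((N : ℝ) + 1)⁻¹) atTop (𝓝 0) := by
  have h := (tendsto_one_div_add_atTop_nhds_zero_nat (𝕜 := ℝ)).const_mul 2
  simpa using h

theorem tendsto_U_mul_one_sub {T : B} (hT : ‖T‖ ≤ 1) (a : B) :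
    Tendsto (fun N => U T N * ((1 - T) * a)) atTop (𝓝 0) := by
  have h : Tendsto (fun N => U T N * (1 - T)) atTop (𝓝 0) :=
    squeeze_zero_norm (norm_U_mul_one_sub hT) tendsto_two_inv
  have h2 := h.mul_const a
  rw [zero_mul] at h2
  refine h2.congr fun N => ?_
  rw [mul_assoc]

theorem tendsto_mul_one_sub_U {T : B} (hT : ‖T‖ ≤ 1) (a : B) :
    Tendsto (fun N => (a * (1 - T)) * U T N) atTop (𝓝 0) := by
  have h : Tendsto (fun N => U T N * (1 - T)) atTop (𝓝 0) :=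
    squeeze_zero_norm (norm_U_mul_one_sub hT) tendsto_two_inv
  have h2 := h.const_mul a
  rw [mul_zero] at h2
  refine h2.congr fun N => ?_
  rw [mul_assoc]
  congr 1
  have : Commute (1 - T) (U T N) := (Commute.one_left _).sub_left (comm_U_T T N)
  exact this.eq.symm

theorem tendsto_U_mul_E {T : B} (hT : ‖T‖ ≤ 1) (N : ℕ) (a : B) :
    Tendsto (fun M => U T M * ((1 - U T N) * a)) atTop (𝓝 0) := by
  rw [← one_sub_mul_W]
  simp only [mul_assoc (1 - T)]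
  exact tendsto_U_mul_one_sub hT _

variable [CompleteSpace B]

theorem norm_inv_oneSub_le (x : B) (h : ‖x‖ < 1) (c : ℝ) (hc : 0 < c) (hx : ‖x‖ ≤ 1 - c) :
    ‖((Units.oneSub x h)⁻¹ : Bˣ).1‖ ≤ c⁻¹ := by
  have h1 : ((Units.oneSub x h)⁻¹ : Bˣ).1 = ∑' n : ℕ, x ^ n := rfl
  rw [h1]
  have h2 := tsum_geometric_le_of_norm_lt_one x h
  rw [norm_one] at h2
  calc _ ≤ _ := h2
    _ = (1 - ‖x‖)⁻¹ := by ring
    _ ≤ c⁻¹ := by
      apply inv_anti₀ hc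
      linarith

/-- the partial sums used in the factorisation -/
noncomputable def px (T : B) (N : ℕ → ℕ) (n : ℕ) : B :=
  ∑ k ∈ Finset.range n, ((1 / 2 : ℂ) ^ (k + 1)) • U T (N k)

theorem sum_half (n : ℕ) : ∑ k ∈ Finset.range n, (1 / 2 : ℝ) ^ (k + 1) = 1 - (1 / 2) ^ n := by
  induction n with
  | zero => simp
  | succ n ih => rw [Finset.sum_range_succ, ih]; ring

theorem sum_half' (n : ℕ) : ∑ k ∈ Finset.range n, (1 / 2 : ℂ) ^ (k + 1) = 1 - (1 / 2) ^ n := by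
  induction n with
  | zero => simp
  | succ n ih => rw [Finset.sum_range_succ, ih]; ring

omit [CompleteSpace B] in
theorem norm_px_le {T : B} (hT : ‖T‖ ≤ 1) (N : ℕ → ℕ) (n : ℕ) :
    ‖px T N n‖ ≤ 1 - (1 / 2) ^ n := by
  unfold px
  rw [← sum_half]
  refine (norm_sum_le _ _).trans (Finset.sum_le_sum fun k _ => ?_)
  rw [norm_smul]
  have : ‖(1 / 2 : ℂ) ^ (k + 1)‖ = (1 / 2 : ℝ) ^ (k + 1) := by
    rw [norm_pow]; norm_num
  rw [this]
  exact mul_le_of_le_one_right (by positivity) (norm_U_le hT _)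

omit [CompleteSpace B] in
theorem norm_px_lt {T : B} (hT : ‖T‖ ≤ 1) (N : ℕ → ℕ) (n : ℕ) : ‖px T N n‖ < 1 := by
  have h := norm_px_le hT N n
  have : (0 : ℝ) < (1 / 2) ^ n := by positivity
  linarith

/-- the units `1 - px` -/
noncomputable def pu {T : B} (hT : ‖T‖ ≤ 1) (N : ℕ → ℕ) (n : ℕ) : Bˣ :=
  Units.oneSub (px T N n) (norm_px_lt hT N n)

theorem pu_val {T : B} (hT : ‖T‖ ≤ 1) (N : ℕ → ℕ) (n : ℕ) : (pu hT N n).1 = 1 - px T N n := rfl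

theorem norm_pu_inv_le {T : B} (hT : ‖T‖ ≤ 1) (N : ℕ → ℕ) (n : ℕ) :
    ‖((pu hT N n)⁻¹ : Bˣ).1‖ ≤ 2 ^ n := by
  have := norm_inv_oneSub_le (px T N n) (norm_px_lt hT N n) ((1 / 2) ^ n) (by positivity)
    (norm_px_le hT N n)
  refine this.trans (le_of_eq ?_)
  rw [one_div, inv_pow, inv_inv]

theorem comm_pu {T : B} (hT : ‖T‖ ≤ 1) (N : ℕ → ℕ) (n M : ℕ) :
    Commute (pu hT N n).1 (U T M) := by
  rw [pu_val]
  refine (Commute.one_left _).sub_left ?_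
  unfold px
  refine Commute.sum_left _ _ _ fun k _ => ?_
  exact (comm_U_U T _ _).smul_left _

theorem comm_pu_inv {T : B} (hT : ‖T‖ ≤ 1) (N : ℕ → ℕ) (n M : ℕ) :
    Commute ((pu hT N n)⁻¹ : Bˣ).1 (U T M) := by
  exact (comm_pu hT N n M).units_inv_left

theorem pu_sub {T : B} (hT : ‖T‖ ≤ 1) (N : ℕ → ℕ) (n : ℕ) :
    (pu hT N n).1 - (pu hT N (n + 1)).1 = ((1 / 2 : ℂ) ^ (n + 1)) • U T (N n) := by
  rw [pu_val, pu_val]
  unfold px
  rw [Finset.sum_range_succ]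
  abel

theorem pu_inv_sub {T : B} (hT : ‖T‖ ≤ 1) (N : ℕ → ℕ) (n : ℕ) :
    ((pu hT N (n + 1))⁻¹ : Bˣ).1 - ((pu hT N n)⁻¹ : Bˣ).1 =
      ((1 / 2 : ℂ) ^ (n + 1)) • (((pu hT N (n + 1))⁻¹ : Bˣ).1 * ((pu hT N n)⁻¹ : Bˣ).1 * U T (N n)) := by
  have h1 : ((pu hT N (n + 1))⁻¹ : Bˣ).1 - ((pu hT N n)⁻¹ : Bˣ).1 =
      ((pu hT N (n + 1))⁻¹ : Bˣ).1 * ((pu hT N n).1 - (pu hT N (n + 1)).1) *
        ((pu hT N n)⁻¹ : Bˣ).1 := by
    rw [mul_sub, sub_mul, Units.inv_mul, one_mul, mul_assoc, Units.mul_inv, mul_one]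
  rw [h1, pu_sub, mul_smul_comm, smul_mul_assoc, mul_assoc, mul_assoc,
    (comm_pu_inv hT N n (N n)).eq]

theorem pu_inv_sub' {T : B} (hT : ‖T‖ ≤ 1) (N : ℕ → ℕ) (n : ℕ) :
    ((pu hT N (n + 1))⁻¹ : Bˣ).1 - ((pu hT N n)⁻¹ : Bˣ).1 =
      ((1 / 2 : ℂ) ^ (n + 1)) • (U T (N n) * (((pu hT N (n + 1))⁻¹ : Bˣ).1 * ((pu hT N n)⁻¹ : Bˣ).1)) := by
  rw [pu_inv_sub]
  congr 1
  exact (((comm_pu_inv hT N (n + 1) (N n)).mul_left (comm_pu_inv hT N n (N n)))).eq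

/-- the limit of `pu`, as an element of any closed subspace containing all `1 - U`. -/
theorem exists_limit {T : B} (hT : ‖T‖ ≤ 1) (N : ℕ → ℕ) (J : Submodule ℂ B)
    (hJc : IsClosed (J : Set B)) (hJ : ∀ M, 1 - U T M ∈ J) :
    ∃ b ∈ J, Tendsto (fun n => (pu hT N n).1) atTop (𝓝 b) := by
  have hs : Summable fun k : ℕ => ((1 / 2 : ℂ) ^ (k + 1)) • (1 - U T (N k)) := by
    refine Summable.of_norm_bounded (g := fun k : ℕ => (1 / 2 : ℝ) ^ k) ?_ ?_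
    · exact summable_geometric_of_lt_one (by norm_num) (by norm_num)
    · intro k
      rw [norm_smul]
      have h1 : ‖(1 / 2 : ℂ) ^ (k + 1)‖ = (1 / 2 : ℝ) ^ (k + 1) := by
        rw [norm_pow]; norm_num
      have h2 : ‖(1 : B) - U T (N k)‖ ≤ 2 := by
        refine (norm_sub_le _ _).trans ?_
        have := norm_U_le hT (N k)
        rw [norm_one]; linarith
      rw [h1]
      calc (1 / 2 : ℝ) ^ (k + 1) * ‖(1 : B) - U T (N k)‖ ≤ (1 / 2 : ℝ) ^ (k + 1) * 2 :=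
            mul_le_mul_of_nonneg_left h2 (by positivity)
        _ = (1 / 2 : ℝ) ^ k := by ring
  have ht := hs.hasSum.tendsto_sum_nat
  refine ⟨∑' k : ℕ, ((1 / 2 : ℂ) ^ (k + 1)) • (1 - U T (N k)), ?_, ?_⟩
  · refine hJc.mem_of_tendsto ht (Eventually.of_forall fun n => ?_)
    exact J.sum_mem fun k _ => J.smul_mem _ (hJ _)
  · have h3 : ∀ n, (pu hT N n).1 =
        (∑ k ∈ Finset.range n, ((1 / 2 : ℂ) ^ (k + 1)) • (1 - U T (N k))) +
          ((1 / 2 : ℂ) ^ n) • (1 : B) := by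
      intro n
      rw [pu_val]
      unfold px
      simp only [smul_sub, Finset.sum_sub_distrib]
      rw [← Finset.sum_smul, sum_half', sub_smul, one_smul]
      abel
    have h4 : Tendsto (fun n : ℕ => ((1 / 2 : ℂ) ^ n) • (1 : B)) atTop (𝓝 0) := by
      have h5 : Tendsto (fun n : ℕ => (1 / 2 : ℂ) ^ n) atTop (𝓝 0) :=
        tendsto_pow_atTop_nhds_zero_of_norm_lt_one (by norm_num)
      have := h5.smul_const (1 : B)
      rwa [zero_smul] at this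
    have h6 := ht.add h4
    rw [add_zero] at h6
    exact h6.congr fun n => (h3 n).symm

theorem factor_left {T : B} (hT : ‖T‖ ≤ 1) (r : B)
    (hr : Tendsto (fun M => U T M * r) atTop (𝓝 0)) (S J : Submodule ℂ B)
    (hSc : IsClosed (S : Set B)) (hS : ∀ a, ∀ s ∈ S, a * s ∈ S) (hrS : r ∈ S)
    (hJc : IsClosed (J : Set B)) (hJ : ∀ M, 1 - U T M ∈ J) :
    ∃ b ∈ J, ∃ s ∈ S, b * s = r := by
  have hN : ∀ k : ℕ, ∃ M, ‖U T M * r‖ ≤ (1 / 4 : ℝ) ^ k := by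
    intro k
    have h1 : ∀ᶠ M in atTop, ‖U T M * r‖ < (1 / 4 : ℝ) ^ k := by
      have h2 := hr.norm
      rw [norm_zero] at h2
      exact h2.eventually (gt_mem_nhds (by positivity))
    obtain ⟨M, hM⟩ := h1.exists
    exact ⟨M, hM.le⟩
  choose N hN using hN
  obtain ⟨b, hbJ, hb⟩ := exists_limit hT N J hJc hJ
  have hc : CauchySeq fun n => ((pu hT N n)⁻¹ : Bˣ).1 * r := by
    refine cauchySeq_of_le_geometric (1 / 2) 1 (by norm_num) fun n => ?_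
    rw [dist_comm, dist_eq_norm, ← sub_mul, pu_inv_sub, smul_mul_assoc, norm_smul]
    have h1 : ‖(1 / 2 : ℂ) ^ (n + 1)‖ = (1 / 2 : ℝ) ^ (n + 1) := by
      rw [norm_pow]; norm_num
    rw [h1, mul_assoc]
    have h2 := norm_pu_inv_le hT N (n + 1)
    have h3 := norm_pu_inv_le hT N n
    have h4 : ‖((pu hT N (n + 1))⁻¹ : Bˣ).1 * ((pu hT N n)⁻¹ : Bˣ).1 * (U T (N n) * r)‖ ≤
        2 ^ (n + 1) * 2 ^ n * (1 / 4) ^ n := by
      calc _ ≤ ‖((pu hT N (n + 1))⁻¹ : Bˣ).1 * ((pu hT N n)⁻¹ : Bˣ).1‖ * ‖U T (N n) * r‖ :=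
            norm_mul_le _ _
        _ ≤ (‖((pu hT N (n + 1))⁻¹ : Bˣ).1‖ * ‖((pu hT N n)⁻¹ : Bˣ).1‖) * ‖U T (N n) * r‖ :=
            mul_le_mul_of_nonneg_right (norm_mul_le _ _) (norm_nonneg _)
        _ ≤ 2 ^ (n + 1) * 2 ^ n * (1 / 4) ^ n := by
            gcongr
            exact hN n
    calc _ ≤ (1 / 2 : ℝ) ^ (n + 1) * (2 ^ (n + 1) * 2 ^ n * (1 / 4) ^ n) :=
          mul_le_mul_of_nonneg_left h4 (by positivity)
      _ = ((1 / 2 : ℝ) ^ (n + 1) * 2 ^ (n + 1)) * (2 ^ n * (1 / 4) ^ n) := by ring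
      _ = 1 * (1 / 2 : ℝ) ^ n := by
        rw [← mul_pow, ← mul_pow]; norm_num
  obtain ⟨s, hs⟩ := cauchySeq_tendsto_of_complete hc
  refine ⟨b, hbJ, s, ?_, ?_⟩
  · exact hSc.mem_of_tendsto hs (Eventually.of_forall fun n => hS _ _ hrS)
  · have h1 := hb.mul hs
    have h2 : ∀ n, (pu hT N n).1 * (((pu hT N n)⁻¹ : Bˣ).1 * r) = r := fun n => by
      rw [← mul_assoc, Units.mul_inv, one_mul]
    simp only [h2] at h1
    exact tendsto_nhds_unique h1 tendsto_const_nhds |>.symm ▸ rfl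

theorem factor_right {T : B} (hT : ‖T‖ ≤ 1) (r : B)
    (hr : Tendsto (fun M => r * U T M) atTop (𝓝 0)) (S J : Submodule ℂ B)
    (hSc : IsClosed (S : Set B)) (hS : ∀ a, ∀ s ∈ S, s * a ∈ S) (hrS : r ∈ S)
    (hJc : IsClosed (J : Set B)) (hJ : ∀ M, 1 - U T M ∈ J) :
    ∃ b ∈ J, ∃ s ∈ S, s * b = r := by
  have hN : ∀ k : ℕ, ∃ M, ‖r * U T M‖ ≤ (1 / 4 : ℝ) ^ k := by
    intro k
    have h1 : ∀ᶠ M in atTop, ‖r * U T M‖ < (1 / 4 : ℝ) ^ k := by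
      have h2 := hr.norm
      rw [norm_zero] at h2
      exact h2.eventually (gt_mem_nhds (by positivity))
    obtain ⟨M, hM⟩ := h1.exists
    exact ⟨M, hM.le⟩
  choose N hN using hN
  obtain ⟨b, hbJ, hb⟩ := exists_limit hT N J hJc hJ
  have hc : CauchySeq fun n => r * ((pu hT N n)⁻¹ : Bˣ).1 := by
    refine cauchySeq_of_le_geometric (1 / 2) 1 (by norm_num) fun n => ?_
    rw [dist_comm, dist_eq_norm, ← mul_sub, pu_inv_sub', mul_smul_comm, norm_smul]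
    have h1 : ‖(1 / 2 : ℂ) ^ (n + 1)‖ = (1 / 2 : ℝ) ^ (n + 1) := by
      rw [norm_pow]; norm_num
    rw [h1, ← mul_assoc]
    have h2 := norm_pu_inv_le hT N (n + 1)
    have h3 := norm_pu_inv_le hT N n
    have h4 : ‖(r * U T (N n)) * (((pu hT N (n + 1))⁻¹ : Bˣ).1 * ((pu hT N n)⁻¹ : Bˣ).1)‖ ≤
        (1 / 4) ^ n * (2 ^ (n + 1) * 2 ^ n) := by
      calc _ ≤ ‖r * U T (N n)‖ * ‖((pu hT N (n + 1))⁻¹ : Bˣ).1 * ((pu hT N n)⁻¹ : Bˣ).1‖ :=
            norm_mul_le _ _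
        _ ≤ ‖r * U T (N n)‖ * (‖((pu hT N (n + 1))⁻¹ : Bˣ).1‖ * ‖((pu hT N n)⁻¹ : Bˣ).1‖) :=
            mul_le_mul_of_nonneg_left (norm_mul_le _ _) (norm_nonneg _)
        _ ≤ (1 / 4) ^ n * (2 ^ (n + 1) * 2 ^ n) := by
            gcongr
            exact hN n
    calc _ ≤ (1 / 2 : ℝ) ^ (n + 1) * ((1 / 4) ^ n * (2 ^ (n + 1) * 2 ^ n)) :=
          mul_le_mul_of_nonneg_left h4 (by positivity)
      _ = ((1 / 2 : ℝ) ^ (n + 1) * 2 ^ (n + 1)) * (2 ^ n * (1 / 4) ^ n) := by ring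
      _ = 1 * (1 / 2 : ℝ) ^ n := by
        rw [← mul_pow, ← mul_pow]; norm_num
  obtain ⟨s, hs⟩ := cauchySeq_tendsto_of_complete hc
  refine ⟨b, hbJ, s, ?_, ?_⟩
  · exact hSc.mem_of_tendsto hs (Eventually.of_forall fun n => hS _ _ hrS)
  · have h1 := hs.mul hb
    have h2 : ∀ n, (r * ((pu hT N n)⁻¹ : Bˣ).1) * (pu hT N n).1 = r := fun n => by
      rw [mul_assoc, Units.inv_mul, mul_one]
    simp only [h2] at h1
    exact tendsto_nhds_unique h1 tendsto_const_nhds |>.symm ▸ rfl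

end Pool.H859R2.L1
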