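import Pool.Agent.H859R2.L1Fac

/-! The sum of the right ideal and the left ideal is closed. -/

set_option autoImplicit false

namespace Pool.H859R2.L1

open Filter Topology

variable {B : Type*} [NormedRing B] [NormedAlgebra ℂ B] [NormOneClass B]

omit [NormedAlgebra ℂ B] [NormOneClass B] in
theorem closed_of_contr (φ : ℕ → B → B) (hsub : ∀ N x y, φ N x = φ N (x - y) + φ N y)
    (hn : ∀ N x, ‖φ N x‖ ≤ ‖x‖) : IsClosed {x | Tendsto (fun N => φ N x) atTop (𝓝 0)} := by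
  rw [← closure_subset_iff_isClosed]
  intro x hx
  rw [Set.mem_ofPred_eq, Metric.tendsto_atTop]
  intro ε hε
  obtain ⟨y, hy, hxy⟩ := Metric.mem_closure_iff.1 hx (ε / 2) (by positivity)
  obtain ⟨N, hN⟩ := Metric.tendsto_atTop.1 hy (ε / 2) (by positivity)
  refine ⟨N, fun n hn' => ?_⟩
  have h1 := hN n hn'
  rw [dist_zero_right] at h1 ⊢
  rw [dist_eq_norm] at hxy
  rw [hsub n x y]
  calc _ ≤ ‖φ n (x - y)‖ + ‖φ n y‖ := norm_add_le _ _
    _ < ε / 2 + ε / 2 := add_lt_add_of_le_of_lt ((hn _ _).trans hxy.le) h1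
    _ = ε := by ring

/-- the right ideal of elements of `I` asymptotically annihilated on the left -/
def Rs (T : B) (I : Submodule ℂ B) : Submodule ℂ B where
  carrier := {r | r ∈ I ∧ Tendsto (fun N => U T N * r) atTop (𝓝 0)}
  zero_mem' := ⟨I.zero_mem, by simp⟩
  add_mem' := by
    rintro a b ⟨h1, h2⟩ ⟨h3, h4⟩
    refine ⟨I.add_mem h1 h3, ?_⟩
    have := h2.add h4
    rw [add_zero] at this
    exact this.congr fun N => (mul_add _ _ _).symm
  smul_mem' := by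
    rintro c a ⟨h1, h2⟩
    refine ⟨I.smul_mem c h1, ?_⟩
    have := h2.const_smul c
    rw [smul_zero] at this
    exact this.congr fun N => (mul_smul_comm _ _ _).symm

/-- the left ideal of elements of `I` asymptotically annihilated on the right -/
def Ls (T : B) (I : Submodule ℂ B) : Submodule ℂ B where
  carrier := {r | r ∈ I ∧ Tendsto (fun N => r * U T N) atTop (𝓝 0)}
  zero_mem' := ⟨I.zero_mem, by simp⟩
  add_mem' := by
    rintro a b ⟨h1, h2⟩ ⟨h3, h4⟩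
    refine ⟨I.add_mem h1 h3, ?_⟩
    have := h2.add h4
    rw [add_zero] at this
    exact this.congr fun N => (add_mul _ _ _).symm
  smul_mem' := by
    rintro c a ⟨h1, h2⟩
    refine ⟨I.smul_mem c h1, ?_⟩
    have := h2.const_smul c
    rw [smul_zero] at this
    exact this.congr fun N => (smul_mul_assoc _ _ _).symm

theorem Rs_closed {T : B} (hT : ‖T‖ ≤ 1) {I : Submodule ℂ B} (hI : IsClosed (I : Set B)) :
    IsClosed (Rs T I : Set B) := by
  refine hI.inter (closed_of_contr (fun N x => U T N * x) (fun N x y => ?_) fun N x => ?_)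
  · rw [← mul_add, sub_add_cancel]
  · refine (norm_mul_le _ _).trans ?_
    exact mul_le_of_le_one_left (norm_nonneg _) (norm_U_le hT _)

theorem Ls_closed {T : B} (hT : ‖T‖ ≤ 1) {I : Submodule ℂ B} (hI : IsClosed (I : Set B)) :
    IsClosed (Ls T I : Set B) := by
  refine hI.inter (closed_of_contr (fun N x => x * U T N) (fun N x y => ?_) fun N x => ?_)
  · rw [← add_mul, sub_add_cancel]
  · refine (norm_mul_le _ _).trans ?_
    exact mul_le_of_le_one_right (norm_nonneg _) (norm_U_le hT _)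

theorem RL_closed [CompleteSpace B] {T T' : B} (hT : ‖T‖ ≤ 1) (hT' : ‖T'‖ ≤ 1)
    {I : Submodule ℂ B} (hI : IsClosed (I : Set B)) (hl : ∀ a, ∀ s ∈ I, a * s ∈ I) :
    IsClosed ((Rs T I ⊔ Ls T' I : Submodule ℂ B) : Set B) := by
  have : CompleteSpace (Rs T I) := (Rs_closed hT hI).completeSpace_coe
  have : CompleteSpace (Ls T' I) := (Ls_closed hT' hI).completeSpace_coe
  let f : NormedAddGroupHom (Rs T I × Ls T' I) B :=
    { toFun := fun p => p.1.1 + p.2.1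
      map_add' := fun p q => by
        change (p.1.1 + q.1.1) + (p.2.1 + q.2.1) = (p.1.1 + p.2.1) + (q.1.1 + q.2.1)
        abel
      bound' := ⟨2, fun p => by
        have h1 : ‖p.1‖ ≤ ‖p‖ := norm_fst_le p
        have h2 : ‖p.2‖ ≤ ‖p‖ := norm_snd_le p
        calc ‖p.1.1 + p.2.1‖ ≤ ‖p.1.1‖ + ‖p.2.1‖ := norm_add_le _ _
          _ ≤ ‖p‖ + ‖p‖ := add_le_add h1 h2
          _ = 2 * ‖p‖ := by ring⟩ }
  have key : f.SurjectiveOnWith (Rs T I ⊔ Ls T' I).toAddSubgroup 3 := by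
    intro h hh
    by_cases h0 : h = 0
    · exact ⟨0, by rw [h0, map_zero], by simp⟩
    have hpos : 0 < ‖h‖ := norm_pos_iff.2 h0
    obtain ⟨r, hr, l, hlm, rfl⟩ := Submodule.mem_sup.1 hh
    have h1 : ∀ᶠ N in atTop, ‖U T N * r‖ < ‖r + l‖ := by
      have h2 := hr.2.norm
      rw [norm_zero] at h2
      exact h2.eventually (gt_mem_nhds hpos)
    obtain ⟨N, hN⟩ := h1.exists
    have hl1 : U T N * l ∈ Ls T' I := by
      refine ⟨hl _ _ hlm.1, ?_⟩
      have := hlm.2.const_mul (U T N)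
      rw [mul_zero] at this
      exact this.congr fun M => (mul_assoc _ _ _).symm
    have hr1 : r + (1 - U T N) * l ∈ Rs T I :=
      Submodule.add_mem _ hr ⟨hl _ _ hlm.1, tendsto_U_mul_E hT N l⟩
    have e1 : (r + (1 - U T N) * l) + U T N * l = r + l := by
      rw [sub_mul, one_mul]; abel
    have n1 : ‖U T N * l‖ ≤ 2 * ‖r + l‖ := by
      have e2 : U T N * l = U T N * (r + l) - U T N * r := by rw [mul_add]; abel
      rw [e2]
      calc _ ≤ ‖U T N * (r + l)‖ + ‖U T N * r‖ := norm_sub_le _ _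
        _ ≤ ‖r + l‖ + ‖r + l‖ := by
          refine add_le_add ?_ hN.le
          refine (norm_mul_le _ _).trans ?_
          exact mul_le_of_le_one_left (norm_nonneg _) (norm_U_le hT _)
        _ = 2 * ‖r + l‖ := by ring
    have n2 : ‖r + (1 - U T N) * l‖ ≤ 3 * ‖r + l‖ := by
      have e2 : r + (1 - U T N) * l = (r + l) - U T N * l := by rw [← e1]; abel
      rw [e2]
      calc _ ≤ ‖r + l‖ + ‖U T N * l‖ := norm_sub_le _ _
        _ ≤ ‖r + l‖ + 2 * ‖r + l‖ := add_le_add le_rfl n1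
        _ = 3 * ‖r + l‖ := by ring
    refine ⟨(⟨_, hr1⟩, ⟨_, hl1⟩), e1, ?_⟩
    rw [Prod.norm_def]
    refine max_le n2 (n1.trans ?_)
    nlinarith
  have h2 := controlled_closure_of_complete (by norm_num) one_pos key
  rw [← closure_subset_iff_isClosed]
  intro x hx
  obtain ⟨g, hg, -⟩ := h2 x hx
  rw [← hg]
  exact Submodule.add_mem_sup g.1.2 g.2.2

theorem sup_eq_of_dual [CompleteSpace B] {T T' : B} (hT : ‖T‖ ≤ 1) (hT' : ‖T'‖ ≤ 1)
    {I : Submodule ℂ B} (hI : IsClosed (I : Set B)) (hl : ∀ a, ∀ s ∈ I, a * s ∈ I)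
    (hd : ∀ Φ : B →L[ℂ] ℂ, (∀ r ∈ Rs T I, Φ r = 0) → (∀ r ∈ Ls T' I, Φ r = 0) → ∀ x ∈ I, Φ x = 0)
    (x : B) (hx : x ∈ I) : x ∈ Rs T I ⊔ Ls T' I := by
  by_contra hcon
  have hc := RL_closed hT hT' hI hl
  set S : Submodule ℂ B := Rs T I ⊔ Ls T' I with hS
  have : IsClosed (S : Set B) := hc
  have h0 : (S.mkQ x) ≠ 0 := by
    intro h
    exact hcon ((Submodule.Quotient.mk_eq_zero S).1 h)
  obtain ⟨f, -, hf⟩ := exists_dual_vector ℂ (S.mkQ x) (norm_ne_zero_iff.2 h0)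
  have h1 := hd (f.comp S.mkQL) (fun r hr => ?_) (fun r hr => ?_) x hx
  · apply h0
    rw [← norm_eq_zero]
    have h2 : f (S.mkQ x) = 0 := h1
    rw [hf] at h2
    exact RCLike.ofReal_eq_zero.1 h2
  · have : S.mkQ r = 0 := (Submodule.Quotient.mk_eq_zero S).2 (Submodule.mem_sup_left hr)
    change f (S.mkQ r) = 0
    rw [this, map_zero]
  · have : S.mkQ r = 0 := (Submodule.Quotient.mk_eq_zero S).2 (Submodule.mem_sup_right hr)
    change f (S.mkQ r) = 0
    rw [this, map_zero]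

theorem decomp [CompleteSpace B] {T T' : B} (hT : ‖T‖ ≤ 1) (hT' : ‖T'‖ ≤ 1)
    {I J J' : Submodule ℂ B} (hI : IsClosed (I : Set B)) (hl : ∀ a, ∀ s ∈ I, a * s ∈ I)
    (hr : ∀ a, ∀ s ∈ I, s * a ∈ I)
    (hJc : IsClosed (J : Set B)) (hJ : ∀ M, 1 - U T M ∈ J)
    (hJc' : IsClosed (J' : Set B)) (hJ' : ∀ M, 1 - U T' M ∈ J')
    (hd : ∀ Φ : B →L[ℂ] ℂ, (∀ r ∈ Rs T I, Φ r = 0) → (∀ r ∈ Ls T' I, Φ r = 0) → ∀ x ∈ I, Φ x = 0)
    (x : B) (hx : x ∈ I) :
    ∃ b ∈ J, ∃ s ∈ I, ∃ s' ∈ I, ∃ b' ∈ J', b * s + s' * b' = x := by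
  obtain ⟨r, hrm, l, hlm, rfl⟩ := Submodule.mem_sup.1 (sup_eq_of_dual hT hT' hI hl hd x hx)
  obtain ⟨b, hb, s, hs, e1⟩ := factor_left hT r hrm.2 I J hI hl hrm.1 hJc hJ
  obtain ⟨b', hb', s', hs', e2⟩ := factor_right hT' l hlm.2 I J' hI hr hlm.1 hJc' hJ'
  exact ⟨b, hb, s, hs, s', hs', b', hb', by rw [e1, e2]⟩

end Pool.H859R2.L1
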