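import Pool.Agent.H859R2.L1Alg
import Pool.Agent.H859R2.L1Sum
import Pool.Agent.H859R2.BiHarm

/-! Products of kernels of characters of `ℓ¹(G)`, `G` countable. -/

set_option autoImplicit false

namespace Pool.H859R2.L1

open Filter Topology ComplexConjugate

variable {G : Type} [Group G]

/-- a character as a continuous functional -/
noncomputable def ac (α : A G →ₐ[ℂ] ℂ) : A G →L[ℂ] ℂ :=
  LinearMap.mkContinuous α.toLinearMap 1 (fun f => by
    rw [one_mul]
    exact AlgHom.norm_apply_le_self α f)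

theorem ac_apply (α : A G →ₐ[ℂ] ℂ) (f : A G) : ac α f = α f := rfl

theorem norm_char (α : A G →ₐ[ℂ] ℂ) (g : G) : ‖α (dl g)‖ = 1 := by
  have h1 : ∀ g : G, ‖α (dl g)‖ ≤ 1 := fun g =>
    (AlgHom.norm_apply_le_self α (dl g)).trans (norm_dl g).le
  have h2 : α (dl g) * α (dl g⁻¹) = 1 := by
    rw [← map_mul, dl_mul, mul_inv_cancel, ← one_def, map_one]
  have h3 : ‖α (dl g)‖ * ‖α (dl g⁻¹)‖ = 1 := by rw [← norm_mul, h2, norm_one]
  have h4 := h1 g
  have h5 := h1 g⁻¹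
  have h6 := norm_nonneg (α (dl g))
  nlinarith

theorem char_mul_conj (α : A G →ₐ[ℂ] ℂ) (g : G) : α (dl g) * conj (α (dl g)) = 1 := by
  rw [Complex.mul_conj, Complex.normSq_eq_norm_sq, norm_char]
  norm_num

theorem char_dl_mul (α : A G →ₐ[ℂ] ℂ) (g h : G) : α (dl (g * h)) = α (dl g) * α (dl h) := by
  rw [← map_mul, dl_mul]

variable {μ : G → ℝ}

/-- the twisted probability measure -/
noncomputable def T (hμ : HasSum μ 1) (hμ0 : ∀ g, 0 < μ g) (α : A G →ₐ[ℂ] ℂ) : A G :=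
  mk (fun g => (μ g : ℂ) * conj (α (dl g))) (by
    refine hμ.summable.congr fun g => ?_
    rw [norm_mul, RCLike.norm_conj, norm_char, mul_one, Complex.norm_real,
      Real.norm_of_nonneg (hμ0 g).le])

variable (hμ : HasSum μ 1) (hμ0 : ∀ g, 0 < μ g)

theorem ev_T (α : A G →ₐ[ℂ] ℂ) (g : G) : ev g (T hμ hμ0 α) = (μ g : ℂ) * conj (α (dl g)) := rfl

theorem norm_T (α : A G →ₐ[ℂ] ℂ) : ‖T hμ hμ0 α‖ ≤ 1 := by
  rw [norm_eq]
  have : (fun g => ‖ev g (T hμ hμ0 α)‖) = μ := by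
    funext g
    rw [ev_T, norm_mul, RCLike.norm_conj, norm_char, mul_one, Complex.norm_real,
      Real.norm_of_nonneg (hμ0 g).le]
  rw [this, hμ.tsum_eq]

theorem hasSum_T (α : A G →ₐ[ℂ] ℂ) :
    HasSum (fun g => ((μ g : ℂ) * conj (α (dl g))) • dl g) (T hμ hμ0 α) := by
  have h := hasSum_dl (T hμ hμ0 α)
  simp only [ev_T] at h
  exact h

theorem hasSum_char_T (α β : A G →ₐ[ℂ] ℂ) :
    HasSum (fun g => ((μ g : ℂ) * conj (α (dl g))) * β (dl g)) (β (T hμ hμ0 α)) := by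
  have := (hasSum_T hμ hμ0 α).mapL (ac β)
  simpa [ac_apply] using this

theorem char_T (α : A G →ₐ[ℂ] ℂ) : α (T hμ hμ0 α) = 1 := by
  have h := hasSum_char_T hμ hμ0 α α
  have h2 : (fun g => ((μ g : ℂ) * conj (α (dl g))) * α (dl g)) = fun g => (μ g : ℂ) := by
    funext g
    rw [mul_assoc, mul_comm (conj _), char_mul_conj, mul_one]
  rw [h2] at h
  have h3 := Complex.hasSum_ofReal.2 hμ
  rw [Complex.ofReal_one] at h3
  exact h.unique h3

theorem char_ext {α β : A G →ₐ[ℂ] ℂ} (h : ∀ g, α (dl g) = β (dl g)) : α = β := by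
  have : ac α = ac β := clm_ext h
  ext f
  exact DFunLike.congr_fun this f

theorem char_T_ne {α β : A G →ₐ[ℂ] ℂ} (h : α ≠ β) : β (T hμ hμ0 α) ≠ 1 := by
  intro hc
  apply h
  apply char_ext
  have h1 := hasSum_char_T hμ hμ0 α β
  rw [hc] at h1
  have h2 := Complex.hasSum_re h1
  have h3 := hμ.sub h2
  rw [Complex.one_re, sub_self] at h3
  have hnn : ∀ g, 0 ≤ μ g - (((μ g : ℂ) * conj (α (dl g))) * β (dl g)).re := by
    intro g
    rw [mul_assoc, Complex.re_ofReal_mul]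
    have h4 : (conj (α (dl g)) * β (dl g)).re ≤ 1 := by
      refine (Complex.re_le_norm _).trans ?_
      rw [norm_mul, RCLike.norm_conj, norm_char, norm_char, mul_one]
    have := hμ0 g
    nlinarith
  have h5 := (hasSum_zero_iff_of_nonneg hnn).1 h3
  intro g
  have h6 := congrFun h5 g
  simp only [Pi.zero_apply] at h6
  rw [mul_assoc, Complex.re_ofReal_mul] at h6
  have h7 : (conj (α (dl g)) * β (dl g)).re = 1 := by
    have := (hμ0 g).ne'
    have h8 : μ g * (1 - (conj (α (dl g)) * β (dl g)).re) = 0 := by linarith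
    rcases mul_eq_zero.1 h8 with h9 | h9
    · exact absurd h9 this
    · linarith
  have h8 : Complex.normSq (conj (α (dl g)) * β (dl g)) = 1 := by
    rw [Complex.normSq_eq_norm_sq, norm_mul, RCLike.norm_conj, norm_char, norm_char]
    norm_num
  have h9 : (conj (α (dl g)) * β (dl g)).im = 0 := by
    rw [Complex.normSq_apply, h7] at h8
    nlinarith
  have h10 : conj (α (dl g)) * β (dl g) = 1 := Complex.ext h7 h9
  calc α (dl g) = α (dl g) * (conj (α (dl g)) * β (dl g)) := by rw [h10, mul_one]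
    _ = (α (dl g) * conj (α (dl g))) * β (dl g) := by ring
    _ = β (dl g) := by rw [char_mul_conj, one_mul]

/-- the kernel of a character -/
noncomputable def Ke (α : A G →ₐ[ℂ] ℂ) : Submodule ℂ (A G) := LinearMap.ker α.toLinearMap

theorem mem_Ke (α : A G →ₐ[ℂ] ℂ) (f : A G) : f ∈ Ke α ↔ α f = 0 := LinearMap.mem_ker

theorem Ke_closed (α : A G →ₐ[ℂ] ℂ) : IsClosed (Ke α : Set (A G)) := by
  have : (Ke α : Set (A G)) = ac α ⁻¹' {0} := by
    ext f; exact mem_Ke α f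
  rw [this]
  exact isClosed_singleton.preimage (ac α).continuous

/-- a functional killing `(1-T_α)A` and `A(1-T_β)` is a multiple of `α`. -/
theorem eq_smul (α β : A G →ₐ[ℂ] ℂ) (Φ : A G →L[ℂ] ℂ)
    (h1 : ∀ a, Φ ((1 - T hμ hμ0 α) * a) = 0) (h2 : ∀ a, Φ (a * (1 - T hμ hμ0 β)) = 0) :
    ∃ c : ℂ, Φ = c • ac α := by
  let k : G → ℂ := fun x => conj (α (dl x)) * Φ (dl x)
  have hk : ∀ x, ‖k x‖ ≤ ‖Φ‖ := by
    intro x
    change ‖conj (α (dl x)) * Φ (dl x)‖ ≤ _
    rw [norm_mul, RCLike.norm_conj, norm_char, one_mul]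
    refine (Φ.le_opNorm _).trans ?_
    rw [norm_dl, mul_one]
  have e1 : ∀ x, HasSum (fun g => ((μ g : ℂ) * conj (α (dl g))) * Φ (dl (g * x))) (Φ (dl x)) := by
    intro x
    have h3 := ((hasSum_T hμ hμ0 α).mul_right (dl x)).mapL Φ
    have h4 : Φ (T hμ hμ0 α * dl x) = Φ (dl x) := by
      have := h1 (dl x)
      rw [sub_mul, one_mul, map_sub] at this
      exact (sub_eq_zero.1 this).symm
    rw [h4] at h3
    have h5 : (fun g => Φ (((μ g : ℂ) * conj (α (dl g))) • dl g * dl x)) =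
        fun g => ((μ g : ℂ) * conj (α (dl g))) * Φ (dl (g * x)) := by
      funext g
      rw [smul_mul_assoc, dl_mul, map_smul, smul_eq_mul]
    rw [h5] at h3
    exact h3
  have e2 : ∀ x, HasSum (fun g => ((μ g : ℂ) * conj (β (dl g))) * Φ (dl (x * g))) (Φ (dl x)) := by
    intro x
    have h3 := ((hasSum_T hμ hμ0 β).mul_left (dl x)).mapL Φ
    have h4 : Φ (dl x * T hμ hμ0 β) = Φ (dl x) := by
      have := h2 (dl x)
      rw [mul_sub, mul_one, map_sub] at this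
      exact (sub_eq_zero.1 this).symm
    rw [h4] at h3
    have h5 : (fun g => Φ (dl x * ((μ g : ℂ) * conj (β (dl g))) • dl g)) =
        fun g => ((μ g : ℂ) * conj (β (dl g))) * Φ (dl (x * g)) := by
      funext g
      rw [mul_smul_comm, dl_mul, map_smul, smul_eq_mul]
    rw [h5] at h3
    exact h3
  have hbi := Pool.H859R2.BiHarm.biharm hμ hμ0 k ‖Φ‖ hk
    (fun g => α (dl g) * conj (β (dl g)))
    (fun g => by rw [norm_mul, RCLike.norm_conj, norm_char, norm_char, mul_one])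
    (fun x => by
      have h3 := ((e1 x).mul_left (conj (α (dl x)))).tsum_eq
      change conj (α (dl x)) * Φ (dl x) = _
      rw [← h3]
      congr 1
      funext g
      change _ = (μ g : ℂ) * (conj (α (dl (g * x))) * Φ (dl (g * x)))
      rw [char_dl_mul, map_mul]
      ring)
    (fun x => by
      have h3 := ((e2 x).mul_left (conj (α (dl x)))).tsum_eq
      change conj (α (dl x)) * Φ (dl x) = _
      rw [← h3]
      congr 1
      funext g
      change _ = (μ g : ℂ) * (α (dl g) * conj (β (dl g)) *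
        (conj (α (dl (x * g))) * Φ (dl (x * g))))
      rw [char_dl_mul, map_mul]
      have h6 := char_mul_conj α g
      linear_combination (-(μ g : ℂ) * conj (β (dl g)) * conj (α (dl x)) * Φ (dl (x * g))) * h6)
  refine ⟨k 1, clm_ext fun x => ?_⟩
  have h7 : conj (α (dl x)) * Φ (dl x) = k 1 := hbi x
  change Φ (dl x) = k 1 * α (dl x)
  rw [← h7]
  have h6 := char_mul_conj α x
  linear_combination (-Φ (dl x)) * h6

theorem char_U (α : A G →ₐ[ℂ] ℂ) (N : ℕ) : α (U (T hμ hμ0 α) N) = 1 := by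
  unfold U
  rw [map_smul, map_sum]
  simp only [map_pow, char_T, one_pow]
  rw [Finset.sum_const, Finset.card_range, nsmul_eq_mul, smul_eq_mul, mul_one]
  push_cast
  exact inv_mul_cancel₀ (by exact_mod_cast Nat.succ_ne_zero N)

theorem one_sub_mem (α : A G →ₐ[ℂ] ℂ) (N : ℕ) : 1 - U (T hμ hμ0 α) N ∈ Ke α := by
  rw [mem_Ke, map_sub, map_one, char_U, sub_self]

/-- functionals vanishing on both asymptotic annihilators vanish on the intersection of the
kernels -/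
theorem dual_vanish (α β : A G →ₐ[ℂ] ℂ) (Φ : A G →L[ℂ] ℂ)
    (hR : ∀ r ∈ Rs (T hμ hμ0 α) (Ke α ⊓ Ke β), Φ r = 0)
    (hL : ∀ r ∈ Ls (T hμ hμ0 β) (Ke α ⊓ Ke β), Φ r = 0) :
    ∀ x ∈ Ke α ⊓ Ke β, Φ x = 0 := by
  have hαT := char_T hμ hμ0 α
  have hβT := char_T hμ hμ0 β
  suffices h : ∃ c c' : ℂ, (∀ a, (Φ - c • ac α - c' • ac β) ((1 - T hμ hμ0 α) * a) = 0) ∧
      ∀ a, (Φ - c • ac α - c' • ac β) (a * (1 - T hμ hμ0 β)) = 0 by
    obtain ⟨c, c', h1, h2⟩ := h
    obtain ⟨d, hd⟩ := eq_smul hμ hμ0 α β _ h1 h2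
    intro x hx
    have hx1 : α x = 0 := (mem_Ke α x).1 hx.1
    have hx2 : β x = 0 := (mem_Ke β x).1 hx.2
    have h3 := DFunLike.congr_fun hd x
    change Φ x - c * α x - c' * β x = d * α x at h3
    rw [hx1, hx2] at h3
    simpa using h3
  by_cases hab : α = β
  · subst hab
    refine ⟨0, 0, fun a => ?_, fun a => ?_⟩
    · have h1 : (1 - T hμ hμ0 α) * a ∈ Rs (T hμ hμ0 α) (Ke α ⊓ Ke α) := by
        refine ⟨⟨?_, ?_⟩, tendsto_U_mul_one_sub (norm_T hμ hμ0 α) a⟩ <;>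
        · change (1 - T hμ hμ0 α) * a ∈ Ke α
          rw [mem_Ke, map_mul, map_sub, map_one, hαT, sub_self, zero_mul]
      have h2 := hR _ h1
      simpa using h2
    · have h1 : a * (1 - T hμ hμ0 α) ∈ Ls (T hμ hμ0 α) (Ke α ⊓ Ke α) := by
        refine ⟨⟨?_, ?_⟩, tendsto_mul_one_sub_U (norm_T hμ hμ0 α) a⟩ <;>
        · change a * (1 - T hμ hμ0 α) ∈ Ke α
          rw [mem_Ke, map_mul, map_sub, map_one, hαT, sub_self, mul_zero]
      have h2 := hL _ h1
      simpa using h2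
  · have hne1 : β (T hμ hμ0 α) ≠ 1 := char_T_ne hμ hμ0 hab
    have hne2 : α (T hμ hμ0 β) ≠ 1 := char_T_ne hμ hμ0 (Ne.symm hab)
    have hne1' : 1 - β (T hμ hμ0 α) ≠ 0 := fun h => hne1 (sub_eq_zero.1 h).symm
    have hne2' : 1 - α (T hμ hμ0 β) ≠ 0 := fun h => hne2 (sub_eq_zero.1 h).symm
    refine ⟨Φ (1 - T hμ hμ0 β) / (1 - α (T hμ hμ0 β)), Φ (1 - T hμ hμ0 α) / (1 - β (T hμ hμ0 α)),
      fun a => ?_, fun a => ?_⟩
    · have h1 : (1 - T hμ hμ0 α) * (a - β a • 1) ∈ Rs (T hμ hμ0 α) (Ke α ⊓ Ke β) := by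
        refine ⟨⟨?_, ?_⟩, tendsto_U_mul_one_sub (norm_T hμ hμ0 α) _⟩
        · change (1 - T hμ hμ0 α) * (a - β a • 1) ∈ Ke α
          rw [mem_Ke, map_mul, map_sub, map_one, hαT, sub_self, zero_mul]
        · change (1 - T hμ hμ0 α) * (a - β a • 1) ∈ Ke β
          rw [mem_Ke, map_mul, map_sub β a, map_smul, map_one, smul_eq_mul, mul_one, sub_self,
            mul_zero]
      have h2 := hR _ h1
      rw [mul_sub, mul_smul_comm, mul_one, map_sub, map_smul, smul_eq_mul] at h2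
      change Φ ((1 - T hμ hμ0 α) * a) - _ * α ((1 - T hμ hμ0 α) * a) -
        _ * β ((1 - T hμ hμ0 α) * a) = 0
      rw [map_mul α, map_mul β, map_sub α, map_sub β, map_one, map_one, hαT]
      have h3 : Φ ((1 - T hμ hμ0 α) * a) = β a * Φ (1 - T hμ hμ0 α) := sub_eq_zero.1 h2
      rw [h3]
      field_simp
      ring
    · have h1 : (a - α a • 1) * (1 - T hμ hμ0 β) ∈ Ls (T hμ hμ0 β) (Ke α ⊓ Ke β) := by
        refine ⟨⟨?_, ?_⟩, tendsto_mul_one_sub_U (norm_T hμ hμ0 β) _⟩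
        · change (a - α a • 1) * (1 - T hμ hμ0 β) ∈ Ke α
          rw [mem_Ke, map_mul, map_sub α a, map_smul, map_one, smul_eq_mul, mul_one, sub_self,
            zero_mul]
        · change (a - α a • 1) * (1 - T hμ hμ0 β) ∈ Ke β
          rw [mem_Ke, map_mul, map_sub β 1, map_one, hβT, sub_self, mul_zero]
      have h2 := hL _ h1
      rw [sub_mul, smul_mul_assoc, one_mul, map_sub, map_smul, smul_eq_mul] at h2
      change Φ (a * (1 - T hμ hμ0 β)) - _ * α (a * (1 - T hμ hμ0 β)) -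
        _ * β (a * (1 - T hμ hμ0 β)) = 0
      rw [map_mul α, map_mul β, map_sub α, map_sub β, map_one, map_one, hβT]
      have h3 : Φ (a * (1 - T hμ hμ0 β)) = α a * Φ (1 - T hμ hμ0 β) := sub_eq_zero.1 h2
      rw [h3]
      field_simp
      ring

/-- Every element killed by two characters is a sum of two products of elements killed by the
first and the second character, respectively. -/
theorem ker_inf_le_mul (hμ : HasSum μ 1) (hμ0 : ∀ g, 0 < μ g) (α β : A G →ₐ[ℂ] ℂ) :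
    Ke α ⊓ Ke β ≤ Ke α * Ke β := by
  intro x hx
  obtain ⟨b, hb, s, hs, s', hs', b', hb', e⟩ := decomp (norm_T hμ hμ0 α) (norm_T hμ hμ0 β)
    (I := Ke α ⊓ Ke β) (J := Ke α) (J' := Ke β) ((Ke_closed α).inter (Ke_closed β))
    (fun a s hs => by
      refine ⟨?_, ?_⟩
      · change a * s ∈ Ke α
        rw [mem_Ke, map_mul, (mem_Ke α s).1 hs.1, mul_zero]
      · change a * s ∈ Ke β
        rw [mem_Ke, map_mul, (mem_Ke β s).1 hs.2, mul_zero])
    (fun a s hs => by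
      refine ⟨?_, ?_⟩
      · change s * a ∈ Ke α
        rw [mem_Ke, map_mul, (mem_Ke α s).1 hs.1, zero_mul]
      · change s * a ∈ Ke β
        rw [mem_Ke, map_mul, (mem_Ke β s).1 hs.2, zero_mul])
    (Ke_closed α) (one_sub_mem hμ hμ0 α) (Ke_closed β) (one_sub_mem hμ hμ0 β)
    (fun Φ h1 h2 => dual_vanish hμ hμ0 α β Φ h1 h2) x hx
  rw [← e]
  exact Submodule.add_mem _ (Submodule.mul_mem_mul hb hs.2) (Submodule.mul_mem_mul hs'.1 hb')

theorem mul_le_inf (α β : A G →ₐ[ℂ] ℂ) : Ke α * Ke β ≤ Ke α ⊓ Ke β := by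
  rw [Submodule.mul_le]
  intro m hm n hn
  refine ⟨?_, ?_⟩
  · change m * n ∈ Ke α
    rw [mem_Ke, map_mul, (mem_Ke α m).1 hm, zero_mul]
  · change m * n ∈ Ke β
    rw [mem_Ke, map_mul, (mem_Ke β n).1 hn, mul_zero]

theorem inf_mul_self (hμ : HasSum μ 1) (hμ0 : ∀ g, 0 < μ g) (α β : A G →ₐ[ℂ] ℂ) :
    (Ke α ⊓ Ke β) * (Ke α ⊓ Ke β) = Ke α ⊓ Ke β := by
  have e1 : Ke α ⊓ Ke β = Ke α * Ke β :=
    le_antisymm (ker_inf_le_mul hμ hμ0 α β) (mul_le_inf α β)
  have e2 : Ke α ⊓ Ke β = Ke β * Ke α := by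
    rw [inf_comm]
    exact le_antisymm (ker_inf_le_mul hμ hμ0 β α) (mul_le_inf β α)
  have e3 : Ke α * Ke α = Ke α := by
    have := le_antisymm (ker_inf_le_mul hμ hμ0 α α) (mul_le_inf α α)
    rw [inf_idem] at this
    exact this.symm
  have e4 : Ke β * Ke β = Ke β := by
    have := le_antisymm (ker_inf_le_mul hμ hμ0 β β) (mul_le_inf β β)
    rw [inf_idem] at this
    exact this.symm
  calc (Ke α ⊓ Ke β) * (Ke α ⊓ Ke β) = (Ke α * Ke β) * (Ke β * Ke α) := by rw [← e1, ← e2]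
    _ = Ke α * ((Ke β * Ke β) * Ke α) := by simp only [mul_assoc]
    _ = Ke α * (Ke β * Ke α) := by rw [e4]
    _ = Ke α * (Ke α * Ke β) := by rw [← e2, e1]
    _ = (Ke α * Ke α) * Ke β := by rw [mul_assoc]
    _ = Ke α ⊓ Ke β := by rw [e3, ← e1]

end Pool.H859R2.L1
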