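import Mathlib

/-! Projective-metric planes of affine type, Finsler functions, perpendicularity of lines. -/

set_option autoImplicit false

namespace Pool.Agent.H859R2.Perp

open Set Filter Topology

/-- A projective-metric plane `(M, d)` of affine type: `M` is a nonempty open convex subset of the
affine plane, `d` is a metric on `M` that induces the usual topology, and
`d X Y + d Y Z = d X Z` holds exactly when `Y` lies on the closed segment from `X` to `Z`.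
(Values of `d` outside `M` play no role.) -/
structure ProjPlane (M : Set (ℝ × ℝ)) (d : ℝ × ℝ → ℝ × ℝ → ℝ) : Prop where
  isOpen : IsOpen M
  convex : Convex ℝ M
  nonempty : M.Nonempty
  eq_zero : ∀ X ∈ M, ∀ Y ∈ M, (d X Y = 0 ↔ X = Y)
  symm : ∀ X ∈ M, ∀ Y ∈ M, d X Y = d Y X
  triangle : ∀ X ∈ M, ∀ Y ∈ M, ∀ Z ∈ M, d X Z ≤ d X Y + d Y Z
  topology : ∀ X ∈ M, ∀ u : ℕ → ℝ × ℝ, (∀ n, u n ∈ M) →
    (Tendsto u atTop (𝓝 X) ↔ Tendsto (fun n => d X (u n)) atTop (𝓝 0))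
  segment : ∀ X ∈ M, ∀ Y ∈ M, ∀ Z ∈ M, (d X Y + d Y Z = d X Z ↔ Y ∈ segment ℝ X Z)

/-- Completeness of the metric: Cauchy sequences converge. -/
def Complete (M : Set (ℝ × ℝ)) (d : ℝ × ℝ → ℝ × ℝ → ℝ) : Prop :=
  ∀ u : ℕ → ℝ × ℝ, (∀ n, u n ∈ M) → (∀ ε > 0, ∃ N, ∀ m ≥ N, ∀ n ≥ N, d (u m) (u n) < ε) →
    ∃ X ∈ M, Tendsto (fun n => d X (u n)) atTop (𝓝 0)

/-- A norm on the plane, given as a function. -/
def IsNorm (N : ℝ × ℝ → ℝ) : Prop :=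
  (∀ u, u ≠ 0 → 0 < N u) ∧ (∀ (c : ℝ) (u : ℝ × ℝ), N (c • u) = |c| * N u) ∧
    ∀ u v, N (u + v) ≤ N u + N v

/-- A norm comes from an inner product: its square is a quadratic form. -/
def IsEuclidean (N : ℝ × ℝ → ℝ) : Prop := ∃ Q : QuadraticForm ℝ (ℝ × ℝ), ∀ v, N v ^ 2 = Q v

/-- `d` is generated by the Finsler function `F`: `F` is continuous, every `F P` is a norm, and
`d X Y` is the infimum of the lengths of the `C¹` curves in `M` from `X` to `Y`. -/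
structure Finsler (M : Set (ℝ × ℝ)) (F d : ℝ × ℝ → ℝ × ℝ → ℝ) : Prop where
  norm : ∀ P ∈ M, IsNorm (F P)
  cont : ContinuousOn (fun p : (ℝ × ℝ) × (ℝ × ℝ) => F p.1 p.2) (M ×ˢ univ)
  length : ∀ X ∈ M, ∀ Y ∈ M, IsGLB {l : ℝ | ∃ γ : ℝ → ℝ × ℝ, ContDiff ℝ 1 γ ∧
    (∀ t ∈ Icc (0 : ℝ) 1, γ t ∈ M) ∧ γ 0 = X ∧ γ 1 = Y ∧
      l = ∫ t in (0 : ℝ)..1, F (γ t) (deriv γ t)} (d X Y)

/-- The line `g` through `O` with direction `u` is perpendicular to the line `h` through `O` with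
direction `v`: `d X O ≤ d X Y` for all `X ∈ g` and `Y ∈ h`. -/
def PerpAt (M : Set (ℝ × ℝ)) (d : ℝ × ℝ → ℝ × ℝ → ℝ) (O u v : ℝ × ℝ) : Prop :=
  ∀ s t : ℝ, O + s • u ∈ M → O + t • v ∈ M → d (O + s • u) O ≤ d (O + s • u) (O + t • v)

/-- Perpendicularity of lines is symmetric. -/
def SymmetricPerp (M : Set (ℝ × ℝ)) (d : ℝ × ℝ → ℝ × ℝ → ℝ) : Prop :=
  ∀ O ∈ M, ∀ u v : ℝ × ℝ, u ≠ 0 → v ≠ 0 → PerpAt M d O u v → PerpAt M d O v u

/-- All metric circles are strictly convex. -/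
def ConvexCircles (M : Set (ℝ × ℝ)) (d : ℝ × ℝ → ℝ × ℝ → ℝ) : Prop :=
  ∀ X ∈ M, ∀ r : ℝ, StrictConvex ℝ {P | P ∈ M ∧ d X P ≤ r}

/-- Lines through `P` are perpendicular when their directions are Birkhoff orthogonal in the
tangent Minkowski plane at `P`. -/
def TangentPerp (M : Set (ℝ × ℝ)) (F d : ℝ × ℝ → ℝ × ℝ → ℝ) : Prop :=
  ∀ P ∈ M, ∀ u v : ℝ × ℝ, u ≠ 0 → v ≠ 0 → (∀ t : ℝ, F P u ≤ F P (u + t • v)) → PerpAt M d P u v

/-- A Radon norm: a strictly convex norm whose Birkhoff orthogonality is symmetric. -/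
def IsRadon (N : ℝ × ℝ → ℝ) : Prop :=
  IsNorm N ∧ (∀ u v, N u = 1 → N v = 1 → u ≠ v → N (u + v) < 2) ∧
    ∀ u v : ℝ × ℝ, (∀ t : ℝ, N u ≤ N (u + t • v)) → ∀ t : ℝ, N v ≤ N (v + t • u)

/-- Homogeneous coordinates of the image of the point `X` under the projective map with
matrix `B`. -/
def hom (B : Matrix (Fin 3) (Fin 3) ℝ) (X : ℝ × ℝ) (i : Fin 3) : ℝ :=
  B i 0 + B i 1 * X.1 + B i 2 * X.2

/-- The projective map with matrix `B`, in affine coordinates. -/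
noncomputable def proj (B : Matrix (Fin 3) (Fin 3) ℝ) (X : ℝ × ℝ) : ℝ × ℝ :=
  (hom B X 1 / hom B X 0, hom B X 2 / hom B X 0)

/-- The plane is Riemannian: it is generated by a Finsler function whose norms are Euclidean. -/
def Riemannian (M : Set (ℝ × ℝ)) (d : ℝ × ℝ → ℝ × ℝ → ℝ) : Prop :=
  ∃ F, Finsler M F d ∧ ∀ P ∈ M, IsEuclidean (F P)

end Pool.Agent.H859R2.Perp
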