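import Pool.Agent.H859R2.PMInc
import Pool.Agent.H859R2.PerpDefs
import Pool.Agent.Helper831.PMEnd

/-! Classification without completeness: Euclidean tangent norms or a piece of a Radon plane up to
a projective map. -/

namespace Pool.Agent.H859R2.PM

open Real Set Filter Topology Metric Pool.Agent.Helper831.PM

/-! ### linear changes of variable -/

/-- the linear map with matrix columns `p`, `q` -/
def lin (p q : ℝ × ℝ) (w : ℝ × ℝ) : ℝ × ℝ := w.1 • p + w.2 • q

lemma lin_add (p q v w : ℝ × ℝ) : lin p q (v + w) = lin p q v + lin p q w := by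
  unfold lin
  simp only [Prod.fst_add, Prod.snd_add]
  module

lemma lin_smul (p q : ℝ × ℝ) (c : ℝ) (w : ℝ × ℝ) : lin p q (c • w) = c • lin p q w := by
  unfold lin
  simp only [Prod.smul_fst, Prod.smul_snd, smul_eq_mul]
  module

lemma Om_lin (p q v w : ℝ × ℝ) : Om (lin p q v) (lin p q w) = Om p q * Om v w := by
  unfold Om lin
  simp only [Prod.fst_add, Prod.snd_add, Prod.smul_fst, Prod.smul_snd, smul_eq_mul]
  ring

lemma lin_ne {p q : ℝ × ℝ} (hpq : Om p q ≠ 0) {w : ℝ × ℝ} (hw : w ≠ 0) : lin p q w ≠ 0 := by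
  intro h
  have h1 := Om_lin p q w (0, 1)
  have h2 := Om_lin p q w (1, 0)
  rw [h] at h1 h2
  have e1 : Om w (0, 1) = w.1 := by unfold Om; simp
  have e2 : Om w (1, 0) = - w.2 := by unfold Om; simp
  have e3 : ∀ z, Om (0 : ℝ × ℝ) z = 0 := by intro z; unfold Om; simp
  rw [e3, e1] at h1
  rw [e3, e2] at h2
  apply hw
  have h3 : w.1 = 0 := by
    rcases mul_eq_zero.1 h1.symm with h | h
    · exact absurd h hpq
    · exact h
  have h4 : w.2 = 0 := by
    rcases mul_eq_zero.1 h2.symm with h | h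
    · exact absurd h hpq
    · linarith
  exact Prod.ext h3 h4

lemma strict_comp {N : ℝ × ℝ → ℝ} (h : StrictNorm N) {p q : ℝ × ℝ} (hpq : Om p q ≠ 0) :
    StrictNorm fun w => N (lin p q w) := by
  refine ⟨fun u hu => h.pos (lin_ne hpq hu), fun c u => ?_, fun u v hO => ?_⟩
  · show N (lin p q (c • u)) = |c| * N (lin p q u)
    rw [lin_smul, h.smul]
  · show N (lin p q (u + v)) < N (lin p q u) + N (lin p q v)
    rw [lin_add]
    exact h.2.2 _ _ (by rw [Om_lin]; exact mul_ne_zero hpq hO)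

lemma lin_surj {p q : ℝ × ℝ} (hpq : Om p q ≠ 0) (z : ℝ × ℝ) : ∃ w, lin p q w = z := by
  refine ⟨(Om z q / Om p q, Om p z / Om p q), ?_⟩
  unfold lin
  ext
  · simp only [Prod.fst_add, Prod.smul_fst, smul_eq_mul]
    rw [div_mul_eq_mul_div, div_mul_eq_mul_div, ← add_div, div_eq_iff hpq]
    unfold Om
    ring
  · simp only [Prod.snd_add, Prod.smul_snd, smul_eq_mul]
    rw [div_mul_eq_mul_div, div_mul_eq_mul_div, ← add_div, div_eq_iff hpq]
    unfold Om
    ring

lemma Om_ext {a b : ℝ × ℝ} (h : ∀ w, Om w a = Om w b) : a = b := by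
  have k1 := h (1, 0)
  have k2 := h (0, 1)
  unfold Om at k1 k2
  simp only [one_mul, zero_mul, sub_zero, zero_sub] at k1 k2
  exact Prod.ext (by linarith) (by linarith)

lemma radon_comp {N : ℝ × ℝ → ℝ} (h : RadonNorm N) {p q : ℝ × ℝ} (hpq : Om p q ≠ 0) :
    RadonNorm fun w => N (lin p q w) := by
  refine ⟨strict_comp h.1 hpq, fun u v hb t => ?_⟩
  have h1 : Bk N (lin p q u) (lin p q v) := by
    intro t
    have := hb t
    simpa only [lin_add, lin_smul] using this
  have := h.2 _ _ h1 t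
  simpa only [lin_add, lin_smul] using this

lemma CC_comp {N : ℝ × ℝ → ℝ} (h : RadonNorm N) {p q : ℝ × ℝ} (hpq : Om p q ≠ 0) :
    RadonNorm.CC (fun w => N (lin p q w)) = |Om p q| * RadonNorm.CC N := by
  have h' := radon_comp h hpq
  set e : ℝ × ℝ := (1, 0) with he
  have he0 : e ≠ 0 := by simp [he]
  have hL := lin_ne hpq he0
  -- the two gradients
  have hd1 := h'.hasFDerivAt he0
  let A : (ℝ × ℝ) →L[ℝ] (ℝ × ℝ) :=
    (ContinuousLinearMap.fst ℝ ℝ ℝ).smulRight p + (ContinuousLinearMap.snd ℝ ℝ ℝ).smulRight q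
  have hA : ∀ w, A w = lin p q w := fun w => by simp [A, lin]
  have hd2 : HasFDerivAt (fun w => N (lin p q w)) ((dN N (lin p q e)).comp A) e := by
    have h1 := h.hasFDerivAt hL
    rw [← hA e] at h1
    have h2 := h1.comp e A.hasFDerivAt
    rw [hA e] at h2
    refine h2.congr_of_eventuallyEq (Filter.Eventually.of_forall fun w => ?_)
    show N (lin p q w) = N (A w)
    rw [hA]
  have hu := hd1.unique hd2
  -- compare the rotated gradients
  have h3 : ∀ w, Om w (rr (fun w => N (lin p q w)) e) = Om (lin p q w) (rr N (lin p q e)) := by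
    intro w
    rw [← dN_eq_Om, ← dN_eq_Om, hu]
    simp [hA]
  obtain ⟨z, hz⟩ := lin_surj hpq (rr N (lin p q e))
  have h4 : rr (fun w => N (lin p q w)) e = Om p q • z := by
    refine Om_ext fun w => ?_
    rw [h3, ← hz, Om_lin]
    unfold Om
    simp only [Prod.smul_fst, Prod.smul_snd, smul_eq_mul]
    ring
  rw [← h'.N_rr he0, h4]
  show N (lin p q (Om p q • z)) = _
  rw [lin_smul, h.1.smul, hz, h.N_rr hL]

/-! ### the projective change of variable -/

section

variable {M : Set (ℝ × ℝ)} {F d : ℝ × ℝ → ℝ × ℝ → ℝ}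

/-- inverse projective map -/
noncomputable def Psi (b : ℝ) (e f y : ℝ × ℝ) : ℝ × ℝ := (1 / y.1 - b) • e + (y.2 / y.1) • f

/-- its derivative -/
noncomputable def Lp (e f y w : ℝ × ℝ) : ℝ × ℝ :=
  lin (-(1 / y.1 ^ 2) • e - (y.2 / y.1 ^ 2) • f) ((1 / y.1) • f) w

lemma Psi_add (b : ℝ) (e f : ℝ × ℝ) {y w : ℝ × ℝ} {t : ℝ} (h1 : y.1 ≠ 0)
    (h2 : (y + t • w).1 ≠ 0) :
    Psi b e f (y + t • w) = Psi b e f y + (t * (y.1 / (y + t • w).1)) • Lp e f y w := by
  unfold Psi Lp lin
  simp only [Prod.fst_add, Prod.smul_fst, smul_eq_mul, Prod.snd_add, Prod.smul_snd] at h2 ⊢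
  ext
  · simp only [Prod.fst_add, Prod.smul_fst, Prod.fst_sub, smul_eq_mul]
    field_simp
    ring
  · simp only [Prod.snd_add, Prod.smul_snd, Prod.snd_sub, smul_eq_mul]
    field_simp
    ring

lemma Lp_add (e f : ℝ × ℝ) {y w : ℝ × ℝ} {t : ℝ} (h1 : y.1 ≠ 0) (h2 : (y + t • w).1 ≠ 0) :
    Lp e f (y + t • w) w = (y.1 / (y + t • w).1) ^ 2 • Lp e f y w := by
  unfold Lp lin
  simp only [Prod.fst_add, Prod.smul_fst, smul_eq_mul, Prod.snd_add, Prod.smul_snd] at h2 ⊢
  ext
  · simp only [Prod.fst_add, Prod.smul_fst, Prod.fst_sub, smul_eq_mul]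
    field_simp
    ring
  · simp only [Prod.snd_add, Prod.smul_snd, Prod.snd_sub, smul_eq_mul]
    field_simp
    ring

lemma Om_Lp (e f : ℝ × ℝ) {y : ℝ × ℝ} (h1 : y.1 ≠ 0) :
    Om (-(1 / y.1 ^ 2) • e - (y.2 / y.1 ^ 2) • f) ((1 / y.1) • f) = -(Om e f / y.1 ^ 3) := by
  unfold Om
  simp only [Prod.smul_fst, Prod.fst_sub, smul_eq_mul, Prod.smul_snd, Prod.snd_sub]
  field_simp
  ring

/-- Euclidean, or a piece of a Radon plane up to a projective map -/
theorem classify (C : Core M F d)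
    (hint : ∀ y ∈ M, ∀ z ∈ M, d y z = ∫ t in (0 : ℝ)..1, F (y + t • (z - y)) (z - y)) :
    (∀ x ∈ M, IsEuclid (F x)) ∨
      ∃ B : Matrix (Fin 3) (Fin 3) ℝ, B.det ≠ 0 ∧ (∀ x ∈ M, 0 < Perp.hom B x 0) ∧
        ∃ N, RadonNorm N ∧ ∀ x ∈ M, ∀ y ∈ M, d x y = N (Perp.proj B y - Perp.proj B x) := by
  rcases C.pg.dich with h | ⟨D, b, hsgF⟩
  · left
    intro x hx
    obtain ⟨a, b, c, h1, h2, h3⟩ := h x hx
    have hs := C.pg.sg_pos hx
    set s := PG.sg (GG F) x with hsd
    refine ⟨a / s ^ 4, b / s ^ 4, c / s ^ 4, by positivity, ?_, fun u => ?_⟩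
    · have : a / s ^ 4 * (c / s ^ 4) - (b / s ^ 4) ^ 2 = (a * c - b ^ 2) / s ^ 8 := by
        field_simp
      rw [this]; positivity
    · rw [C.F_eq hx, ← hsd, div_pow, h3]
      field_simp
  rcases M.eq_empty_or_nonempty with he | ⟨x0, hx0⟩
  · left; intro x hx; rw [he] at hx; exact absurd hx (notMem_empty x)
  right
  have hpos : ∀ x ∈ M, 0 < D x + b := fun x hx => by rw [← hsgF x hx]; exact C.pg.sg_pos hx
  have hrel : ∀ x ∈ M, ∀ (u : ℝ × ℝ) (t : ℝ), x + t • u ∈ M →
      F (x + t • u) u * (D (x + t • u) + b) ^ 2 = F x u * (D x + b) ^ 2 := by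
    intro x hx u t hy
    rw [← hsgF _ hy, ← hsgF _ hx, C.F_eq hx, C.F_eq hy, C.pg.line x hx u t hy]
    have h1 := (C.pg.sg_pos hx).ne'
    have h2 := (C.pg.sg_pos hy).ne'
    field_simp
  have hCC : ∀ x ∈ M, RadonNorm.CC (F x) = ((D x + b) ^ 3)⁻¹ := by
    intro x hx
    have h1 : RadonNorm.CC (F x) = exp (lC F x) := by
      unfold lC; rw [exp_log (C.radon hx).CC_pos]
    rw [h1, ← hsgF x hx, C.sg_GG hx, ← exp_nat_mul, ← exp_neg]
    congr 1
    push_cast
    ring
  have hconst : D = 0 → ∀ x ∈ M, ∀ y ∈ M, ∀ u, F x u = F y u := by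
    intro hD x hx y hy u
    have hb : ∀ x ∈ M, PG.sg (GG F) x = b := by
      intro x hx; rw [hsgF x hx, hD]; simp
    rw [C.F_eq hx, C.F_eq hy, hb x hx, hb y hy, C.pg.const_of_sg hb hx hy u]
  by_cases hD : D = 0
  · -- constant norms
    have hc := hconst hD
    refine ⟨1, by simp, ?_, F x0, C.radon hx0, ?_⟩
    · intro x _
      simp [Perp.hom]
    · intro x hx y hy
      rw [hint x hx y hy]
      have e1 : ∀ t ∈ uIcc (0 : ℝ) 1, F (x + t • (y - x)) (y - x) = F x0 (y - x) := by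
        intro t ht
        rw [uIcc_of_le zero_le_one] at ht
        have hm : x + t • (y - x) ∈ M := by
          apply C.cv.segment_subset hx hy
          rw [segment_eq_image']
          exact ⟨t, ht, rfl⟩
        exact hc _ hm x0 hx0 _
      rw [intervalIntegral.integral_congr e1]
      simp only [intervalIntegral.integral_const, sub_zero, one_smul]
      congr 1
      ext <;> simp [Perp.proj, Perp.hom, Matrix.one_apply]
  -- the projective case
  set D1 := D (1, 0) with hD1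
  set D2 := D (0, 1) with hD2
  have hDx : ∀ x, D x = D1 * x.1 + D2 * x.2 := by
    intro x
    have : x = x.1 • ((1, 0) : ℝ × ℝ) + x.2 • ((0, 1) : ℝ × ℝ) := by ext <;> simp
    conv_lhs => rw [this]
    rw [map_add, map_smul, map_smul, smul_eq_mul, smul_eq_mul]
    ring
  have hq : 0 < D1 ^ 2 + D2 ^ 2 := by
    by_contra hcon
    push Not at hcon
    apply hD
    refine ContinuousLinearMap.ext fun x => ?_
    have h1 : D1 = 0 := by nlinarith [sq_nonneg D1, sq_nonneg D2]
    have h2 : D2 = 0 := by nlinarith [sq_nonneg D1, sq_nonneg D2]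
    rw [hDx, h1, h2]
    simp
  set Q := D1 ^ 2 + D2 ^ 2 with hQ
  -- dual bases: `D e = 1`, `D f = 0`, `m = (-D2, D1)/Q`-form
  set e : ℝ × ℝ := (D1 / Q, D2 / Q) with he
  set f : ℝ × ℝ := (-D2 / Q, D1 / Q) with hf
  have hOef : Om e f = 1 / Q := by
    unfold Om
    simp only [he, hf]
    field_simp
    rw [hQ]
    ring
  have hOef0 : Om e f ≠ 0 := by rw [hOef]; positivity
  have hDe : D e = 1 := by
    rw [hDx]; simp only [he]; field_simp; exact hQ.symm
  have hDf : D f = 0 := by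
    rw [hDx]; simp only [hf]; field_simp; ring
  set ℓ : ℝ × ℝ → ℝ := fun x => D x + b with hℓ
  set m : ℝ × ℝ → ℝ := fun x => -D2 * x.1 + D1 * x.2 with hm
  set Φ : ℝ × ℝ → ℝ × ℝ := fun x => (1 / ℓ x, m x / ℓ x) with hΦ
  have hrec : ∀ x, D x • e + m x • f = x := by
    intro x
    rw [hDx]
    simp only [he, hf, hm]
    ext
    · simp only [Prod.fst_add, Prod.smul_fst, smul_eq_mul]
      field_simp
      rw [hQ]; ring
    · simp only [Prod.snd_add, Prod.smul_snd, smul_eq_mul]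
      field_simp
      rw [hQ]; ring
  have hPsiPhi : ∀ x ∈ M, Psi b e f (Φ x) = x := by
    intro x hx
    have hl := (hpos x hx).ne'
    unfold Psi
    simp only [hΦ, hℓ]
    have e1 : 1 / (1 / (D x + b)) - b = D x := by field_simp; ring
    have e2 : m x / (D x + b) / (1 / (D x + b)) = m x := by field_simp
    rw [e1, e2]
    exact hrec x
  have hℓPsi : ∀ y : ℝ × ℝ, y.1 ≠ 0 → ℓ (Psi b e f y) = 1 / y.1 := by
    intro y _
    simp only [hℓ, Psi]
    rw [map_add, map_smul, map_smul, hDe, hDf]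
    simp
  -- the new domain and the new norms
  set M' : Set (ℝ × ℝ) := {y | 0 < y.1 ∧ Psi b e f y ∈ M} with hM'
  set G : ℝ × ℝ → ℝ × ℝ → ℝ := fun y w => F (Psi b e f y) (Lp e f y w) with hG
  have hΦM : ∀ x ∈ M, Φ x ∈ M' := by
    intro x hx
    refine ⟨?_, by rw [hPsiPhi x hx]; exact hx⟩
    simp only [hΦ, hℓ]
    exact div_pos one_pos (hpos x hx)
  have hPc : ∀ y : ℝ × ℝ, y.1 ≠ 0 → ContinuousAt (Psi b e f) y := by
    intro y hy
    unfold Psi
    have c1 : ContinuousAt (fun y : ℝ × ℝ => 1 / y.1) y := continuousAt_const.div continuousAt_fst hy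
    have c2 : ContinuousAt (fun y : ℝ × ℝ => y.2 / y.1) y := continuousAt_snd.div continuousAt_fst hy
    exact ((c1.sub continuousAt_const).smul continuousAt_const).add (c2.smul continuousAt_const)
  have hLc : ∀ y v : ℝ × ℝ, y.1 ≠ 0 →
      ContinuousAt (fun p : (ℝ × ℝ) × (ℝ × ℝ) => Lp e f p.1 p.2) (y, v) := by
    intro y v hy
    unfold Lp lin
    have c0 : ContinuousAt (fun p : (ℝ × ℝ) × (ℝ × ℝ) => p.1.1) (y, v) := by fun_prop
    have c0' : ContinuousAt (fun p : (ℝ × ℝ) × (ℝ × ℝ) => p.1.2) (y, v) := by fun_prop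
    have c1 : ContinuousAt (fun p : (ℝ × ℝ) × (ℝ × ℝ) => 1 / p.1.1 ^ 2) (y, v) :=
      continuousAt_const.div (c0.pow 2) (pow_ne_zero 2 hy)
    have c2 : ContinuousAt (fun p : (ℝ × ℝ) × (ℝ × ℝ) => p.1.2 / p.1.1 ^ 2) (y, v) :=
      c0'.div (c0.pow 2) (pow_ne_zero 2 hy)
    have c3 : ContinuousAt (fun p : (ℝ × ℝ) × (ℝ × ℝ) => 1 / p.1.1) (y, v) :=
      continuousAt_const.div c0 hy
    have c4 : ContinuousAt (fun p : (ℝ × ℝ) × (ℝ × ℝ) => p.2.1) (y, v) := by fun_prop
    have c5 : ContinuousAt (fun p : (ℝ × ℝ) × (ℝ × ℝ) => p.2.2) (y, v) := by fun_prop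
    exact (c4.smul ((c1.neg.smul continuousAt_const).sub (c2.smul continuousAt_const))).add
      (c5.smul (c3.smul continuousAt_const))
  have hfst : ∀ {y y' : ℝ × ℝ} {s : ℝ}, 0 < y.1 → 0 < y'.1 → s ∈ Icc (0 : ℝ) 1 →
      0 < (y + s • (y' - y)).1 := by
    intro y y' s h1 h2 hs
    simp only [Prod.fst_add, Prod.smul_fst, Prod.fst_sub, smul_eq_mul]
    have e1 : y.1 + s * (y'.1 - y.1) = (1 - s) * y.1 + s * y'.1 := by ring
    rw [e1]
    rcases eq_or_lt_of_le hs.1 with h0 | h0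
    · rw [← h0]; simpa using h1
    · have := mul_nonneg (sub_nonneg.2 hs.2) h1.le
      have := mul_pos h0 h2
      linarith
  have P : PG M' G := by
    refine ⟨?_, ?_, ?_, ?_, ?_⟩
    · -- open
      rw [isOpen_iff_mem_nhds]
      rintro y ⟨hy1, hy2⟩
      have n1 : ∀ᶠ z : ℝ × ℝ in 𝓝 y, 0 < z.1 := continuousAt_fst.eventually (lt_mem_nhds hy1)
      have n2 : ∀ᶠ z in 𝓝 y, Psi b e f z ∈ M := (hPc y hy1.ne').eventually (C.op.mem_nhds hy2)
      filter_upwards [n1, n2] with z h1 h2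
      exact ⟨h1, h2⟩
    · -- convex
      rw [convex_iff_segment_subset]
      rintro y ⟨hy1, hy2⟩ y' ⟨hy1', hy2'⟩ z hz
      rw [segment_eq_image'] at hz
      obtain ⟨s, hs, rfl⟩ := hz
      have h1 := hfst hy1 hy1' hs
      refine ⟨h1, ?_⟩
      have k1 := Psi_add b e f (w := y' - y) (t := s) hy1.ne' h1.ne'
      have k2 := Psi_add b e f (y := y) (w := y' - y) (t := 1) hy1.ne'
        (by rw [one_smul, add_sub_cancel]; exact hy1'.ne')
      rw [one_smul, add_sub_cancel, one_mul] at k2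
      simp only
      rw [k1]
      -- Lp y (y'-y) in terms of the difference
      have hr : 0 < y.1 / y'.1 := div_pos hy1 hy1'
      have k3 : Lp e f y (y' - y) = (y.1 / y'.1)⁻¹ • (Psi b e f y' - Psi b e f y) := by
        rw [k2, add_sub_cancel_left, smul_smul, inv_mul_cancel₀ hr.ne', one_smul]
      rw [k3, smul_smul]
      apply C.cv.segment_subset hy2 hy2'
      rw [segment_eq_image']
      refine ⟨_, ⟨?_, ?_⟩, rfl⟩
      · have := hs.1
        positivity
      · have e1 : s * (y.1 / (y + s • (y' - y)).1) * (y.1 / y'.1)⁻¹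
            = s * y'.1 / (y + s • (y' - y)).1 := by field_simp
        rw [e1, div_le_one h1]
        simp only [Prod.fst_add, Prod.smul_fst, Prod.fst_sub, smul_eq_mul]
        nlinarith [mul_nonneg (sub_nonneg.2 hs.2) hy1.le]
    · -- Radon
      rintro y ⟨hy1, hy2⟩
      refine radon_comp (C.radon hy2) ?_
      rw [Om_Lp e f hy1.ne']
      exact neg_ne_zero.2 (div_ne_zero hOef0 (pow_ne_zero 3 hy1.ne'))
    · -- continuity
      rintro y ⟨hy1, hy2⟩ v
      have c1 : ContinuousAt (fun p : (ℝ × ℝ) × (ℝ × ℝ) => Psi b e f p.1) (y, v) :=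
        ContinuousAt.comp (f := fun p : (ℝ × ℝ) × (ℝ × ℝ) => p.1) (x := (y, v)) (hPc y hy1.ne')
          continuousAt_fst
      have c2 := hLc y v hy1.ne'
      have c3 := C.contAt hy2 (Lp e f y v)
      exact ContinuousAt.comp
        (f := fun p : (ℝ × ℝ) × (ℝ × ℝ) => (Psi b e f p.1, Lp e f p.1 p.2)) (x := (y, v))
        c3 (c1.prodMk c2)
    · -- lines
      rintro y ⟨hy1, hy2⟩ w t ⟨ht1, ht2⟩
      simp only [hG]
      have hr : 0 < y.1 / (y + t • w).1 := div_pos hy1 ht1
      have k1 := Psi_add b e f (w := w) (t := t) hy1.ne' ht1.ne'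
      have k2 := Lp_add e f (w := w) (t := t) hy1.ne' ht1.ne'
      have hmem := ht2
      rw [k1] at hmem
      have k3 := hrel _ hy2 (Lp e f y w) _ hmem
      rw [← k1] at k3
      have l1 := hℓPsi y hy1.ne'
      have l2 := hℓPsi (y + t • w) ht1.ne'
      simp only [hℓ] at l1 l2
      rw [l1, l2] at k3
      rw [k2, (C.Fs _ ht2).smul, abs_of_pos (pow_pos hr 2)]
      have hy1' := hy1.ne'
      have ht1' := ht1.ne'
      rw [div_pow]
      rw [one_div, one_div, inv_pow, inv_pow] at k3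
      field_simp at k3 ⊢
      linarith
  have hsg : ∀ y ∈ M', PG.sg G y = 1 / Q := by
    rintro y ⟨hy1, hy2⟩
    have h1 : PG.sg G y = |Om (-(1 / y.1 ^ 2) • e - (y.2 / y.1 ^ 2) • f) ((1 / y.1) • f)| *
        RadonNorm.CC (F (Psi b e f y)) := by
      have := CC_comp (C.radon hy2) (p := -(1 / y.1 ^ 2) • e - (y.2 / y.1 ^ 2) • f)
        (q := (1 / y.1) • f) (by
          rw [Om_Lp e f hy1.ne']
          exact neg_ne_zero.2 (div_ne_zero hOef0 (pow_ne_zero 3 hy1.ne')))
      exact this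
    have h2 := hCC _ hy2
    have h3 := hℓPsi y hy1.ne'
    simp only [hℓ] at h3
    rw [h3] at h2
    rw [h1, Om_Lp e f hy1.ne', hOef, abs_neg, abs_of_pos (by positivity), h2]
    have := hy1.ne'
    field_simp
  have hNc : ∀ x ∈ M, ∀ w, G (Φ x) w = G (Φ x0) w := fun x hx w =>
    P.const_of_sg hsg (hΦM x hx) (hΦM x0 hx0) w
  have hhom : ∀ x, Perp.hom (!![b, D1, D2; 1, 0, 0; 0, -D2, D1] : Matrix (Fin 3) (Fin 3) ℝ) x 0
      = ℓ x := by
    intro x
    simp only [Perp.hom, hℓ, hDx]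
    simp
    ring
  have hproj : ∀ x, Perp.proj (!![b, D1, D2; 1, 0, 0; 0, -D2, D1] : Matrix (Fin 3) (Fin 3) ℝ) x
      = Φ x := by
    intro x
    unfold Perp.proj
    rw [hhom]
    simp only [Perp.hom, hΦ, hm]
    simp
  refine ⟨!![b, D1, D2; 1, 0, 0; 0, -D2, D1], ?_, ?_, G (Φ x0), P.rad _ (hΦM x0 hx0), ?_⟩
  · rw [Matrix.det_fin_three]
    simp
    intro hc
    have : Q = 0 := by rw [hQ]; nlinarith
    linarith
  · intro x hx
    rw [hhom]
    exact hpos x hx
  · intro x hx y hy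
    rw [hproj, hproj]
    set u := y - x with hu
    set σ := ℓ x with hσ
    have hσ0 : 0 < σ := hpos x hx
    have hτ0 : 0 < ℓ y := hpos y hy
    have hτe : ℓ y = σ + D u := by
      simp only [hσ, hℓ, hu, map_sub]; ring
    -- left side
    have hden : ∀ t ∈ Icc (0 : ℝ) 1, 0 < σ + t * D u := by
      intro t ht
      have e1 : σ + t * D u = (1 - t) * σ + t * (σ + D u) := by ring
      rw [e1, ← hτe]
      rcases eq_or_lt_of_le ht.1 with h0 | h0
      · rw [← h0]; simpa using hσ0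
      · have := mul_nonneg (sub_nonneg.2 ht.2) hσ0.le
        have := mul_pos h0 hτ0
        linarith
    have hder : ∀ t ∈ uIcc (0 : ℝ) 1, HasDerivAt
        (fun t : ℝ => F x u * σ * (t / (σ + t * D u))) (F (x + t • u) u) t := by
      intro t ht
      rw [uIcc_of_le zero_le_one] at ht
      have hd := hden t ht
      have hm : x + t • u ∈ M := by
        apply C.cv.segment_subset hx hy
        rw [segment_eq_image']
        exact ⟨t, ht, rfl⟩
      have h1 := hrel x hx u t hm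
      have e1 : D (x + t • u) + b = σ + t * D u := by
        simp only [map_add, map_smul, smul_eq_mul, hσ, hℓ]; ring
      have e2 : D x + b = σ := rfl
      rw [e1, e2] at h1
      have e3 : F (x + t • u) u = F x u * σ ^ 2 / (σ + t * D u) ^ 2 := by
        rw [eq_div_iff (by positivity)]
        exact h1
      rw [e3]
      have d2 : HasDerivAt (fun t : ℝ => σ + t * D u) (D u) t := by
        have := ((hasDerivAt_id t).mul_const (D u)).const_add σ
        simpa using this
      have d3 := (((hasDerivAt_id t).div d2 hd.ne').const_mul (F x u * σ))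
      refine d3.congr_deriv ?_
      simp only [id]
      field_simp
      ring
    have hcont : ContinuousOn (fun t : ℝ => F (x + t • u) u) (uIcc 0 1) := by
      rw [uIcc_of_le zero_le_one]
      intro t ht
      have hm : x + t • u ∈ M := by
        apply C.cv.segment_subset hx hy
        rw [segment_eq_image']
        exact ⟨t, ht, rfl⟩
      have c1 : ContinuousAt (fun t : ℝ => (x + t • u, u)) t := by fun_prop
      exact (ContinuousAt.comp (f := fun t : ℝ => (x + t • u, u)) (x := t)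
        (C.contAt hm u) c1).continuousWithinAt
    have hL : d x y = F x u * σ / ℓ y := by
      rw [hint x hx y hy, intervalIntegral.integral_eq_sub_of_hasDerivAt hder
        hcont.intervalIntegrable, hτe]
      simp
      ring
    -- right side
    have hw : (Φ x + (1 : ℝ) • (Φ y - Φ x)) = Φ y := by rw [one_smul, add_sub_cancel]
    have h1x : (Φ x).1 ≠ 0 := (hΦM x hx).1.ne'
    have h1y : (Φ y).1 ≠ 0 := (hΦM y hy).1.ne'
    have k1 := Psi_add b e f (y := Φ x) (w := Φ y - Φ x) (t := 1) h1x (by rw [hw]; exact h1y)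
    rw [hw, hPsiPhi x hx, hPsiPhi y hy, one_mul] at k1
    have hr : (Φ x).1 / (Φ y).1 = ℓ y / σ := by
      simp only [hΦ]
      field_simp
      exact div_self hσ0.ne'
    rw [hr] at k1
    have k2 : Lp e f (Φ x) (Φ y - Φ x) = (σ / ℓ y) • u := by
      have : u = (ℓ y / σ) • Lp e f (Φ x) (Φ y - Φ x) := by
        rw [hu]
        nth_rewrite 1 [k1]
        rw [add_sub_cancel_left]
      rw [this, smul_smul]
      have e1 : σ / ℓ y * (ℓ y / σ) = 1 := by field_simp
      rw [e1, one_smul]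
    rw [← hNc x hx]
    simp only [hG]
    rw [hPsiPhi x hx, k2, (C.Fs x hx).smul, abs_of_pos (by positivity), hL]
    ring

end

end Pool.Agent.H859R2.PM
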