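import Pool.Agent.Helper831.PMAff
import Pool.Agent.Helper831.PMCore

/-! The affine type without completeness (adapted from `Pool.Agent.Helper831.PMAff`). -/

namespace Pool.Agent.H859R2.PM

open Real Set Filter Topology Metric Pool.Agent.Helper831.PM

/-- A projective metric on an open convex set `M` of the plane (affine type): `d` is a
metric on `M`, continuous for the standard topology, whose geodesic segments are exactly the
affine segments. Not necessarily complete, no condition on the discs. -/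
structure IncMetric (M : Set (ℝ × ℝ)) (d : ℝ × ℝ → ℝ × ℝ → ℝ) : Prop where
  isOpen : IsOpen M
  convex : Convex ℝ M
  eq_zero : ∀ x ∈ M, ∀ y ∈ M, (d x y = 0 ↔ x = y)
  symm : ∀ x ∈ M, ∀ y ∈ M, d x y = d y x
  triangle : ∀ x ∈ M, ∀ y ∈ M, ∀ z ∈ M, d x z ≤ d x y + d y z
  cont : ContinuousOn (fun p : (ℝ × ℝ) × (ℝ × ℝ) => d p.1 p.2) (M ×ˢ M)
  geodesic : ∀ x ∈ M, ∀ y ∈ M, ∀ z ∈ M, (d x y + d y z = d x z ↔ y ∈ segment ℝ x z)

/-- all discs are strictly convex -/
def Discs (M : Set (ℝ × ℝ)) (d : ℝ × ℝ → ℝ × ℝ → ℝ) : Prop :=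
  ∀ X ∈ M, ∀ r : ℝ, StrictConvex ℝ {P | P ∈ M ∧ d X P ≤ r}

/-- Birkhoff orthogonality in the tangent planes implies perpendicularity of lines -/
def Agree (M : Set (ℝ × ℝ)) (F d : ℝ × ℝ → ℝ × ℝ → ℝ) : Prop :=
  ∀ O ∈ M, ∀ u v : ℝ × ℝ, u ≠ 0 → v ≠ 0 → Bk (F O) u v → Perp M d O u v

/-- the distance near a point, from the length structure -/
lemma near_open {M : Set (ℝ × ℝ)} {F d : ℝ × ℝ → ℝ × ℝ → ℝ} (op : IsOpen M) (hF : FinslerOn M F d) {x0 : ℝ × ℝ} (hx0 : x0 ∈ M) {ε : ℝ}
    (hε : 0 < ε) :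
    ∃ δ > 0, ball x0 δ ⊆ M ∧ ∀ a ∈ ball x0 δ, ∀ b ∈ ball x0 δ,
      |d a b - F x0 (b - a)| ≤ ε * ‖b - a‖ := by
  refine near_of_piece op hF.norm hF.cont hx0 ?_ ?_ hε
  · intro ρ hρ hρM a ha b hb e he
    have ha' := hρM (ball_subset_closedBall ha)
    have hb' := hρM (ball_subset_closedBall hb)
    obtain ⟨l, ⟨γ, hγ, hγM, h0, h1, hl⟩, _, hlt⟩ :=
      (hF.length a ha' b hb').exists_between (lt_add_of_pos_right (d a b) he)
    have hγd : ∀ t, HasDerivAt γ (deriv γ t) t := fun t =>
      (hγ.differentiable one_ne_zero t).hasDerivAt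
    have hγc : Continuous (deriv γ) := hγ.continuous_deriv le_rfl
    have hFc : ContinuousOn (fun t => F (γ t) (deriv γ t)) (Icc 0 1) := by
      have c : ContinuousOn (fun t => (γ t, deriv γ t)) (Icc 0 1) :=
        (hγ.continuous.prodMk hγc).continuousOn
      exact ContinuousOn.comp (t := M ×ˢ univ)
        (g := fun p : (ℝ × ℝ) × (ℝ × ℝ) => F p.1 p.2) hF.cont c
        (fun t ht => ⟨hγM t ht, mem_univ _⟩)
    have hg : ContinuousOn (fun t => ‖γ t - x0‖ - ρ) (Icc 0 1) := by
      have := hγ.continuous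
      fun_prop
    rcases first_exit hg (by
      rw [h0, sub_neg]; rwa [mem_ball, dist_eq_norm] at ha) with h | ⟨T, hT, hgT, hle⟩
    · refine ⟨1, γ, deriv γ, zero_le_one, h0, Or.inl h1, fun t _ => hγd t, hγc.continuousOn,
        fun t ht => ?_, by rw [← hl]; exact hlt.le⟩
      rw [mem_closedBall, dist_eq_norm]
      have := h t ht
      linarith
    · refine ⟨T, γ, deriv γ, hT.1, h0, Or.inr (by linarith), fun t _ => hγd t, hγc.continuousOn,
        fun t ht => ?_, ?_⟩
      · rw [mem_closedBall, dist_eq_norm]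
        have := hle t ht
        linarith
      · refine le_trans ?_ hlt.le
        rw [hl]
        have i1 : IntervalIntegrable (fun t => F (γ t) (deriv γ t)) MeasureTheory.volume 0 1 := by
          rw [← uIcc_of_le (zero_le_one' ℝ)] at hFc
          exact hFc.intervalIntegrable
        refine intervalIntegral.integral_mono_interval le_rfl hT.1 hT.2 ?_ i1
        rw [Filter.EventuallyLE, MeasureTheory.ae_restrict_iff' measurableSet_Ioc]
        exact Filter.Eventually.of_forall fun t ht =>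
          (hF.norm _ (hγM t ⟨ht.1.le, ht.2⟩)).nonneg _
  · intro a b hseg
    have ha : a ∈ M := hseg (left_mem_segment ℝ a b)
    have hb : b ∈ M := hseg (right_mem_segment ℝ a b)
    refine (hF.length a ha b hb).1 ⟨fun t => a + t • (b - a), by fun_prop, ?_, by simp, by simp, ?_⟩
    · intro t ht
      apply hseg
      rw [segment_eq_image']
      exact ⟨t, ht, rfl⟩
    · refine intervalIntegral.integral_congr fun t _ => ?_
      have : HasDerivAt (fun t : ℝ => a + t • (b - a)) (b - a) t := by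
        have h := ((hasDerivAt_id t).smul_const (b - a)).const_add a
        simpa using h
      show F (a + t • (b - a)) (b - a) = F (a + t • (b - a)) (deriv (fun t : ℝ => a + t • (b - a)) t)
      rw [this.deriv]

namespace IncMetric

variable {M : Set (ℝ × ℝ)} {F d : ℝ × ℝ → ℝ × ℝ → ℝ}

lemma self (A : IncMetric M d) {x : ℝ × ℝ} (hx : x ∈ M) : d x x = 0 :=
  (A.eq_zero x hx x hx).2 rfl

lemma nonneg (A : IncMetric M d) {x y : ℝ × ℝ} (hx : x ∈ M) (hy : y ∈ M) : 0 ≤ d x y := by
  have := A.triangle x hx y hy x hx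
  rw [A.self hx, A.symm y hy x hx] at this
  linarith

lemma pos (A : IncMetric M d) {x y : ℝ × ℝ} (hx : x ∈ M) (hy : y ∈ M) (h : x ≠ y) :
    0 < d x y :=
  lt_of_le_of_ne (A.nonneg hx hy) fun e => h ((A.eq_zero x hx y hy).1 e.symm)

lemma beyond (A : IncMetric M d) {X Q : ℝ × ℝ} (hX : X ∈ M) (hQ : Q ∈ M) (hne : X ≠ Q) :
    Q ∉ interior {P | P ∈ M ∧ d X P ≤ d X Q} := by
  intro hint
  have c : ContinuousAt (fun ε : ℝ => Q + ε • (Q - X)) 0 := by fun_prop
  have h0 : Q + (0 : ℝ) • (Q - X) = Q := by module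
  have hint' : interior {P | P ∈ M ∧ d X P ≤ d X Q} ∈ 𝓝 (Q + (0 : ℝ) • (Q - X)) := by
    rw [h0]; exact isOpen_interior.mem_nhds hint
  have ev := c.eventually hint'
  rw [Metric.eventually_nhds_iff] at ev
  obtain ⟨δ, hδ, hev⟩ := ev
  have h1 := interior_subset (@hev (δ / 2) (by
    rw [Real.dist_eq, sub_zero, abs_of_pos (by positivity)]; linarith))
  have hseg : Q ∈ segment ℝ X (Q + (δ / 2) • (Q - X)) := by
    rw [segment_eq_image']
    refine ⟨1 / (1 + δ / 2), ⟨by positivity, by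
      rw [div_le_one (by positivity)]; linarith⟩, ?_⟩
    have e1 : Q + (δ / 2) • (Q - X) - X = (1 + δ / 2) • (Q - X) := by module
    show X + (1 / (1 + δ / 2)) • (Q + (δ / 2) • (Q - X) - X) = Q
    rw [e1, smul_smul, one_div, inv_mul_cancel₀ (by positivity), one_smul]
    abel
  have h2 := (A.geodesic X hX Q hQ _ h1.1).2 hseg
  have hne2 : Q ≠ Q + (δ / 2) • (Q - X) := by
    intro h
    have : (δ / 2) • (Q - X) = 0 := by
      have := h.symm
      simpa using this
    rcases smul_eq_zero.1 this with h3 | h3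
    · linarith
    · exact hne (sub_eq_zero.1 h3).symm
  have h3 := A.pos hQ h1.1 hne2
  have h4 := h1.2
  linarith

lemma mem_int (A : IncMetric M d) {X : ℝ × ℝ} (hX : X ∈ M) {r : ℝ} (hr : 0 < r) :
    X ∈ interior {P | P ∈ M ∧ d X P ≤ r} := by
  rw [mem_interior_iff_mem_nhds]
  have c : ContinuousAt (fun P => d X P) X := by
    have h1 : ContinuousAt (fun p : (ℝ × ℝ) × (ℝ × ℝ) => d p.1 p.2) (X, X) :=
      A.cont.continuousAt ((A.isOpen.prod A.isOpen).mem_nhds ⟨hX, hX⟩)
    have h2 : ContinuousAt (fun P : ℝ × ℝ => (X, P)) X := by fun_prop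
    exact ContinuousAt.comp (f := fun P : ℝ × ℝ => (X, P)) (x := X) h1 h2
  have h0 : d X X < r := by rw [A.self hX]; exact hr
  have ev : ∀ᶠ P in 𝓝 X, d X P < r := c.eventually (gt_mem_nhds h0)
  filter_upwards [ev, A.isOpen.mem_nhds hX] with P h1 h2
  exact ⟨h2, h1.le⟩

lemma support (A : IncMetric M d) (disc : Discs M d) {X O : ℝ × ℝ} (hX : X ∈ M) (hO : O ∈ M)
    (hne : X ≠ O) :
    ∃ v : ℝ × ℝ, v ≠ 0 ∧ ∀ t : ℝ, O + t • v ∈ M → d X O ≤ d X (O + t • v) := by
  obtain ⟨v, hv, h⟩ := support_of_strictConvex (disc X hX (d X O)) (o := O) (x := X)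
    ⟨hO, le_rfl⟩ (A.mem_int hX (A.pos hX hO hne)) (A.beyond hX hO hne)
  refine ⟨v, hv, fun t ht => ?_⟩
  by_cases h0 : t = 0
  · rw [h0, zero_smul, add_zero]
  · by_contra hcon
    push Not at hcon
    exact h t h0 ⟨ht, hcon.le⟩

lemma foot_unique (A : IncMetric M d) (disc : Discs M d) {X a b : ℝ × ℝ} (hX : X ∈ M)
    (ha : a ∈ M) (hb : b ∈ M) (hab : a ≠ b) (hf : ∀ t : ℝ, a + t • (b - a) ∈ M → d X a ≤ d X (a + t • (b - a))) :
    d X a < d X b := by
  by_contra hcon
  push Not at hcon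
  have hXa : X ≠ a := by
    rintro rfl
    rw [A.self hX] at hcon
    exact absurd (A.pos hX hb hab) (not_lt.2 hcon)
  have hr := A.pos hX ha hXa
  have hm := disc X hX (d X a) (show a ∈ {P | P ∈ M ∧ d X P ≤ d X a} from ⟨ha, le_rfl⟩)
    (show b ∈ {P | P ∈ M ∧ d X P ≤ d X a} from ⟨hb, hcon⟩) hab (a := 1 / 2) (b := 1 / 2)
    (by norm_num) (by norm_num) (by norm_num)
  have e : (1 / 2 : ℝ) • a + (1 / 2 : ℝ) • b = a + (1 / 2 : ℝ) • (b - a) := by module
  rw [e] at hm
  have hm' := interior_subset hm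
  have h1 := hf _ hm'.1
  have h2 := le_antisymm hm'.2 h1
  have hXm : X ≠ a + (1 / 2 : ℝ) • (b - a) := by
    intro h
    rw [← h, A.self hX] at h2
    linarith
  have := A.beyond hX hm'.1 hXm
  rw [h2] at this
  exact this hm

lemma int_eq (A : IncMetric M d) (hF : FinslerOn M F d) {y z : ℝ × ℝ} (hy : y ∈ M)
    (hz : z ∈ M) : d y z = ∫ t in (0 : ℝ)..1, F (y + t • (z - y)) (z - y) := by
  have hseg : segment ℝ y z ⊆ M := A.convex.segment_subset hy hz
  refine int_rep hF.norm hF.cont (fun x hx => A.self hx)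
    (fun x hx ε hε => near_open A.isOpen hF hx hε) hseg fun s t hs hst ht => ?_
  have hmem : ∀ t ∈ Icc (0 : ℝ) 1, y + t • (z - y) ∈ M := by
    intro t ht
    apply hseg
    rw [segment_eq_image']
    exact ⟨t, ht, rfl⟩
  have hps : y + s • (z - y) ∈ segment ℝ y (y + t • (z - y)) := by
    rw [segment_eq_image']
    rcases eq_or_lt_of_le (hs.trans hst) with h0 | h0
    · have h1 : s = 0 := le_antisymm (by rw [h0]; exact hst) hs
      exact ⟨0, ⟨le_rfl, zero_le_one⟩, by
        show y + (0 : ℝ) • (y + t • (z - y) - y) = y + s • (z - y)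
        rw [h1, zero_smul, zero_smul]⟩
    · refine ⟨s / t, ⟨div_nonneg hs h0.le, (div_le_one h0).2 hst⟩, ?_⟩
      show y + (s / t) • (y + t • (z - y) - y) = y + s • (z - y)
      rw [add_sub_cancel_left, smul_smul, div_mul_cancel₀ _ h0.ne']
  exact ((A.geodesic y hy _ (hmem s ⟨hs, hst.trans ht⟩) _ (hmem t ⟨hs.trans hst, ht⟩)).2
    hps).symm

lemma ap (A : IncMetric M d) {X O : ℝ × ℝ} (hX : X ∈ M) (hO : O ∈ M) {δ : ℝ}
    (hδ : 0 < δ) : ∃ t : ℝ, t ≠ 0 ∧ |t| < δ ∧ O + t • (X - O) ∈ M ∧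
    d X O = d X (O + t • (X - O)) + d (O + t • (X - O)) O := by
  refine ⟨min 1 (δ / 2), by positivity, ?_, ?_, ?_⟩
  · rw [abs_of_pos (by positivity)]
    exact (min_le_right _ _).trans_lt (by linarith)
  · have := A.convex.segment_subset hO hX
    apply this
    rw [segment_eq_image']
    exact ⟨min 1 (δ / 2), ⟨by positivity, min_le_left _ _⟩, rfl⟩
  · have hm : O + min 1 (δ / 2) • (X - O) ∈ segment ℝ X O := by
      rw [segment_symm, segment_eq_image']
      exact ⟨min 1 (δ / 2), ⟨by positivity, min_le_left _ _⟩, rfl⟩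
    exact ((A.geodesic X hX _ (A.convex.segment_subset hX hO hm) O hO).2 hm).symm

theorem preCore (A : IncMetric M d) (hF : FinslerOn M F d)
    (hs : ∀ O ∈ M, ∀ u v : ℝ × ℝ, u ≠ 0 → v ≠ 0 → Perp M d O u v → Perp M d O v u)
    (sd : ∀ X ∈ M, ∀ O ∈ M, X ≠ O →
      ∃ v : ℝ × ℝ, v ≠ 0 ∧ ∀ t : ℝ, O + t • v ∈ M → d X O ≤ d X (O + t • v))
    (fu : ∀ X ∈ M, ∀ a ∈ M, ∀ b ∈ M, a ≠ b →
      (∀ t : ℝ, a + t • (b - a) ∈ M → d X a ≤ d X (a + t • (b - a))) → d X a < d X b) :
    PreCore M F d where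
  op := A.isOpen
  cv := A.convex
  Fn := hF.norm
  Fc := hF.cont
  dc := A.cont
  nn := fun _ hx _ hy => A.nonneg hx hy
  tri := A.triangle
  loc := by
    intro x hx
    obtain ⟨r, hr, hsub⟩ := Metric.isOpen_iff.1 A.isOpen x hx
    refine ⟨r, hr, hsub, fun y hy z hz => A.int_eq hF (hsub hy) (hsub hz), ?_⟩
    intro p hp y hy z hz hOm
    refine lt_of_le_of_ne (A.triangle p (hsub hp) y (hsub hy) z (hsub hz)) fun he => ?_
    have := (A.geodesic p (hsub hp) y (hsub hy) z (hsub hz)).1 he.symm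
    rw [segment_eq_image'] at this
    obtain ⟨t, _, ht⟩ := this
    apply hOm
    have e1 : y = p + t • (z - p) := ht.symm
    have e2 : y - p = t • (z - p) := by rw [e1]; abel
    have e3 : z - y = (1 - t) • (z - p) := by rw [e1]; module
    rw [e2, e3, Om_smul_left, Om_smul_right, Om_self]
    ring
  sd := sd
  ap := fun X hX O hO _ δ hδ => A.ap hX hO hδ
  sym := hs
  fu := by
    intro O _
    exact ⟨1, one_pos, fun X _ a _ b _ hab hX ha hb hf => fu X hX a ha b hb hab hf⟩

/-- a foot gives a Birkhoff orthogonal pair in the tangent plane -/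
lemma foot_bk (A : IncMetric M d) (hF : FinslerOn M F d) {X O v : ℝ × ℝ} (hX : X ∈ M)
    (hO : O ∈ M) (hf : ∀ t : ℝ, O + t • v ∈ M → d X O ≤ d X (O + t • v)) :
    Bk (F O) (X - O) v := by
  intro s
  by_contra hcon
  push Not at hcon
  obtain ⟨u, hu⟩ : ∃ u, u = X - O := ⟨_, rfl⟩
  rw [← hu] at hcon
  have hN := hF.norm O hO
  set g := F O u - F O (u + s • v) with hg
  have hg0 : 0 < g := by rw [hg]; linarith
  set ε := g / (2 * (‖u‖ + ‖u + s • v‖ + 1)) with hε
  have hε0 : 0 < ε := by positivity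
  obtain ⟨δ, hδ, sub, est⟩ := near_open A.isOpen hF hO hε0
  obtain ⟨t, ht0, htδ, htM, heq⟩ := A.ap hX hO (δ := δ / (‖u‖ + ‖s • v‖ + 1)) (by positivity)
  rw [← hu] at htM heq
  have ht1 : |t| * (‖u‖ + ‖s • v‖ + 1) < δ := by
    rwa [lt_div_iff₀ (by positivity)] at htδ
  have b1 : O + t • u ∈ ball O δ := by
    rw [mem_ball, dist_eq_norm, add_sub_cancel_left, norm_smul, Real.norm_eq_abs]
    nlinarith [abs_nonneg t, norm_nonneg (s • v)]
  have b2 : O + (-(t * s)) • v ∈ ball O δ := by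
    rw [mem_ball, dist_eq_norm, add_sub_cancel_left]
    have : (-(t * s)) • v = (-t) • (s • v) := by module
    rw [this, norm_smul, Real.norm_eq_abs, abs_neg]
    nlinarith [abs_nonneg t, norm_nonneg u]
  have b0 : O ∈ ball O δ := mem_ball_self hδ
  have h1 := hf (-(t * s)) (sub b2)
  have h2 := A.triangle X hX _ htM _ (sub b2)
  have h3 : d (O + t • u) O ≤ d (O + t • u) (O + (-(t * s)) • v) := by linarith
  have e1 := est _ b1 _ b0
  have e2 := est _ b1 _ b2
  have r1 : O - (O + t • u) = (-t) • u := by module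
  have r2 : O + (-(t * s)) • v - (O + t • u) = (-t) • (u + s • v) := by module
  rw [r1, hN.smul, norm_smul, Real.norm_eq_abs, abs_neg] at e1
  rw [r2, hN.smul, norm_smul, Real.norm_eq_abs, abs_neg] at e2
  have tp : 0 < |t| := abs_pos.2 ht0
  have h4 : |t| * g ≤ |t| * (ε * (‖u‖ + ‖u + s • v‖)) := by
    rw [hg]
    linarith [(abs_le.1 e1).1, (abs_le.1 e2).2]
  have h5 := le_of_mul_le_mul_left h4 tp
  have h6 : ε * (‖u‖ + ‖u + s • v‖ + 1) = g / 2 := by rw [hε]; field_simp
  nlinarith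

/-- uniqueness of feet from the agreement of the two perpendicularities -/
lemma foot_unique' (A : IncMetric M d) (hF : FinslerOn M F d) (hag : Agree M F d)
    {X a b : ℝ × ℝ} (hX : X ∈ M) (ha : a ∈ M) (hb : b ∈ M) (hab : a ≠ b)
    (hf : ∀ t : ℝ, a + t • (b - a) ∈ M → d X a ≤ d X (a + t • (b - a))) :
    d X a < d X b := by
  have hba : b - a ≠ 0 := sub_ne_zero.2 (Ne.symm hab)
  have e1 : a + (1 : ℝ) • (b - a) = b := by rw [one_smul]; abel
  have h1 := hf 1 (by rw [e1]; exact hb)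
  rw [e1] at h1
  refine lt_of_le_of_ne h1 fun heq => ?_
  have hXa : X ≠ a := by
    rintro rfl
    rw [A.self hX] at heq
    exact absurd (A.pos hX hb hab) (by rw [← heq]; exact lt_irrefl _)
  have hXb : X ≠ b := by
    rintro rfl
    rw [A.self hX] at heq
    exact hXa ((A.eq_zero _ hX _ ha).1 heq)
  have hXa' : X - a ≠ 0 := sub_ne_zero.2 hXa
  have hbk := A.foot_bk hF hX ha hf
  have hp := hag a ha _ _ hXa' hba hbk
  -- a point beyond `X`
  obtain ⟨ε, hε, hmem⟩ : ∃ ε : ℝ, 0 < ε ∧ X + ε • (X - a) ∈ M := by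
    have c : ContinuousAt (fun ε : ℝ => X + ε • (X - a)) 0 := by fun_prop
    have hM' : M ∈ 𝓝 (X + (0 : ℝ) • (X - a)) := by
      rw [zero_smul, add_zero]; exact A.isOpen.mem_nhds hX
    have ev := c.eventually hM'
    rw [Metric.eventually_nhds_iff] at ev
    obtain ⟨δ, hδ, hev⟩ := ev
    exact ⟨δ / 2, by positivity, @hev (δ / 2) (by
      rw [Real.dist_eq, sub_zero, abs_of_pos (by positivity)]; linarith)⟩
  have e2 : a + (1 + ε) • (X - a) = X + ε • (X - a) := by module
  have h2 := hp (1 + ε) 1 (by rw [e2]; exact hmem) (by rw [e1]; exact hb)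
  rw [e1, e2] at h2
  -- `X` between
  have hseg : X ∈ segment ℝ (X + ε • (X - a)) a := by
    rw [segment_symm, segment_eq_image']
    refine ⟨1 / (1 + ε), ⟨by positivity, by rw [div_le_one (by positivity)]; linarith⟩, ?_⟩
    show a + (1 / (1 + ε)) • (X + ε • (X - a) - a) = X
    have e3 : X + ε • (X - a) - a = (1 + ε) • (X - a) := by module
    rw [e3, smul_smul, one_div, inv_mul_cancel₀ (by positivity), one_smul]
    abel
  have h3 := (A.geodesic _ hmem X hX a ha).2 hseg
  have h4 := A.triangle _ hmem X hX b hb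
  -- equality in the triangle inequality
  have h5 : d (X + ε • (X - a)) X + d X b = d (X + ε • (X - a)) b := by linarith
  have h6 := (A.geodesic _ hmem X hX b hb).1 h5
  -- then `a`, `b`, `X` are collinear, on the same side of `X`
  rw [segment_eq_image'] at h6
  obtain ⟨t, ht, htX⟩ := h6
  have htX' : X + ε • (X - a) + t • (b - (X + ε • (X - a))) = X := htX
  have ht0 : t ≠ 0 := by
    rintro rfl
    rw [zero_smul, add_zero] at htX'
    have : ε • (X - a) = 0 := by simpa using htX'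
    exact smul_ne_zero hε.ne' hXa' this
  have hcol : t • (b - a) = (t - (1 - t) * ε) • (X - a) := by
    have e4 : t • (b - a) - (t - (1 - t) * ε) • (X - a) =
        X + ε • (X - a) + t • (b - (X + ε • (X - a))) - X := by module
    have e5 : t • (b - a) - (t - (1 - t) * ε) • (X - a) = 0 := by
      rw [e4, htX', sub_self]
    exact sub_eq_zero.1 e5
  have hN := hF.norm a ha
  have hc0 : t - (1 - t) * ε ≠ 0 := by
    intro h0
    rw [h0, zero_smul] at hcol
    exact smul_ne_zero ht0 hba hcol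
  -- `X - a` parallel to `b - a` contradicts Birkhoff orthogonality
  have h7 := hbk (-(t / (t - (1 - t) * ε)))
  have e6 : X - a + (-(t / (t - (1 - t) * ε))) • (b - a) = 0 := by
    have : (-(t / (t - (1 - t) * ε))) • (b - a) =
        (-(1 / (t - (1 - t) * ε))) • (t • (b - a)) := by
      rw [smul_smul]; congr 1; ring
    rw [this, hcol, smul_smul, neg_mul, one_div, inv_mul_cancel₀ hc0]
    module
  rw [e6, hN.zero] at h7
  exact absurd (hN.pos hXa') (not_lt.2 h7)

/-- A normed plane has Birkhoff orthogonal directions. -/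
lemma exists_bk {N : ℝ × ℝ → ℝ} (hN : PNorm N) (u : ℝ × ℝ) (hu : u ≠ 0) :
    ∃ v : ℝ × ℝ, v ≠ 0 ∧ Bk N u v := by
  obtain ⟨w, hw⟩ : ∃ w, Om u w ≠ 0 := by
    refine ⟨(-u.2, u.1), ?_⟩
    unfold Om
    intro h
    apply hu
    have h1 : u.1 ^ 2 + u.2 ^ 2 = 0 := by simp only at h; nlinarith
    have h2 : u.1 = 0 := by nlinarith [sq_nonneg u.1, sq_nonneg u.2]
    have h3 : u.2 = 0 := by nlinarith [sq_nonneg u.1, sq_nonneg u.2]
    exact Prod.ext h2 h3
  have hNu := hN.pos hu
  set ρ := PreCore.rho N u w with hρ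
  -- the slope inequality
  have slope : ∀ t : ℝ, N u + t * ρ ≤ N (u + t • w) := by
    intro t
    rcases lt_trichotomy t 0 with ht | ht | ht
    · have h1 : (N (u + t • w) - N u) / t ≤ ρ := by
        refine PreCore.le_rho fun τ hτ => ?_
        rw [le_div_iff₀ hτ, div_mul_eq_mul_div, div_le_iff_of_neg ht]
        -- convexity
        have h2 := hN.tri ((-t) • (u + τ • w)) (τ • (u + t • w))
        have e1 : (-t) • (u + τ • w) + τ • (u + t • w) = (τ - t) • u := by module
        rw [e1, hN.smul, hN.smul, hN.smul, abs_of_pos (by linarith), abs_of_pos (by linarith),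
          abs_of_pos hτ] at h2
        nlinarith
      rw [div_le_iff_of_neg ht] at h1
      linarith
    · rw [ht]; simp
    · have h1 := PreCore.rho_le hN u w ht
      rw [le_div_iff₀ ht] at h1
      linarith
  refine ⟨w - (ρ / N u) • u, ?_, fun t => ?_⟩
  · intro h
    apply hw
    rw [sub_eq_zero.1 h, Om_smul_right, Om_self, mul_zero]
  · set s := ρ / N u with hs
    have hsN : s * N u = ρ := by rw [hs, div_mul_cancel₀ _ hNu.ne']
    rcases le_or_gt 0 (t * s) with h | h
    · have h1 := hN.tri (u + t • (w - s • u)) ((t * s) • u)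
      have e : u + t • (w - s • u) + (t * s) • u = u + t • w := by module
      rw [e, hN.smul, abs_of_nonneg h] at h1
      have h2 := slope t
      have h3 : t * s * N u = t * ρ := by rw [mul_assoc, hsN]
      linarith
    · have h0 : 0 < 1 - t * s := by linarith
      have e : u + t • (w - s • u) = (1 - t * s) • (u + (t / (1 - t * s)) • w) := by
        rw [smul_add, smul_smul, mul_div_cancel₀ _ h0.ne']
        module
      rw [e, hN.smul, abs_of_pos h0]
      have h2 := mul_le_mul_of_nonneg_left (slope (t / (1 - t * s))) h0.le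
      have e2 : (1 - t * s) * (N u + t / (1 - t * s) * ρ) = N u - t * (s * N u) + t * ρ := by
        field_simp
      rw [e2, hsN] at h2
      linarith

/-- The core hypotheses from strictly convex discs, or from the agreement of the
perpendicularities. -/
theorem core (A : IncMetric M d) (hF : FinslerOn M F d)
    (hs : ∀ O ∈ M, ∀ u v : ℝ × ℝ, u ≠ 0 → v ≠ 0 → Perp M d O u v → Perp M d O v u)
    (h : Discs M d ∨ Agree M F d) : Core M F d := by
  rcases h with disc | hag
  · exact (A.preCore hF hs (fun X hX O hO hne => A.support disc hX hO hne)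
      (fun X hX a ha b hb hab hf => A.foot_unique disc hX ha hb hab hf)).core
  · refine (A.preCore hF hs (fun X hX O hO hne => ?_)
      (fun X hX a ha b hb hab hf => A.foot_unique' hF hag hX ha hb hab hf)).core
    obtain ⟨v, hv, hb⟩ := exists_bk (hF.norm O hO) (X - O) (sub_ne_zero.2 hne)
    refine ⟨v, hv, fun t ht => ?_⟩
    have e1 : O + (1 : ℝ) • (X - O) = X := by rw [one_smul]; abel
    have := hag O hO _ _ (sub_ne_zero.2 hne) hv hb 1 t (by rw [e1]; exact hX) ht
    rwa [e1] at this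

end IncMetric

end Pool.Agent.H859R2.PM
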