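import Pool.Agent.H859R2.PerpDefs

set_option autoImplicit false

namespace Pool.Agent.H859R2.Perp

open Set Filter Topology

/-- The Euclidean norm. -/
noncomputable def en (u : ℝ × ℝ) : ℝ := Real.sqrt (u.1 ^ 2 + u.2 ^ 2)

/-- The Finsler function `F(P, u) = |u| + e^{P₁} |u₁|`. -/
noncomputable def exF (P u : ℝ × ℝ) : ℝ := en u + Real.exp P.1 * |u.1|

/-- The distance `d(X, Y) = |X - Y| + |e^{X₁} - e^{Y₁}|`. -/
noncomputable def exd (X Y : ℝ × ℝ) : ℝ := en (Y - X) + |Real.exp Y.1 - Real.exp X.1|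

/-- complex coordinate -/
def cx (u : ℝ × ℝ) : ℂ := ⟨u.1, u.2⟩

lemma en_eq (u : ℝ × ℝ) : en u = ‖cx u‖ := by
  unfold en cx
  rw [Complex.norm_def, Complex.normSq_mk]
  congr 1
  ring

lemma cx_add (u v : ℝ × ℝ) : cx (u + v) = cx u + cx v := by
  apply Complex.ext <;> simp [cx]

lemma cx_sub (u v : ℝ × ℝ) : cx (u - v) = cx u - cx v := by
  apply Complex.ext <;> simp [cx]

lemma cx_smul (c : ℝ) (u : ℝ × ℝ) : cx (c • u) = c • cx u := by
  apply Complex.ext <;> simp [cx]

lemma cx_zero : cx 0 = 0 := by apply Complex.ext <;> simp [cx]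

lemma cx_inj {u v : ℝ × ℝ} (h : cx u = cx v) : u = v := by
  have h1 := congrArg Complex.re h
  have h2 := congrArg Complex.im h
  exact Prod.ext h1 h2

lemma cx_cont : Continuous cx := by
  have : cx = fun u => Complex.equivRealProdCLM.symm u := by
    funext u
    apply Complex.ext <;> simp [cx]
  rw [this]
  exact Complex.equivRealProdCLM.symm.continuous

lemma en_nonneg (u : ℝ × ℝ) : 0 ≤ en u := Real.sqrt_nonneg _

lemma en_sq (u : ℝ × ℝ) : en u ^ 2 = u.1 ^ 2 + u.2 ^ 2 := Real.sq_sqrt (by positivity)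

lemma en_smul (c : ℝ) (u : ℝ × ℝ) : en (c • u) = |c| * en u := by
  rw [en_eq, en_eq, cx_smul, norm_smul, Real.norm_eq_abs]

lemma en_add (u v : ℝ × ℝ) : en (u + v) ≤ en u + en v := by
  rw [en_eq, en_eq, en_eq, cx_add]
  exact norm_add_le _ _

lemma en_zero : en 0 = 0 := by rw [en_eq, cx_zero, norm_zero]

lemma en_pos {u : ℝ × ℝ} (h : u ≠ 0) : 0 < en u := by
  rw [en_eq, norm_pos_iff]
  intro h1
  exact h (cx_inj (by rw [h1, cx_zero]))

lemma en_neg (u : ℝ × ℝ) : en (-u) = en u := by
  have := en_smul (-1) u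
  simpa using this

lemma en_cont : Continuous en := by
  have : en = fun u => ‖cx u‖ := funext en_eq
  rw [this]
  exact cx_cont.norm

lemma norm_le_en (u : ℝ × ℝ) : ‖u‖ ≤ en u := by
  rw [Prod.norm_def]
  apply max_le
  · rw [Real.norm_eq_abs]
    exact Real.abs_le_sqrt (by nlinarith [sq_nonneg u.2])
  · rw [Real.norm_eq_abs]
    exact Real.abs_le_sqrt (by nlinarith [sq_nonneg u.1])

lemma exd_nonneg (X Y : ℝ × ℝ) : 0 ≤ exd X Y := add_nonneg (en_nonneg _) (abs_nonneg _)

lemma exd_self (X : ℝ × ℝ) : exd X X = 0 := by simp [exd, en_zero]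

lemma exd_triangle (X Y Z : ℝ × ℝ) : exd X Z ≤ exd X Y + exd Y Z := by
  unfold exd
  have h1 : en (Z - X) ≤ en (Y - X) + en (Z - Y) := by
    have := en_add (Y - X) (Z - Y)
    rwa [show Y - X + (Z - Y) = Z - X by abel] at this
  have h2 := abs_sub_le (Real.exp Z.1) (Real.exp Y.1) (Real.exp X.1)
  linarith

lemma exd_cont : Continuous (fun p : (ℝ × ℝ) × (ℝ × ℝ) => exd p.1 p.2) := by
  unfold exd
  have := en_cont
  fun_prop

lemma exd_segment (X Y Z : ℝ × ℝ) : exd X Y + exd Y Z = exd X Z ↔ Y ∈ segment ℝ X Z := by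
  constructor
  · intro h
    unfold exd at h
    have h1 : en (Z - X) ≤ en (Y - X) + en (Z - Y) := by
      have := en_add (Y - X) (Z - Y)
      rwa [show Y - X + (Z - Y) = Z - X by abel] at this
    have h2 := abs_sub_le (Real.exp Z.1) (Real.exp Y.1) (Real.exp X.1)
    have h3 : en (Y - X) + en (Z - Y) = en (Z - X) := by linarith
    rw [en_eq, en_eq, en_eq, cx_sub, cx_sub, cx_sub] at h3
    have h4 : dist (cx X) (cx Y) + dist (cx Y) (cx Z) = dist (cx X) (cx Z) := by
      rw [dist_eq_norm, dist_eq_norm, dist_eq_norm, norm_sub_rev (cx X) (cx Y),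
        norm_sub_rev (cx Y) (cx Z), norm_sub_rev (cx X) (cx Z)]
      exact h3
    rw [dist_add_dist_eq_iff] at h4
    obtain ⟨t, ht, h5⟩ := h4
    rw [segment_eq_image']
    refine ⟨t, ht, cx_inj ?_⟩
    show cx (X + t • (Z - X)) = cx Y
    rw [cx_add, cx_smul, cx_sub, ← h5, AffineMap.lineMap_apply]
    simp [add_comm]
  · intro h
    rw [segment_eq_image'] at h
    obtain ⟨t, ht, rfl⟩ := h
    simp only
    unfold exd
    have e1 : X + t • (Z - X) - X = t • (Z - X) := by module
    have e2 : Z - (X + t • (Z - X)) = (1 - t) • (Z - X) := by module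
    have e3 : (X + t • (Z - X)).1 = X.1 + t * (Z.1 - X.1) := by simp
    rw [e1, e2, e3, en_smul, en_smul, abs_of_nonneg ht.1, abs_of_nonneg (sub_nonneg.2 ht.2)]
    have key : |Real.exp (X.1 + t * (Z.1 - X.1)) - Real.exp X.1| +
        |Real.exp Z.1 - Real.exp (X.1 + t * (Z.1 - X.1))| = |Real.exp Z.1 - Real.exp X.1| := by
      rcases le_total X.1 Z.1 with hle | hle
      · have a1 : Real.exp X.1 ≤ Real.exp (X.1 + t * (Z.1 - X.1)) :=
          Real.exp_le_exp.2 (by nlinarith [ht.1])
        have a2 : Real.exp (X.1 + t * (Z.1 - X.1)) ≤ Real.exp Z.1 :=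
          Real.exp_le_exp.2 (by nlinarith [ht.2])
        rw [abs_of_nonneg (by linarith), abs_of_nonneg (by linarith), abs_of_nonneg (by linarith)]
        ring
      · have a1 : Real.exp (X.1 + t * (Z.1 - X.1)) ≤ Real.exp X.1 :=
          Real.exp_le_exp.2 (by nlinarith [ht.1])
        have a2 : Real.exp Z.1 ≤ Real.exp (X.1 + t * (Z.1 - X.1)) :=
          Real.exp_le_exp.2 (by nlinarith [ht.2])
        rw [abs_of_nonpos (by linarith), abs_of_nonpos (by linarith), abs_of_nonpos (by linarith)]
        ring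
    linarith

theorem ex_plane : ProjPlane univ exd where
  isOpen := isOpen_univ
  convex := convex_univ
  nonempty := univ_nonempty
  eq_zero := by
    intro X _ Y _
    constructor
    · intro h
      by_contra hne
      have h1 : 0 < en (Y - X) := en_pos (sub_ne_zero.2 (Ne.symm hne))
      have h2 : 0 ≤ |Real.exp Y.1 - Real.exp X.1| := abs_nonneg _
      unfold exd at h
      linarith
    · rintro rfl
      exact exd_self X
  symm := by
    intro X _ Y _
    unfold exd
    rw [← en_neg, neg_sub, abs_sub_comm]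
  triangle := fun X _ Y _ Z _ => exd_triangle X Y Z
  topology := by
    intro X _ u _
    constructor
    · intro h
      have c : Continuous (fun Y => exd X Y) :=
        exd_cont.comp (continuous_const.prodMk continuous_id)
      have := (c.tendsto X).comp h
      rwa [exd_self] at this
    · intro h
      rw [tendsto_iff_norm_sub_tendsto_zero]
      refine squeeze_zero (fun n => norm_nonneg _) (fun n => ?_) h
      refine (norm_le_en _).trans ?_
      unfold exd
      linarith [abs_nonneg (Real.exp (u n).1 - Real.exp X.1)]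
  segment := fun X _ Y _ Z _ => exd_segment X Y Z

theorem ex_complete : Complete univ exd := by
  intro u _ hu
  have hc : CauchySeq u := by
    rw [Metric.cauchySeq_iff]
    intro ε hε
    obtain ⟨N, hN⟩ := hu ε hε
    refine ⟨N, fun m hm n hn => ?_⟩
    rw [dist_comm, dist_eq_norm]
    refine lt_of_le_of_lt ?_ (hN m hm n hn)
    refine (norm_le_en _).trans ?_
    unfold exd
    linarith [abs_nonneg (Real.exp (u n).1 - Real.exp (u m).1)]
  obtain ⟨X, hX⟩ := cauchySeq_tendsto_of_complete hc
  exact ⟨X, mem_univ _, (ex_plane.topology X trivial u fun _ => trivial).1 hX⟩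

theorem ex_finsler : Finsler univ exF exd where
  norm := by
    intro P _
    refine ⟨fun u hu => ?_, fun c u => ?_, fun u v => ?_⟩
    · have h1 := en_pos hu
      have h2 : 0 ≤ Real.exp P.1 * |u.1| := by positivity
      unfold exF
      linarith
    · unfold exF
      rw [en_smul, Prod.smul_fst, smul_eq_mul, abs_mul]
      ring
    · unfold exF
      have h1 := en_add u v
      have h2 : Real.exp P.1 * |(u + v).1| ≤ Real.exp P.1 * |u.1| + Real.exp P.1 * |v.1| := by
        rw [← mul_add, Prod.fst_add]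
        exact mul_le_mul_of_nonneg_left (abs_add_le _ _) (Real.exp_pos _).le
      linarith
  cont := by
    unfold exF
    have := en_cont
    fun_prop
  length := by
    intro X _ Y _
    refine IsLeast.isGLB ⟨?_, ?_⟩
    · refine ⟨fun t => X + t • (Y - X), by fun_prop, fun _ _ => trivial, by simp, by simp, ?_⟩
      have hd : ∀ t : ℝ, deriv (fun t : ℝ => X + t • (Y - X)) t = Y - X := by
        intro t
        have h := ((hasDerivAt_id t).smul_const (Y - X)).const_add X
        simp only [one_smul] at h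
        exact h.deriv
      simp_rw [hd]
      unfold exd exF
      have e1 : ∀ t : ℝ, (X + t • (Y - X)).1 = X.1 + t * (Y.1 - X.1) := fun t => by simp
      simp_rw [e1, Prod.fst_sub]
      rw [intervalIntegral.integral_add (by simp) (Continuous.intervalIntegrable (by fun_prop) _ _)]
      rw [intervalIntegral.integral_const, sub_zero, one_smul]
      congr 1
      -- integral of the exponential
      have h2 : ∀ t ∈ uIcc (0 : ℝ) 1, HasDerivAt (fun t : ℝ => Real.exp (X.1 + t * (Y.1 - X.1)))
          (Real.exp (X.1 + t * (Y.1 - X.1)) * (Y.1 - X.1)) t := by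
        intro t _
        have h := ((hasDerivAt_id t).mul_const (Y.1 - X.1)).const_add X.1
        simp only [one_mul] at h
        exact h.exp
      have h3 : ∫ t in (0 : ℝ)..1, Real.exp (X.1 + t * (Y.1 - X.1)) * (Y.1 - X.1)
          = Real.exp Y.1 - Real.exp X.1 := by
        rw [intervalIntegral.integral_eq_sub_of_hasDerivAt h2
          (Continuous.intervalIntegrable (by fun_prop) _ _)]
        simp
      rcases le_total 0 (Y.1 - X.1) with hle | hle
      · rw [abs_of_nonneg hle, h3, abs_of_nonneg]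
        rw [sub_nonneg]
        exact Real.exp_le_exp.2 (by linarith)
      · rw [abs_of_nonpos hle, abs_of_nonpos (by
          rw [sub_nonpos]; exact Real.exp_le_exp.2 (by linarith))]
        rw [← h3, ← intervalIntegral.integral_neg]
        refine intervalIntegral.integral_congr fun t _ => ?_
        ring
    · rintro l ⟨γ, hγ, _, h0, h1, rfl⟩
      have hγd : ∀ t, HasDerivAt γ (deriv γ t) t := fun t =>
        (hγ.differentiable one_ne_zero t).hasDerivAt
      have hγc : Continuous (deriv γ) := hγ.continuous_deriv le_rfl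
      have hγ0 : Continuous γ := hγ.continuous
      have hen := en_cont
      have i1 : IntervalIntegrable (fun t => en (deriv γ t)) MeasureTheory.volume 0 1 :=
        Continuous.intervalIntegrable (by fun_prop) _ _
      have i2 : IntervalIntegrable (fun t => Real.exp (γ t).1 * |(deriv γ t).1|)
        MeasureTheory.volume 0 1 := Continuous.intervalIntegrable (by fun_prop) _ _
      unfold exd exF
      rw [intervalIntegral.integral_add i1 i2]
      have k1 : en (Y - X) ≤ ∫ t in (0 : ℝ)..1, en (deriv γ t) := by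
        have hc : ∀ t ∈ uIcc (0 : ℝ) 1, HasDerivAt (fun t => cx (γ t)) (cx (deriv γ t)) t := by
          intro t _
          have e : ∀ u, Complex.equivRealProdCLM.symm u = cx u := by
            intro u
            apply Complex.ext <;> simp [cx]
          have h2 := (Complex.equivRealProdCLM.symm : (ℝ × ℝ) ≃L[ℝ] ℂ).hasFDerivAt.comp_hasDerivAt t
            (hγd t)
          have e2 : (⇑(Complex.equivRealProdCLM.symm : (ℝ × ℝ) ≃L[ℝ] ℂ) ∘ γ) = fun t => cx (γ t) :=
            funext fun t => e (γ t)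
          rw [e2] at h2
          have e3 : ((Complex.equivRealProdCLM.symm : (ℝ × ℝ) ≃L[ℝ] ℂ) : (ℝ × ℝ) →L[ℝ] ℂ)
              (deriv γ t) = cx (deriv γ t) := e _
          rwa [e3] at h2
        have hcc := cx_cont
        have h2 := intervalIntegral.integral_eq_sub_of_hasDerivAt hc
          (Continuous.intervalIntegrable (by fun_prop) _ _)
        rw [en_eq, cx_sub, ← h1, ← h0, ← h2]
        simp_rw [en_eq]
        exact intervalIntegral.norm_integral_le_integral_norm zero_le_one
      have k2 : |Real.exp Y.1 - Real.exp X.1| ≤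
          ∫ t in (0 : ℝ)..1, Real.exp (γ t).1 * |(deriv γ t).1| := by
        have hc : ∀ t ∈ uIcc (0 : ℝ) 1, HasDerivAt (fun t => Real.exp (γ t).1)
            (Real.exp (γ t).1 * (deriv γ t).1) t := by
          intro t _
          have h2 : HasDerivAt (fun t => (γ t).1) (deriv γ t).1 t :=
            (ContinuousLinearMap.fst ℝ ℝ ℝ).hasFDerivAt.comp_hasDerivAt t (hγd t)
          exact h2.exp
        have h2 := intervalIntegral.integral_eq_sub_of_hasDerivAt hc
          (Continuous.intervalIntegrable (by fun_prop) _ _)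
        rw [h1, h0] at h2
        rw [← h2, ← Real.norm_eq_abs]
        refine (intervalIntegral.norm_integral_le_integral_norm zero_le_one).trans (le_of_eq ?_)
        refine intervalIntegral.integral_congr fun t _ => ?_
        simp only [Real.norm_eq_abs]
        rw [abs_mul, abs_of_pos (Real.exp_pos _)]
      linarith

/-- orthogonal directions in the Euclidean sense -/
lemma en_orth {u v : ℝ × ℝ} (h : u.1 * v.1 + u.2 * v.2 = 0) (t : ℝ) : en u ≤ en (t • v - u) := by
  unfold en
  apply Real.sqrt_le_sqrt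
  simp only [Prod.fst_sub, Prod.smul_fst, smul_eq_mul, Prod.snd_sub, Prod.smul_snd]
  have e : (t * v.1 - u.1) ^ 2 + (t * v.2 - u.2) ^ 2
      = t ^ 2 * (v.1 ^ 2 + v.2 ^ 2) - 2 * t * (u.1 * v.1 + u.2 * v.2) + (u.1 ^ 2 + u.2 ^ 2) := by
    ring
  rw [e, h]
  have : 0 ≤ t ^ 2 * (v.1 ^ 2 + v.2 ^ 2) := by positivity
  linarith

/-- the limit of `|s u| - |s u - t v|` as `s → ∞` -/
lemma lim_en {u v : ℝ × ℝ} (hu : u ≠ 0) (t s0 : ℝ) {K : ℝ}
    (h : ∀ s : ℝ, 0 < s → s0 ≤ s → en (s • u) - en (t • v - s • u) ≤ K) :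
    t * (u.1 * v.1 + u.2 * v.2) / en u ≤ K := by
  by_contra hcon
  push Not at hcon
  set L := t * (u.1 * v.1 + u.2 * v.2) / en u with hL
  have hE := en_pos hu
  -- choose s large
  obtain ⟨s, hs0, hs2, hs1⟩ : ∃ s : ℝ, 0 < s ∧ s0 ≤ s ∧
      (K ^ 2 + t ^ 2 * (v.1 ^ 2 + v.2 ^ 2) + |K|) / en u < s * (L - K) := by
    have hLK : 0 < L - K := by linarith
    have h1 : 0 ≤ (K ^ 2 + t ^ 2 * (v.1 ^ 2 + v.2 ^ 2) + |K|) / en u := by positivity
    refine ⟨((K ^ 2 + t ^ 2 * (v.1 ^ 2 + v.2 ^ 2) + |K|) / en u + 1) / (L - K) + |s0|, ?_, ?_, ?_⟩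
    · positivity
    · have : 0 ≤ ((K ^ 2 + t ^ 2 * (v.1 ^ 2 + v.2 ^ 2) + |K|) / en u + 1) / (L - K) := by
        positivity
      linarith [le_abs_self s0]
    · rw [add_mul, div_mul_cancel₀ _ hLK.ne']
      have := mul_nonneg (abs_nonneg s0) hLK.le
      linarith
  have h1 := h s hs0 hs2
  rw [en_smul, abs_of_pos hs0] at h1
  have h2 : (en (t • v - s • u)) ^ 2 = s ^ 2 * en u ^ 2 - 2 * s * (L * en u)
      + t ^ 2 * (v.1 ^ 2 + v.2 ^ 2) := by
    have : L * en u = t * (u.1 * v.1 + u.2 * v.2) := by rw [hL]; field_simp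
    rw [this, en_sq, en_sq]
    simp only [Prod.fst_sub, Prod.smul_fst, smul_eq_mul, Prod.snd_sub, Prod.smul_snd]
    ring
  have h3 : s * en u - K ≤ en (t • v - s • u) := by linarith
  rw [div_lt_iff₀ hE] at hs1
  rcases le_or_gt 0 (s * en u - K) with h4 | h4
  · have h5 := mul_self_le_mul_self h4 h3
    have h6 : en (t • v - s • u) * en (t • v - s • u) = (en (t • v - s • u)) ^ 2 := by ring
    rw [h6, h2] at h5
    nlinarith [abs_nonneg K]
  · have h5 : L * en u * 2 * s ≤ s ^ 2 * en u ^ 2 + t ^ 2 * (v.1 ^ 2 + v.2 ^ 2) := by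
      nlinarith [sq_nonneg (en (t • v - s • u))]
    have hK : 0 < K := by nlinarith [mul_pos hs0 hE]
    rw [abs_of_pos hK] at hs1
    have h6 : s ^ 2 * en u ^ 2 ≤ s * en u * K := by nlinarith [mul_pos hs0 hE]
    nlinarith [mul_pos hs0 hE]

lemma exd_perp_iff (O u v : ℝ × ℝ) (s t : ℝ) :
    exd (O + s • u) O ≤ exd (O + s • u) (O + t • v) ↔
      en (s • u) + |Real.exp O.1 - Real.exp (O.1 + s * u.1)| ≤
        en (t • v - s • u) + |Real.exp (O.1 + t * v.1) - Real.exp (O.1 + s * u.1)| := by
  unfold exd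
  have e1 : O - (O + s • u) = -(s • u) := by abel
  have e2 : O + t • v - (O + s • u) = t • v - s • u := by abel
  rw [e1, e2, en_neg]
  simp

lemma PerpAt.neg {O u v : ℝ × ℝ} (h : PerpAt univ exd O u v) : PerpAt univ exd O (-u) v := by
  intro s t _ _
  have := h (-s) t trivial trivial
  rwa [show O + -s • u = O + s • -u by module] at this

/-- the only perpendicular pairs are the horizontal-vertical ones -/
theorem perp_cases {O u v : ℝ × ℝ} (hu : u ≠ 0) (hv : v ≠ 0) (h : PerpAt univ exd O u v) :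
    (u.2 = 0 ∧ v.1 = 0) ∨ (u.1 = 0 ∧ v.2 = 0) := by
  have hE := Real.exp_pos O.1
  by_cases hv1 : v.1 = 0
  · left
    refine ⟨?_, hv1⟩
    have hv2 : v.2 ≠ 0 := fun h2 => hv (Prod.ext hv1 h2)
    have h1 := h 1 (u.2 / v.2) trivial trivial
    rw [exd_perp_iff, hv1, mul_zero, add_zero, one_smul, one_mul] at h1
    have h2 : en u ≤ en ((u.2 / v.2) • v - u) := by linarith
    have h3 := pow_le_pow_left₀ (en_nonneg _) h2 2
    rw [en_sq, en_sq] at h3
    simp only [Prod.fst_sub, Prod.smul_fst, smul_eq_mul, Prod.snd_sub, Prod.smul_snd, hv1,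
      div_mul_cancel₀ _ hv2, mul_zero] at h3
    have : u.2 ^ 2 ≤ 0 := by nlinarith
    exact pow_eq_zero_iff two_ne_zero |>.1 (le_antisymm this (sq_nonneg _))
  · right
    by_cases hu1 : u.1 = 0
    · refine ⟨hu1, ?_⟩
      have hu2 : u.2 ≠ 0 := fun h2 => hu (Prod.ext hu1 h2)
      have hen : en u = |u.2| := by
        unfold en
        rw [hu1, zero_pow two_ne_zero, zero_add, Real.sqrt_sq_eq_abs]
      -- both signs
      have key : ∀ w : ℝ × ℝ, w ≠ 0 → w.1 = 0 → PerpAt univ exd O w v → ∀ t : ℝ,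
          t * (w.1 * v.1 + w.2 * v.2) / en w ≤ |Real.exp (O.1 + t * v.1) - Real.exp O.1| := by
        intro w hw hw1 hp t
        refine lim_en hw t 0 fun s hs _ => ?_
        have h1 := hp s t trivial trivial
        rw [exd_perp_iff, hw1, mul_zero, add_zero, sub_self, abs_zero, add_zero] at h1
        linarith
      by_contra hv2
      obtain ⟨τ, hτ⟩ : ∃ τ : ℝ, τ = -(Real.exp O.1 / |v.2|) * (if 0 < v.1 then 1 else -1) :=
        ⟨_, rfl⟩
      have h0 : 0 < |v.2| := abs_pos.2 hv2
      have hτv : τ * v.1 < 0 := by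
        have h5 : 0 < Real.exp O.1 / |v.2| := by positivity
        rw [hτ]
        split_ifs with hc
        · nlinarith
        · have : v.1 < 0 := lt_of_le_of_ne (not_lt.1 hc) hv1
          nlinarith
      have hτa : |τ| = Real.exp O.1 / |v.2| := by
        rw [hτ, abs_mul, abs_neg, abs_of_pos (by positivity : 0 < Real.exp O.1 / |v.2|)]
        split_ifs <;> simp
      have h1 := key u hu hu1 h τ
      have h2 := key (-u) (neg_ne_zero.2 hu) (by simp [hu1]) h.neg τ
      rw [en_neg] at h2
      have h3 : |τ * (u.1 * v.1 + u.2 * v.2) / en u| ≤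
          |Real.exp (O.1 + τ * v.1) - Real.exp O.1| := by
        rw [abs_le]
        constructor
        · have e : τ * ((-u).1 * v.1 + (-u).2 * v.2) / en u
              = -(τ * (u.1 * v.1 + u.2 * v.2) / en u) := by
            simp only [Prod.fst_neg, Prod.snd_neg]
            ring
          rw [e] at h2
          linarith
        · exact h1
      rw [hu1, zero_mul, zero_add, hen, abs_div, abs_mul τ, abs_mul u.2, abs_abs, hτa] at h3
      have h4 : Real.exp O.1 / |v.2| * (|u.2| * |v.2|) / |u.2| = Real.exp O.1 := by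
        have := abs_pos.2 hu2
        field_simp
      rw [h4] at h3
      have h5 : Real.exp (O.1 + τ * v.1) < Real.exp O.1 := Real.exp_lt_exp.2 (by linarith)
      have h6 := Real.exp_pos (O.1 + τ * v.1)
      rw [abs_of_neg (by linarith)] at h3
      linarith
    · exfalso
      -- general position: contradiction
      have key : ∀ w : ℝ × ℝ, w ≠ 0 → 0 < w.1 → PerpAt univ exd O w v → ∀ t : ℝ,
          t * (w.1 * v.1 + w.2 * v.2) / en w ≤ Real.exp O.1 - Real.exp (O.1 + t * v.1) := by
        intro w hw hw1 hp t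
        refine lim_en hw t (t * v.1 / w.1) fun s hs hs1 => ?_
        have h1 := hp s t trivial trivial
        rw [exd_perp_iff] at h1
        have h2 : t * v.1 ≤ s * w.1 := by rwa [div_le_iff₀ hw1] at hs1
        have h3 : Real.exp (O.1 + t * v.1) ≤ Real.exp (O.1 + s * w.1) :=
          Real.exp_le_exp.2 (by linarith)
        have h4 : Real.exp O.1 ≤ Real.exp (O.1 + s * w.1) :=
          Real.exp_le_exp.2 (by nlinarith)
        rw [abs_of_nonpos (by linarith), abs_of_nonpos (by linarith)] at h1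
        linarith
      have fin : ∀ w : ℝ × ℝ, w ≠ 0 → 0 < w.1 → PerpAt univ exd O w v → False := by
        intro w hw hw1 hp
        have h1 := key w hw hw1 hp 1
        have h2 := key w hw hw1 hp (-1)
        have h3 : Real.exp (O.1 + 1 * v.1) + Real.exp (O.1 + -1 * v.1) > 2 * Real.exp O.1 := by
          have e1 : Real.exp (O.1 + 1 * v.1) = Real.exp O.1 * Real.exp v.1 := by
            rw [one_mul, Real.exp_add]
          have e2 : Real.exp (O.1 + -1 * v.1) = Real.exp O.1 * Real.exp (-v.1) := by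
            rw [neg_one_mul, Real.exp_add]
          rw [e1, e2, ← mul_add]
          have h4 : 1 < Real.cosh v.1 := Real.one_lt_cosh.2 hv1
          rw [Real.cosh_eq] at h4
          nlinarith
        have e : -1 * (w.1 * v.1 + w.2 * v.2) / en w = -(1 * (w.1 * v.1 + w.2 * v.2) / en w) := by
          ring
        rw [e] at h2
        linarith
      rcases lt_or_gt_of_ne hu1 with h1 | h1
      · exact fin (-u) (neg_ne_zero.2 hu) (by simpa using h1) h.neg
      · exact fin u hu h1 h

theorem perp_hv (O : ℝ × ℝ) {u v : ℝ × ℝ} (h : (u.2 = 0 ∧ v.1 = 0) ∨ (u.1 = 0 ∧ v.2 = 0)) :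
    PerpAt univ exd O u v := by
  intro s t _ _
  rw [exd_perp_iff]
  have horth : (s • u).1 * v.1 + (s • u).2 * v.2 = 0 := by
    simp only [Prod.smul_fst, smul_eq_mul, Prod.smul_snd]
    rcases h with ⟨h1, h2⟩ | ⟨h1, h2⟩ <;> rw [h1, h2] <;> ring
  have h1 := en_orth horth t
  rcases h with ⟨h2, h3⟩ | ⟨h2, h3⟩
  · rw [h3, mul_zero, add_zero]
    linarith
  · rw [h2, mul_zero, add_zero, sub_self, abs_zero]
    linarith [abs_nonneg (Real.exp (O.1 + t * v.1) - Real.exp O.1)]

theorem ex_symmetric : SymmetricPerp univ exd := by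
  intro O _ u v hu hv h
  rcases perp_cases hu hv h with ⟨h1, h2⟩ | ⟨h1, h2⟩
  · exact perp_hv O (Or.inr ⟨h2, h1⟩)
  · exact perp_hv O (Or.inl ⟨h2, h1⟩)

theorem ex_not_minkowski : ¬ ∃ N : ℝ × ℝ → ℝ, ∀ X Y, exd X Y = N (Y - X) := by
  rintro ⟨N, h⟩
  have h1 := h (0, 0) (1, 0)
  have h2 := h (1, 0) (2, 0)
  have e1 : ((1, 0) : ℝ × ℝ) - (0, 0) = (1, 0) := by ext <;> simp
  have e2 : ((2, 0) : ℝ × ℝ) - (1, 0) = (1, 0) := by ext <;> norm_num
  rw [e1] at h1
  rw [e2, ← h1] at h2
  unfold exd at h2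
  rw [e1, e2] at h2
  have e3 : Real.exp 0 = 1 := Real.exp_zero
  have e4 : Real.exp 2 = Real.exp 1 * Real.exp 1 := by
    rw [← Real.exp_add]; norm_num
  have h3 : 1 < Real.exp 1 := by
    have := Real.add_one_lt_exp (x := 1) one_ne_zero
    linarith
  simp only at h2
  rw [abs_of_pos (by rw [e4]; nlinarith), abs_of_pos (by rw [e3]; linarith), e3, e4] at h2
  nlinarith

end Pool.Agent.H859R2.Perp
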