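import Pool.Agent.H859R2.PerpEx
import Pool.Agent.H859R2.PMInc

set_option autoImplicit false

namespace Pool.Agent.H859R2.Perp

open Set Filter Topology Pool.Agent.Helper831.PM Pool.Agent.H859R2.PM

lemma exp_slope (P : ℝ × ℝ) (c : ℝ) :
    Tendsto (fun t : ℝ => |Real.exp (P.1 + t * c) - Real.exp P.1| / t) (𝓝[>] 0)
      (𝓝 (Real.exp P.1 * |c|)) := by
  have h1 : HasDerivAt (fun t : ℝ => Real.exp (P.1 + t * c)) (Real.exp P.1 * c) 0 := by
    have h := ((hasDerivAt_id (0 : ℝ)).mul_const c).const_add P.1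
    simp only [one_mul] at h
    have h2 := h.exp
    simpa using h2
  have h2 := h1.tendsto_slope_zero_right
  simp only [zero_add, zero_mul, add_zero, smul_eq_mul] at h2
  have h3 := h2.abs
  rw [abs_mul, abs_of_pos (Real.exp_pos _)] at h3
  refine h3.congr' ?_
  filter_upwards [self_mem_nhdsWithin] with t ht
  have ht' : (0 : ℝ) < t := ht
  rw [abs_mul, abs_of_pos (inv_pos.2 ht')]
  ring

/-- The Finsler function of the example is unique. -/
theorem ex_finsler_unique {F : ℝ × ℝ → ℝ × ℝ → ℝ} (hF : Finsler univ F exd) (P u : ℝ × ℝ) :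
    F P u = exF P u := by
  have hF' : FinslerOn univ F exd := ⟨hF.norm, hF.cont, hF.length⟩
  -- both are the limit of `d(P, P + t u) / t`
  have l1 : Tendsto (fun t : ℝ => exd P (P + t • u) / t) (𝓝[>] 0) (𝓝 (exF P u)) := by
    have h1 : Tendsto (fun t : ℝ => en u + |Real.exp (P.1 + t * u.1) - Real.exp P.1| / t) (𝓝[>] 0)
        (𝓝 (en u + Real.exp P.1 * |u.1|)) := (exp_slope P u.1).const_add _
    refine h1.congr' ?_
    filter_upwards [self_mem_nhdsWithin] with t ht
    have ht' : (0 : ℝ) < t := ht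
    unfold exd
    rw [add_sub_cancel_left, en_smul, abs_of_pos ht', add_div, mul_div_cancel_left₀ _ ht'.ne']
    simp
  have l2 : Tendsto (fun t : ℝ => exd P (P + t • u) / t) (𝓝[>] 0) (𝓝 (F P u)) := by
    rw [Metric.tendsto_nhds]
    intro ε hε
    obtain ⟨δ, hδ, _, hest⟩ := near_open isOpen_univ hF' (mem_univ P)
      (ε := ε / (2 * (‖u‖ + 1))) (by positivity)
    have hev : ∀ᶠ t in 𝓝[>] (0 : ℝ), t < δ / (‖u‖ + 1) :=
      nhdsWithin_le_nhds (gt_mem_nhds (by positivity))
    filter_upwards [self_mem_nhdsWithin, hev] with t ht ht2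
    have ht' : (0 : ℝ) < t := ht
    have hb : P + t • u ∈ Metric.ball P δ := by
      rw [Metric.mem_ball, dist_eq_norm, add_sub_cancel_left, norm_smul, Real.norm_eq_abs,
        abs_of_pos ht']
      rw [lt_div_iff₀ (by positivity)] at ht2
      nlinarith [norm_nonneg u]
    have h1 := hest P (Metric.mem_ball_self hδ) _ hb
    rw [add_sub_cancel_left, (hF.norm P trivial).2.1, abs_of_pos ht', norm_smul,
      Real.norm_eq_abs, abs_of_pos ht'] at h1
    rw [Real.dist_eq]
    have h2 : exd P (P + t • u) / t - F P u = (exd P (P + t • u) - t * F P u) / t := by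
      field_simp
    rw [h2, abs_div, abs_of_pos ht', div_lt_iff₀ ht']
    refine lt_of_le_of_lt h1 ?_
    have h3 : ε / (2 * (‖u‖ + 1)) * (t * ‖u‖) = ε * t * (‖u‖ / (2 * (‖u‖ + 1))) := by
      field_simp
    rw [h3]
    have h4 : ‖u‖ / (2 * (‖u‖ + 1)) < 1 := by
      rw [div_lt_one (by positivity)]
      linarith [norm_nonneg u]
    exact mul_lt_of_lt_one_right (by positivity) h4
  exact tendsto_nhds_unique l2 l1

lemma ex_not_euclidean (P : ℝ × ℝ) : ¬ IsEuclidean (exF P) := by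
  rintro ⟨Q, hQ⟩
  have par : ∀ x y : ℝ × ℝ, Q (x + y) + Q (x - y) = 2 * (Q x + Q y) := by
    intro x y
    have h1 := QuadraticMap.map_add Q x y
    have h2 := QuadraticMap.map_add Q x (-y)
    rw [← sub_eq_add_neg, QuadraticMap.map_neg, QuadraticMap.polar_neg_right] at h2
    linarith
  have h := par (1, 0) (0, 1)
  rw [← hQ, ← hQ, ← hQ, ← hQ] at h
  unfold exF en at h
  have e0 := Real.exp_pos P.1
  set c := Real.exp P.1 with hc
  have s2 : Real.sqrt 2 ^ 2 = 2 := Real.sq_sqrt (by norm_num)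
  have s3 : 1 < Real.sqrt 2 := by
    rw [show (1 : ℝ) = Real.sqrt 1 by simp]
    exact Real.sqrt_lt_sqrt (by norm_num) (by norm_num)
  simp at h
  norm_num at h
  nlinarith

/-- the example is not isometric to a Minkowski plane -/
theorem ex_not_isometric : ¬ ∃ (N : ℝ × ℝ → ℝ) (φ : ℝ × ℝ → ℝ × ℝ), IsNorm N ∧
    Function.Surjective φ ∧ ∀ X Y, exd X Y = N (φ Y - φ X) := by
  rintro ⟨N, φ, hN, hφ, h⟩
  have half : ∀ u, N ((1 / 2 : ℝ) • u) = 1 / 2 * N u := by
    intro u
    rw [hN.2.1, abs_of_pos (by norm_num)]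
  -- the midpoints
  have key : ∀ y : ℝ, ∃ s ∈ Icc (0 : ℝ) 1, φ (s • (1, y)) = (1 / 2 : ℝ) • (φ 0 + φ (1, y)) ∧
      exd 0 (s • (1, y)) = 1 / 2 * exd 0 (1, y) := by
    intro y
    obtain ⟨m, hm⟩ := hφ ((1 / 2 : ℝ) • (φ 0 + φ (1, y)))
    have h1 : exd 0 m = 1 / 2 * exd 0 (1, y) := by
      rw [h, h, hm, ← half]
      congr 1
      module
    have h2 : exd m (1, y) = 1 / 2 * exd 0 (1, y) := by
      rw [h, h, hm, ← half]
      congr 1
      module
    have h3 : m ∈ segment ℝ (0 : ℝ × ℝ) (1, y) := (exd_segment _ _ _).1 (by rw [h1, h2]; ring)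
    rw [segment_eq_image'] at h3
    obtain ⟨s, hs, hsm⟩ := h3
    have hsm' : s • ((1 : ℝ), y) = m := by
      rw [← hsm]
      simp
    exact ⟨s, hs, by rw [hsm', hm], by rw [hsm', h1]⟩
  obtain ⟨s, hs, hs1, hs2⟩ := key 1
  obtain ⟨r, hr, hr1, hr2⟩ := key (-1)
  -- distances from the origin
  have dist0 : ∀ (y t : ℝ), 0 ≤ t → y ^ 2 = 1 →
      exd 0 (t • ((1 : ℝ), y)) = t * Real.sqrt 2 + (Real.exp t - 1) := by
    intro y t ht hy
    unfold exd
    rw [sub_zero, en_smul, abs_of_nonneg ht]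
    have e1 : en ((1 : ℝ), y) = Real.sqrt 2 := by
      unfold en
      rw [hy]
      norm_num
    rw [e1]
    simp only [Prod.smul_fst, smul_eq_mul, mul_one, Prod.fst_zero, Real.exp_zero]
    rw [abs_of_nonneg]
    linarith [Real.one_le_exp ht]
  have e1 : exd 0 (1, 1) = Real.sqrt 2 + (Real.exp 1 - 1) := by
    have := dist0 1 1 zero_le_one (by norm_num)
    rwa [one_smul, one_mul] at this
  have e2 : exd 0 (1, -1) = Real.sqrt 2 + (Real.exp 1 - 1) := by
    have := dist0 (-1) 1 zero_le_one (by norm_num)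
    rwa [one_smul, one_mul] at this
  rw [dist0 1 s hs.1 (by norm_num), e1] at hs2
  rw [dist0 (-1) r hr.1 (by norm_num), e2] at hr2
  have hsq : 0 < Real.sqrt 2 := by positivity
  have hsr : s = r := by
    rcases lt_trichotomy s r with hlt | heq | hlt
    · have := Real.exp_lt_exp.2 hlt
      nlinarith
    · exact heq
    · have := Real.exp_lt_exp.2 hlt
      nlinarith
  subst hsr
  -- the distance of the midpoints
  have h1 : exd (s • (1, 1)) (s • (1, -1)) = 1 / 2 * exd (1, 1) (1, -1) := by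
    rw [h, h, hs1, hr1, ← half]
    congr 1
    module
  have e3 : exd (1, 1) (1, -1) = 2 := by
    unfold exd en
    norm_num
  have e4 : exd (s • (1, 1)) (s • (1, -1)) = 2 * s := by
    unfold exd
    have : s • ((1 : ℝ), (-1 : ℝ)) - s • (1, 1) = s • ((0 : ℝ), (-2 : ℝ)) := by
      rw [← smul_sub]
      congr 1
      norm_num
    rw [this, en_smul, abs_of_nonneg hs.1]
    unfold en
    have h4 : Real.sqrt ((0 : ℝ) ^ 2 + (-2) ^ 2) = 2 := by
      rw [show (0 : ℝ) ^ 2 + (-2) ^ 2 = 2 ^ 2 by norm_num]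
      exact Real.sqrt_sq (by norm_num)
    simp only [Prod.smul_fst, smul_eq_mul, mul_one, sub_self, abs_zero, add_zero]
    rw [h4]
    ring
  rw [e3, e4] at h1
  have hs3 : s = 1 / 2 := by linarith
  rw [hs3] at hs2
  have h5 : Real.exp 1 = Real.exp (1 / 2) * Real.exp (1 / 2) := by
    rw [← Real.exp_add]; norm_num
  have h6 : 1 < Real.exp (1 / 2) := by
    have := Real.add_one_lt_exp (x := 1 / 2) (by norm_num)
    linarith
  rw [h5] at hs2
  nlinarith [mul_pos (sub_pos.2 h6) (sub_pos.2 h6)]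

end Pool.Agent.H859R2.Perp
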