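import Pool.Agent.H859R2.PMClass
import Pool.Agent.H859R2.PerpDefs

/-! The classification of Finslerian projective-metric planes of affine type with symmetric
perpendicularity. -/

set_option autoImplicit false

namespace Pool.Agent.H859R2.Perp

open Set Filter Topology Pool.Agent.Helper831.PM Pool.Agent.H859R2.PM

variable {M : Set (ℝ × ℝ)} {F d : ℝ × ℝ → ℝ × ℝ → ℝ}

lemma ProjPlane.self (hd : ProjPlane M d) {X : ℝ × ℝ} (hX : X ∈ M) : d X X = 0 :=
  (hd.eq_zero X hX X hX).2 rfl

lemma ProjPlane.cont (hd : ProjPlane M d) :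
    ContinuousOn (fun p : (ℝ × ℝ) × (ℝ × ℝ) => d p.1 p.2) (M ×ˢ M) := by
  classical
  rintro ⟨X, Y⟩ ⟨hX, hY⟩
  refine Filter.tendsto_of_seq_tendsto fun w hw => ?_
  have hmem : ∀ᶠ n in atTop, w n ∈ M ×ˢ M := hw.eventually self_mem_nhdsWithin
  have hlim : Tendsto w atTop (𝓝 (X, Y)) := hw.mono_right nhdsWithin_le_nhds
  -- sequences in `M`
  set a : ℕ → ℝ × ℝ := fun n => if w n ∈ M ×ˢ M then (w n).1 else X with ha
  set b : ℕ → ℝ × ℝ := fun n => if w n ∈ M ×ˢ M then (w n).2 else Y with hb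
  have haM : ∀ n, a n ∈ M := by
    intro n
    simp only [ha]
    split_ifs with h
    · exact h.1
    · exact hX
  have hbM : ∀ n, b n ∈ M := by
    intro n
    simp only [hb]
    split_ifs with h
    · exact h.2
    · exact hY
  have ea : ∀ᶠ n in atTop, (w n).1 = a n := by
    filter_upwards [hmem] with n hn
    simp only [ha, if_pos hn]
  have eb : ∀ᶠ n in atTop, (w n).2 = b n := by
    filter_upwards [hmem] with n hn
    simp only [hb, if_pos hn]
  have la : Tendsto a atTop (𝓝 X) := by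
    have h1 : Tendsto (fun n => (w n).1) atTop (𝓝 X) := (continuous_fst.tendsto (X, Y)).comp hlim
    exact h1.congr' ea
  have lb : Tendsto b atTop (𝓝 Y) := by
    have h1 : Tendsto (fun n => (w n).2) atTop (𝓝 Y) := (continuous_snd.tendsto (X, Y)).comp hlim
    exact h1.congr' eb
  have da := (hd.topology X hX a haM).1 la
  have db := (hd.topology Y hY b hbM).1 lb
  have key : Tendsto (fun n => d (a n) (b n)) atTop (𝓝 (d X Y)) := by
    rw [tendsto_iff_dist_tendsto_zero]
    refine squeeze_zero (fun n => dist_nonneg) (fun n => ?_)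
      (by simpa using da.add db : Tendsto (fun n => d X (a n) + d Y (b n)) atTop (𝓝 0))
    rw [Real.dist_eq, abs_le]
    have h1 := hd.triangle _ (haM n) _ hX _ (hbM n)
    have h2 := hd.triangle _ hX _ hY _ (hbM n)
    have h3 := hd.triangle _ hX _ (haM n) _ hY
    have h4 := hd.triangle _ (haM n) _ (hbM n) _ hY
    rw [hd.symm _ (haM n) _ hX] at h1
    rw [hd.symm _ (hbM n) _ hY] at h4
    constructor <;> linarith
  refine key.congr' ?_
  filter_upwards [ea, eb] with n h1 h2
  show d (a n) (b n) = d (w n).1 (w n).2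
  rw [h1, h2]

lemma ProjPlane.inc (hd : ProjPlane M d) : IncMetric M d :=
  ⟨hd.isOpen, hd.convex, hd.eq_zero, hd.symm, hd.triangle, hd.cont, hd.segment⟩

lemma radon_of {N : ℝ × ℝ → ℝ} (hN : RadonNorm N) : IsRadon N := by
  refine ⟨⟨hN.1.1, hN.1.2.1, hN.1.tri⟩, fun u v hu hv hne => ?_, hN.2⟩
  by_cases hO : Om u v = 0
  · have hu0 : u ≠ 0 := by
      rintro rfl
      rw [hN.1.zero] at hu
      norm_num at hu
    obtain ⟨c, rfl⟩ := parallel_of_Om hu0 hO
    rw [hN.1.smul, hu, mul_one] at hv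
    rcases (abs_eq zero_le_one).1 hv with hc | hc
    · rw [hc, one_smul] at hne; exact absurd rfl hne
    · rw [hc, neg_one_smul, add_neg_cancel, hN.1.zero]; norm_num
  · have := hN.1.2.2 u v hO
    rw [hu, hv] at this
    linarith

lemma euclid_of {N : ℝ × ℝ → ℝ} (h : IsEuclid N) : IsEuclidean N := by
  obtain ⟨a, b, c, _, _, h⟩ := h
  refine ⟨a • QuadraticMap.linMulLin (LinearMap.fst ℝ ℝ ℝ) (LinearMap.fst ℝ ℝ ℝ) +
    (2 * b) • QuadraticMap.linMulLin (LinearMap.fst ℝ ℝ ℝ) (LinearMap.snd ℝ ℝ ℝ) +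
    c • QuadraticMap.linMulLin (LinearMap.snd ℝ ℝ ℝ) (LinearMap.snd ℝ ℝ ℝ), fun v => ?_⟩
  rw [h v]
  simp only [add_apply, smul_apply, QuadraticMap.linMulLin_apply,
    smul_eq_mul, LinearMap.fst_apply, LinearMap.snd_apply]
  ring

theorem classification (hd : ProjPlane M d) (hF : Finsler M F d) (hs : SymmetricPerp M d)
    (h : ConvexCircles M d ∨ TangentPerp M F d) :
    (∀ P ∈ M, IsEuclidean (F P)) ∨
      ∃ N, RadonNorm N ∧ ∃ B : Matrix (Fin 3) (Fin 3) ℝ, B.det ≠ 0 ∧
        (∀ X ∈ M, 0 < hom B X 0) ∧ ∀ X ∈ M, ∀ Y ∈ M, d X Y = N (proj B Y - proj B X) := by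
  have A := hd.inc
  have hF' : FinslerOn M F d := ⟨hF.norm, hF.cont, hF.length⟩
  have C := A.core hF' hs h
  rcases classify C (fun y hy z hz => A.int_eq hF' hy hz) with h | ⟨B, hB, hpos, N, hN, hdN⟩
  · exact Or.inl fun P hP => euclid_of (h P hP)
  · exact Or.inr ⟨N, hN, B, hB, hpos, hdN⟩

/-- distances are additive along rays -/
lemma ProjPlane.add_ray (A : ProjPlane M d) {x u : ℝ × ℝ} (hx : x ∈ M) {s t : ℝ} (hs : 0 ≤ s)
    (hst : s ≤ t) (h1 : x + s • u ∈ M) (h2 : x + t • u ∈ M) :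
    d x (x + t • u) = d x (x + s • u) + d (x + s • u) (x + t • u) := by
  refine ((A.segment x hx _ h1 _ h2).2 ?_).symm
  rw [segment_eq_image']
  rcases eq_or_lt_of_le (hs.trans hst) with h0 | h0
  · have h1 : s = 0 := le_antisymm (by rw [h0]; exact hst) hs
    exact ⟨0, ⟨le_rfl, zero_le_one⟩, by
      show x + (0 : ℝ) • (x + t • u - x) = x + s • u
      rw [h1, zero_smul, zero_smul]⟩
  · refine ⟨s / t, ⟨div_nonneg hs h0.le, (div_le_one h0).2 hst⟩, ?_⟩
    show x + (s / t) • (x + t • u - x) = x + s • u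
    rw [add_sub_cancel_left, smul_smul, div_mul_cancel₀ _ h0.ne']

lemma ProjPlane.nonneg (A : ProjPlane M d) {x y : ℝ × ℝ} (hx : x ∈ M) (hy : y ∈ M) :
    0 ≤ d x y := by
  have := A.triangle x hx y hy x hx
  rw [A.self hx, A.symm y hy x hx] at this
  linarith

/-- completeness: rays have infinite length -/
lemma ray_unbounded (A : ProjPlane M d) (hc : Complete M d) {x u : ℝ × ℝ} (hx : x ∈ M)
    (hu : u ≠ 0) (K : ℝ) (hK : ∀ t : ℝ, 0 ≤ t → x + t • u ∈ M → d x (x + t • u) ≤ K) : False := by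
  set S : Set ℝ := {g | ∃ t : ℝ, 0 ≤ t ∧ x + t • u ∈ M ∧ g = d x (x + t • u)} with hS
  have hne : S.Nonempty := ⟨d x x, 0, le_rfl, by simpa using hx, by simp⟩
  have hbdd : BddAbove S := ⟨K, by rintro _ ⟨t, ht, hm, rfl⟩; exact hK t ht hm⟩
  set G := sSup S with hG
  have hle : ∀ t : ℝ, 0 ≤ t → x + t • u ∈ M → d x (x + t • u) ≤ G := fun t ht hm =>
    le_csSup hbdd ⟨t, ht, hm, rfl⟩
  have hex : ∀ n : ℕ, ∃ t : ℝ, 0 ≤ t ∧ x + t • u ∈ M ∧ G - 1 / ((n : ℝ) + 1) < d x (x + t • u) := by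
    intro n
    have hpos : (0 : ℝ) < 1 / ((n : ℝ) + 1) := by positivity
    obtain ⟨_, ⟨t, ht, hm, rfl⟩, hlt⟩ := exists_lt_of_lt_csSup hne
      (show G - 1 / ((n : ℝ) + 1) < sSup S by linarith)
    exact ⟨t, ht, hm, hlt⟩
  choose t ht hm hlt using hex
  have hdist : ∀ m n, d (x + t m • u) (x + t n • u) < max (1 / ((m : ℝ) + 1)) (1 / ((n : ℝ) + 1)) := by
    intro m n
    rcases le_total (t m) (t n) with h | h
    · have h1 := A.add_ray hx (ht m) h (hm m) (hm n)
      have h2 := hle _ (ht n) (hm n)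
      have h3 := hlt m
      exact lt_of_lt_of_le (by linarith) (le_max_left _ _)
    · have h1 := A.add_ray hx (ht n) h (hm n) (hm m)
      have h2 := hle _ (ht m) (hm m)
      have h3 := hlt n
      rw [A.symm _ (hm m) _ (hm n)]
      exact lt_of_lt_of_le (by linarith) (le_max_right _ _)
  obtain ⟨y, hy, hlim⟩ := hc (fun n => x + t n • u) hm (by
    intro ε hε
    obtain ⟨n0, hn0⟩ := exists_nat_one_div_lt hε
    refine ⟨n0, fun m hm' n hn' => (hdist m n).trans (max_lt ?_ ?_)⟩
    · refine lt_of_le_of_lt ?_ hn0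
      apply one_div_le_one_div_of_le (by positivity)
      have : (n0 : ℝ) ≤ m := by exact_mod_cast hm'
      linarith
    · refine lt_of_le_of_lt ?_ hn0
      apply one_div_le_one_div_of_le (by positivity)
      have : (n0 : ℝ) ≤ n := by exact_mod_cast hn'
      linarith)
  have htend : Tendsto (fun n => x + t n • u) atTop (𝓝 y) := (A.topology y hy _ hm).2 hlim
  obtain ⟨T, hT⟩ : ∃ T, Tendsto t atTop (𝓝 T) := by
    have h1 : u.1 ≠ 0 ∨ u.2 ≠ 0 := by
      by_contra hc
      push Not at hc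
      exact hu (Prod.ext hc.1 hc.2)
    rcases h1 with h1 | h1
    · refine ⟨(y.1 - x.1) / u.1, ?_⟩
      have c1 := (continuous_fst.tendsto y).comp htend
      have c2 := (c1.sub_const x.1).div_const u.1
      refine c2.congr fun n => ?_
      show ((x + t n • u).1 - x.1) / u.1 = t n
      simp only [Prod.fst_add, Prod.smul_fst, smul_eq_mul]
      field_simp; ring
    · refine ⟨(y.2 - x.2) / u.2, ?_⟩
      have c1 := (continuous_snd.tendsto y).comp htend
      have c2 := (c1.sub_const x.2).div_const u.2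
      refine c2.congr fun n => ?_
      show ((x + t n • u).2 - x.2) / u.2 = t n
      simp only [Prod.snd_add, Prod.smul_snd, smul_eq_mul]
      field_simp; ring
  have hyT : y = x + T • u :=
    tendsto_nhds_unique htend ((hT.smul_const u).const_add x)
  have hT0 : 0 ≤ T := ge_of_tendsto' hT ht
  have hcd : ContinuousAt (fun w => d x w) y := by
    have h1 : ContinuousAt (fun p : (ℝ × ℝ) × (ℝ × ℝ) => d p.1 p.2) (x, y) :=
      A.cont.continuousAt ((A.isOpen.prod A.isOpen).mem_nhds ⟨hx, hy⟩)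
    have h2 : ContinuousAt (fun P : ℝ × ℝ => (x, P)) y := by fun_prop
    exact ContinuousAt.comp (f := fun P : ℝ × ℝ => (x, P)) (x := y) h1 h2
  have hgT : G ≤ d x y := by
    have l1 : Tendsto (fun n : ℕ => G - 1 / ((n : ℝ) + 1)) atTop (𝓝 (G - 0)) :=
      tendsto_one_div_add_atTop_nhds_zero_nat.const_sub G
    have l2 : Tendsto (fun n => d x (x + t n • u)) atTop (𝓝 (d x y)) := hcd.tendsto.comp htend
    rw [sub_zero] at l1
    exact le_of_tendsto_of_tendsto' l1 l2 fun n => (hlt n).le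
  -- beyond the limit point
  have c : ContinuousAt (fun ε : ℝ => x + (T + ε) • u) 0 := by fun_prop
  have hM' : M ∈ 𝓝 (x + (T + (0 : ℝ)) • u) := by
    rw [add_zero, ← hyT]; exact A.isOpen.mem_nhds hy
  have ev := c.eventually hM'
  rw [Metric.eventually_nhds_iff] at ev
  obtain ⟨δ, hδ, hev⟩ := ev
  have h1 := @hev (δ / 2) (by
    rw [Real.dist_eq, sub_zero, abs_of_pos (by positivity)]; linarith)
  have hyM : x + T • u ∈ M := by rw [← hyT]; exact hy
  have h2 := A.add_ray hx hT0 (by linarith : T ≤ T + δ / 2) hyM h1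
  have h3 := hle _ (by linarith) h1
  have hne' : x + T • u ≠ x + (T + δ / 2) • u := by
    intro h
    have h4 : (δ / 2) • u = 0 := by
      have : x + (T + δ / 2) • u = x + T • u + (δ / 2) • u := by module
      rw [this] at h
      have := h.symm
      simpa using this
    exact smul_ne_zero (by positivity) hu h4
  have h5 : d (x + T • u) (x + (T + δ / 2) • u) ≠ 0 := fun h =>
    hne' ((A.eq_zero _ hyM _ h1).1 h)
  have h6 := A.nonneg hyM h1
  rw [← hyT] at h2 h5 h6
  exact h5 (le_antisymm (by linarith) h6)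

/-- **Affine type, complete.** -/
theorem classification_complete (hd : ProjPlane M d) (hc : Complete M d) (hF : Finsler M F d)
    (hs : SymmetricPerp M d) (h : ConvexCircles M d ∨ TangentPerp M F d) :
    (∀ P ∈ M, IsEuclidean (F P)) ∨
      (M = univ ∧ ∃ N, IsRadon N ∧ ∀ X Y, d X Y = N (Y - X)) := by
  rcases classification hd hF hs h with h | ⟨N, hN, B, hB, hpos, hdN⟩
  · exact Or.inl h
  right
  obtain ⟨K, hK0, hK⟩ := PNorm.exists_up (N := N) ⟨hN.1.1, hN.1.2.1, hN.1.tri⟩
  obtain ⟨x, hx⟩ := hd.nonempty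
  -- coordinates along a ray
  have hhom : ∀ (y u : ℝ × ℝ) (t : ℝ) (i : Fin 3),
      hom B (y + t • u) i = hom B y i + t * (B i 1 * u.1 + B i 2 * u.2) := by
    intro y u t i
    simp only [hom, Prod.fst_add, Prod.smul_fst, Prod.snd_add, Prod.smul_snd, smul_eq_mul]
    ring
  -- the denominator is constant
  have hD : ∀ u : ℝ × ℝ, B 0 1 * u.1 + B 0 2 * u.2 ≤ 0 := by
    intro u
    by_contra hcon
    push Not at hcon
    have hu : u ≠ 0 := by
      rintro rfl
      simp at hcon
    have hc0 := hpos x hx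
    set c := hom B x 0 with hcd
    set D := B 0 1 * u.1 + B 0 2 * u.2 with hDd
    have hbd : ∀ i : Fin 3, ∀ t : ℝ, 0 ≤ t →
        |hom B (x + t • u) i / hom B (x + t • u) 0 - hom B x i / c| ≤
          |hom B x i| / c + |B i 1 * u.1 + B i 2 * u.2| / D + |hom B x i / c| := by
      intro i t ht
      rw [hhom, hhom, ← hcd, ← hDd]
      refine (abs_sub _ _).trans ?_
      gcongr
      have hden : 0 < c + t * D := by positivity
      rw [abs_div, abs_of_pos hden, div_le_iff₀ hden]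
      refine (abs_add_le _ _).trans ?_
      rw [abs_mul, abs_of_nonneg ht, add_mul]
      have e1 : |hom B x i| ≤ |hom B x i| / c * (c + t * D) := by
        rw [div_mul_eq_mul_div, le_div_iff₀ hc0]
        nlinarith [mul_nonneg (abs_nonneg (hom B x i)) (mul_nonneg ht hcon.le)]
      have e2 : t * |B i 1 * u.1 + B i 2 * u.2| ≤
          |B i 1 * u.1 + B i 2 * u.2| / D * (c + t * D) := by
        rw [div_mul_eq_mul_div, le_div_iff₀ hcon]
        nlinarith [mul_nonneg (abs_nonneg (B i 1 * u.1 + B i 2 * u.2)) hc0.le]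
      linarith
    refine ray_unbounded hd hc hx hu (K * (
      (|hom B x 1| / c + |B 1 1 * u.1 + B 1 2 * u.2| / D + |hom B x 1 / c|) +
      (|hom B x 2| / c + |B 2 1 * u.1 + B 2 2 * u.2| / D + |hom B x 2 / c|))) fun t ht hm => ?_
    rw [hdN x hx _ hm]
    refine (hK _).trans (mul_le_mul_of_nonneg_left ?_ hK0.le)
    rw [Prod.norm_def]
    have b1 := hbd 1 t ht
    have b2 := hbd 2 t ht
    have p1 : 0 ≤ |hom B x 1| / c + |B 1 1 * u.1 + B 1 2 * u.2| / D + |hom B x 1 / c| :=
      (abs_nonneg _).trans b1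
    have p2 : 0 ≤ |hom B x 2| / c + |B 2 1 * u.1 + B 2 2 * u.2| / D + |hom B x 2 / c| :=
      (abs_nonneg _).trans b2
    apply max_le
    · rw [Real.norm_eq_abs]
      exact b1.trans (by linarith)
    · rw [Real.norm_eq_abs]
      exact b2.trans (by linarith)
  have hD0 : B 0 1 = 0 ∧ B 0 2 = 0 := by
    have h1 := hD (1, 0)
    have h2 := hD (-1, 0)
    have h3 := hD (0, 1)
    have h4 := hD (0, -1)
    simp at h1 h2 h3 h4
    exact ⟨le_antisymm h1 h2, le_antisymm h3 h4⟩
  have hc0 : ∀ y, hom B y 0 = B 0 0 := by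
    intro y
    simp [hom, hD0.1, hD0.2]
  have hB0 : 0 < B 0 0 := by rw [← hc0 x]; exact hpos x hx
  -- the affine map
  set p : ℝ × ℝ := (B 1 1 / B 0 0, B 2 1 / B 0 0) with hp
  set q : ℝ × ℝ := (B 1 2 / B 0 0, B 2 2 / B 0 0) with hq
  have hproj : ∀ y z : ℝ × ℝ, proj B z - proj B y = lin p q (z - y) := by
    intro y z
    unfold proj lin
    rw [hc0, hc0]
    ext
    · simp only [hom, Prod.fst_sub, hp, hq, Prod.fst_add, Prod.smul_fst, smul_eq_mul, Prod.snd_sub]
      field_simp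
      ring
    · simp only [hom, Prod.fst_sub, hp, hq, Prod.snd_add, Prod.smul_snd, smul_eq_mul, Prod.snd_sub]
      field_simp
      ring
  have hpq : Om p q ≠ 0 := by
    rw [Matrix.det_fin_three, hD0.1, hD0.2] at hB
    intro h0
    apply hB
    have h1 : B 1 1 * B 2 2 - B 2 1 * B 1 2 = 0 := by
      unfold Om at h0
      simp only [hp, hq] at h0
      have h2 : B 1 1 / B 0 0 * (B 2 2 / B 0 0) - B 2 1 / B 0 0 * (B 1 2 / B 0 0) =
        (B 1 1 * B 2 2 - B 2 1 * B 1 2) / (B 0 0) ^ 2 := by field_simp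
      rw [h2] at h0
      rcases div_eq_zero_iff.1 h0 with h | h
      · exact h
      · exact absurd h (by positivity)
    linear_combination (B 0 0) * h1
  have hR := radon_comp hN hpq
  have hM : M = univ := by
    by_contra hne
    obtain ⟨z, hz⟩ := (ne_univ_iff_exists_notMem M).1 hne
    have hu : z - x ≠ 0 := by
      intro h
      exact hz (by rw [sub_eq_zero.1 h]; exact hx)
    refine ray_unbounded hd hc hx hu (N (lin p q (z - x))) fun t ht hm => ?_
    have ht1 : t ≤ 1 := by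
      by_contra hcon
      push Not at hcon
      apply hz
      apply hd.convex.segment_subset hx hm
      rw [segment_eq_image']
      refine ⟨1 / t, ⟨by positivity, by rw [div_le_one (by linarith)]; exact hcon.le⟩, ?_⟩
      show x + (1 / t) • (x + t • (z - x) - x) = z
      rw [add_sub_cancel_left, smul_smul, one_div, inv_mul_cancel₀ (by linarith), one_smul]
      abel
    rw [hdN x hx _ hm, hproj, add_sub_cancel_left, lin_smul, hN.1.smul, abs_of_nonneg ht]
    have h0 : 0 ≤ N (lin p q (z - x)) := PNorm.nonneg ⟨hN.1.1, hN.1.2.1, hN.1.tri⟩ _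
    nlinarith
  refine ⟨hM, fun w => N (lin p q w), radon_of hR, fun X Y => ?_⟩
  rw [hdN X (by rw [hM]; trivial) Y (by rw [hM]; trivial), hproj]

end Pool.Agent.H859R2.Perp
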