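import Pool.Agent.H859R2.Amgm

set_option autoImplicit false

namespace Pool.Agent.H859R2

open Finset Matrix

variable {d : ℕ}

/-- index bookkeeping -/
def ee (d : ℕ) : Fin (d + 1) ≃ (Fin d ⊕ Unit) :=
  (finSumFinEquiv.symm : Fin (d + 1) ≃ Fin d ⊕ Fin 1).trans
    (Equiv.sumCongr (Equiv.refl _) (Equiv.ofUnique (Fin 1) Unit))

/-- the matrix with rows `(a_i, 1)` -/
def AA (a : Fin (d + 1) → EuclideanSpace ℝ (Fin d)) : Matrix (Fin d ⊕ Unit) (Fin d ⊕ Unit) ℝ :=
  Matrix.of fun i k => Sum.elim (fun k => a ((ee d).symm i) k) (fun _ => 1) k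

@[simp] lemma AA_inl (a : Fin (d + 1) → EuclideanSpace ℝ (Fin d)) (i : Fin d ⊕ Unit) (k : Fin d) :
    AA a i (Sum.inl k) = a ((ee d).symm i) k := rfl

@[simp] lemma AA_inr (a : Fin (d + 1) → EuclideanSpace ℝ (Fin d)) (i : Fin d ⊕ Unit) (k : Unit) :
    AA a i (Sum.inr k) = 1 := rfl

lemma inner_eq_sum (x y : EuclideanSpace ℝ (Fin d)) : inner ℝ x y = ∑ k, x k * y k := by
  rw [PiLp.inner_apply]
  refine Finset.sum_congr rfl fun k _ => ?_
  simp [mul_comm]

/-- unit normals of a regular simplex -/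
structure Reg (b : Fin (d + 1) → EuclideanSpace ℝ (Fin d)) : Prop where
  unit : ∀ i, ‖b i‖ = 1
  gram : ∀ i j, i ≠ j → inner ℝ (b i) (b j) = (-1 : ℝ) / (d : ℝ)

lemma Reg.comp {b : Fin (d + 1) → EuclideanSpace ℝ (Fin d)} (h : Reg b)
    (σ : Equiv.Perm (Fin (d + 1))) : Reg (b ∘ σ) :=
  ⟨fun i => h.unit _, fun i j hij => h.gram _ _ (fun hc => hij (σ.injective hc))⟩

lemma Reg.self {b : Fin (d + 1) → EuclideanSpace ℝ (Fin d)} (h : Reg b) (i : Fin (d + 1)) :
    inner ℝ (b i) (b i) = 1 := by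
  rw [real_inner_self_eq_norm_sq, h.unit, one_pow]

lemma Reg.sum_inner {b : Fin (d + 1) → EuclideanSpace ℝ (Fin d)} (h : Reg b) (hd : 0 < d)
    (i : Fin (d + 1)) : ∑ j, inner ℝ (b i) (b j) = 0 := by
  have hd' : (d : ℝ) ≠ 0 := by exact_mod_cast hd.ne'
  rw [← Finset.add_sum_erase _ _ (Finset.mem_univ i), h.self,
    Finset.sum_congr rfl (g := fun _ => (-1 : ℝ) / (d : ℝ))
      (fun j hj => h.gram i j (Finset.ne_of_mem_erase hj).symm)]
  rw [Finset.sum_const, Finset.card_erase_of_mem (Finset.mem_univ i), Finset.card_univ,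
    Fintype.card_fin]
  simp only [Nat.add_sub_cancel, nsmul_eq_mul]
  field_simp
  norm_num

lemma Reg.sum_eq {b : Fin (d + 1) → EuclideanSpace ℝ (Fin d)} (h : Reg b) (hd : 0 < d) :
    ∑ j, b j = 0 := by
  have h1 : inner ℝ (∑ i, b i) (∑ j, b j) = 0 := by
    rw [_root_.sum_inner]
    simp_rw [inner_sum]
    exact Finset.sum_eq_zero fun i _ => h.sum_inner hd i
  exact inner_self_eq_zero.1 h1

/-- scaled matrix -/
lemma Reg.mul_transpose {b : Fin (d + 1) → EuclideanSpace ℝ (Fin d)} (h : Reg b) (hd : 0 < d) :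
    AA b * (Matrix.fromBlocks 1 0 0 (Matrix.of fun _ _ => (1 : ℝ) / d) :
      Matrix (Fin d ⊕ Unit) (Fin d ⊕ Unit) ℝ) * (AA b)ᵀ = ((d + 1 : ℝ) / d) • 1 := by
  have hd' : (d : ℝ) ≠ 0 := by exact_mod_cast hd.ne'
  ext i j
  rw [Matrix.mul_apply, Fintype.sum_sum_type]
  simp only [Matrix.mul_apply, Fintype.sum_sum_type, Matrix.transpose_apply, AA_inl, AA_inr,
    Matrix.fromBlocks_apply₁₁, Matrix.fromBlocks_apply₁₂, Matrix.fromBlocks_apply₂₁,
    Matrix.fromBlocks_apply₂₂, Matrix.zero_apply, mul_zero, Finset.sum_const_zero, add_zero,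
    zero_add, Matrix.of_apply, Matrix.one_apply, mul_ite, mul_one, Finset.sum_ite_eq',
    Finset.sum_ite_eq, Finset.mem_univ, if_true, one_mul, Finset.univ_unique,
    Finset.sum_singleton, Matrix.smul_apply, smul_eq_mul]
  rw [← inner_eq_sum]
  by_cases hij : i = j
  · subst hij
    rw [h.self, if_pos rfl]
    field_simp
  · rw [h.gram _ _ (fun hc => hij ((ee d).symm.injective hc)), if_neg hij]
    field_simp
    ring

lemma Reg.det_sq {b : Fin (d + 1) → EuclideanSpace ℝ (Fin d)} (h : Reg b) (hd : 0 < d) :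
    (AA b).det ^ 2 = ((d + 1 : ℝ)) ^ (d + 1) / (d : ℝ) ^ d := by
  have hd' : (d : ℝ) ≠ 0 := by exact_mod_cast hd.ne'
  have h1 := congrArg Matrix.det (h.mul_transpose hd)
  rw [Matrix.det_mul, Matrix.det_mul, Matrix.det_transpose, Matrix.det_fromBlocks_zero₂₁,
    Matrix.det_one, one_mul, Matrix.det_smul, Matrix.det_one, mul_one,
    Matrix.det_unique (Matrix.of fun _ _ => (1 : ℝ) / d : Matrix Unit Unit ℝ)] at h1
  simp only [Matrix.of_apply, Fintype.card_sum, Fintype.card_fin, Fintype.card_unit] at h1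
  have h2 : (AA b).det ^ 2 = d * ((d + 1 : ℝ) / d) ^ (d + 1) := by
    rw [← h1]
    field_simp
  rw [h2, div_pow, pow_succ (d : ℝ) d]
  field_simp

/-- for a regular family, `∑ ⟪b_j, x⟫ b_j = (d+1)/d x` -/
lemma Reg.expand {b : Fin (d + 1) → EuclideanSpace ℝ (Fin d)} (h : Reg b) (hd : 0 < d)
    (x y : EuclideanSpace ℝ (Fin d)) :
    ∑ j, inner ℝ (b j) x * inner ℝ (b j) y = (d + 1 : ℝ) / d * inner ℝ x y := by
  have hd' : (d : ℝ) ≠ 0 := by exact_mod_cast hd.ne'
  have hd1 : (d + 1 : ℝ) ≠ 0 := by positivity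
  set D : Matrix (Fin d ⊕ Unit) (Fin d ⊕ Unit) ℝ :=
    Matrix.fromBlocks 1 0 0 (Matrix.of fun _ _ => (1 : ℝ) / d) with hD
  have h1 := h.mul_transpose hd
  rw [← hD] at h1
  have h2 : ((d : ℝ) / (d + 1)) • (AA b * D) * (AA b)ᵀ = 1 := by
    rw [Matrix.smul_mul, h1, smul_smul, div_mul_div_comm, mul_comm (d : ℝ), div_self (by positivity),
      one_smul]
  have h3 := mul_eq_one_comm.1 h2
  rw [Matrix.mul_smul, ← Matrix.mul_assoc] at h3
  have h4 : (AA b)ᵀ * AA b * D = ((d + 1 : ℝ) / d) • 1 := by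
    rw [← h3, smul_smul, div_mul_div_comm, mul_comm (d : ℝ), div_self (by positivity), one_smul]
  have h5 : ∀ k l : Fin d, ∑ j, b j k * b j l = if k = l then (d + 1 : ℝ) / d else 0 := by
    intro k l
    have h6 := congrFun (congrFun h4 (Sum.inl k)) (Sum.inl l)
    rw [Matrix.mul_apply, Fintype.sum_sum_type] at h6
    simp only [hD, Matrix.mul_apply, Fintype.sum_sum_type, Matrix.transpose_apply, AA_inl, AA_inr,
      Matrix.fromBlocks_apply₁₁, Matrix.fromBlocks_apply₁₂, Matrix.fromBlocks_apply₂₁,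
      Matrix.fromBlocks_apply₂₂, Matrix.zero_apply, mul_zero, Finset.sum_const_zero, add_zero,
      Matrix.one_apply, mul_ite, mul_one, Finset.sum_ite_eq',
      Finset.mem_univ, if_true, Matrix.smul_apply, smul_eq_mul, Sum.inl.injEq] at h6
    rw [← h6, ← Equiv.sum_comp (ee d).symm, Fintype.sum_sum_type]
  have h6 : ∑ j, inner ℝ (b j) x * inner ℝ (b j) y
      = ∑ k, ∑ l, (∑ j, b j k * b j l) * (x k * y l) := by
    simp_rw [inner_eq_sum, Finset.sum_mul_sum, Finset.sum_mul]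
    rw [Finset.sum_comm]
    refine Finset.sum_congr rfl fun k _ => ?_
    rw [Finset.sum_comm]
    refine Finset.sum_congr rfl fun l _ => Finset.sum_congr rfl fun j _ => by ring
  rw [h6, inner_eq_sum, Finset.mul_sum]
  refine Finset.sum_congr rfl fun k _ => ?_
  simp_rw [h5]
  simp [ite_mul]

/-- data of the simplex with unit normals `a`, inradius `ρ`, centre `0` -/
structure Bary (a : Fin (d + 1) → EuclideanSpace ℝ (Fin d)) (ρ : ℝ) (lam : Fin (d + 1) → ℝ)
    (p : Fin (d + 1) → EuclideanSpace ℝ (Fin d)) : Prop where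
  unit : ∀ i, ‖a i‖ = 1
  pos : ∀ i, 0 < lam i
  sum : ∑ i, lam i = 1
  bal : ∑ i, lam i • a i = 0
  off : ∀ i j, i ≠ j → inner ℝ (a i) (p j) = ρ
  on : ∀ i, inner ℝ (a i) (p i) = ρ - ρ / lam i

lemma Bary.sum_p {a : Fin (d + 1) → EuclideanSpace ℝ (Fin d)} {ρ : ℝ} {lam : Fin (d + 1) → ℝ}
    {p : Fin (d + 1) → EuclideanSpace ℝ (Fin d)} (h : Bary a ρ lam p) (w : Fin (d + 1) → ℝ)
    (i : Fin (d + 1)) :
    inner ℝ (a i) (∑ j, w j • p j) = ρ * ∑ j, w j - ρ / lam i * w i := by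
  rw [inner_sum]
  simp_rw [inner_smul_right]
  rw [← Finset.add_sum_erase _ _ (Finset.mem_univ i), h.on,
    Finset.sum_congr rfl (g := fun j => w j * ρ)
      (fun j hj => by rw [h.off i j (Finset.ne_of_mem_erase hj).symm]),
    ← Finset.sum_mul, ← Finset.add_sum_erase univ w (Finset.mem_univ i)]
  ring

lemma det_bound {a : Fin (d + 1) → EuclideanSpace ℝ (Fin d)} {ρ : ℝ} {lam : Fin (d + 1) → ℝ}
    {p : Fin (d + 1) → EuclideanSpace ℝ (Fin d)} (h : Bary a ρ lam p) (hd : 0 < d) :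
    (AA a).det ^ 2 * ∏ i, lam i ≤ (1 / (d : ℝ)) ^ d := by
  have : Nonempty (Fin d) := ⟨⟨0, hd⟩⟩
  set C : Matrix (Fin d) (Fin d) ℝ := Matrix.of fun k l => ∑ i, lam i * (a i k * a i l) with hC
  have h1 : (AA a)ᵀ * Matrix.diagonal (fun i => lam ((ee d).symm i)) * AA a
      = Matrix.fromBlocks C 0 0 1 := by
    have hb : ∀ k, ∑ i, lam i * a i k = 0 := by
      intro k
      have := congrArg (fun v : EuclideanSpace ℝ (Fin d) => v k) h.bal
      simpa using this
    ext k l
    rw [Matrix.mul_apply]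
    simp only [Matrix.mul_diagonal, Matrix.transpose_apply]
    rw [Equiv.sum_comp (ee d).symm (fun i => AA a (ee d i) k * lam i * AA a (ee d i) l) |>.symm.trans
      (Finset.sum_congr rfl fun i _ => by simp) |>.symm]
    rcases k with k | k <;> rcases l with l | l
    · simp only [AA_inl, Equiv.symm_apply_apply, Matrix.fromBlocks_apply₁₁, hC, Matrix.of_apply]
      exact Finset.sum_congr rfl fun i _ => by ring
    · simp only [AA_inl, AA_inr, Equiv.symm_apply_apply, Matrix.fromBlocks_apply₁₂,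
        Matrix.zero_apply]
      rw [← hb k]
      exact Finset.sum_congr rfl fun i _ => by ring
    · simp only [AA_inl, AA_inr, Equiv.symm_apply_apply, Matrix.fromBlocks_apply₂₁,
        Matrix.zero_apply]
      rw [← hb l]
      exact Finset.sum_congr rfl fun i _ => by ring
    · simp only [AA_inr, Matrix.fromBlocks_apply₂₂, Matrix.one_apply_eq, one_mul, mul_one]
      rw [h.sum]
  have h2 := congrArg Matrix.det h1
  rw [Matrix.det_mul, Matrix.det_mul, Matrix.det_transpose, Matrix.det_diagonal,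
    Matrix.det_fromBlocks_zero₂₁, Matrix.det_one, mul_one,
    Equiv.prod_comp (ee d).symm lam] at h2
  have h3 : (AA a).det ^ 2 * ∏ i, lam i = C.det := by rw [← h2]; ring
  have h4 : C.PosSemidef := by
    have h5 : C = (Matrix.of fun i k => Real.sqrt (lam i) * a i k)ᴴ *
        (Matrix.of fun i k => Real.sqrt (lam i) * a i k : Matrix (Fin (d + 1)) (Fin d) ℝ) := by
      ext k l
      simp only [hC, Matrix.of_apply, Matrix.mul_apply, Matrix.conjTranspose_apply, star_trivial]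
      refine Finset.sum_congr rfl fun i _ => ?_
      have := Real.mul_self_sqrt (h.pos i).le
      calc lam i * (a i k * a i l) = (Real.sqrt (lam i) * Real.sqrt (lam i)) * (a i k * a i l) := by
            rw [this]
        _ = _ := by ring
    rw [h5]
    exact Matrix.posSemidef_conjTranspose_mul_self _
  have h5 : C.trace = 1 := by
    simp only [Matrix.trace, Matrix.diag_apply, hC, Matrix.of_apply]
    rw [Finset.sum_comm]
    have : ∀ i, ∑ k, lam i * (a i k * a i k) = lam i := by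
      intro i
      rw [← Finset.mul_sum, ← inner_eq_sum, real_inner_self_eq_norm_sq, h.unit]
      ring
    simp_rw [this]
    exact h.sum
  have h6 := det_le_trace h4
  rw [h5, Fintype.card_fin] at h6
  rw [h3]
  exact h6

end Pool.Agent.H859R2
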