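import Pool.Agent.H859R2.SimplexMap

set_option autoImplicit false

namespace Pool.Agent.H859R2

open Finset Matrix

variable {d : ℕ}

section

variable {a b : Fin (d + 1) → EuclideanSpace ℝ (Fin d)} {ρ : ℝ} {lam : Fin (d + 1) → ℝ}
  {p : Fin (d + 1) → EuclideanSpace ℝ (Fin d)}

lemma inner_LL (h : Bary a ρ lam p) (hb : Reg b) (hd : 0 < d) (hρ : 0 < ρ)
    (y : EuclideanSpace ℝ (Fin d)) (i : Fin (d + 1)) :
    inner ℝ (a i) (LL b ρ p y) = 1 / ((d + 1) * lam i) * inner ℝ (b i) y := by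
  rw [LL_apply, h.sum_p]
  have h1 : ∑ j, -(1 / ((d + 1) * ρ)) * inner ℝ (b j) y = 0 := by
    rw [← Finset.mul_sum, ← _root_.sum_inner, hb.sum_eq hd, inner_zero_left, mul_zero]
  rw [h1]
  have hl := (h.pos i).ne'
  have hd1 : (d + 1 : ℝ) ≠ 0 := by positivity
  field_simp
  ring

/-- matrix of a continuous linear map -/
noncomputable def MM (L : EuclideanSpace ℝ (Fin d) →L[ℝ] EuclideanSpace ℝ (Fin d)) : Matrix (Fin d) (Fin d) ℝ :=
  Matrix.of fun k l => L (EuclideanSpace.single l 1) k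

lemma det_MM (L : EuclideanSpace ℝ (Fin d) →L[ℝ] EuclideanSpace ℝ (Fin d)) :
    L.det = (MM L).det := by
  rw [ContinuousLinearMap.det,
    ← LinearMap.det_toMatrix (EuclideanSpace.basisFun (Fin d) ℝ).toBasis]
  congr 1

lemma matrix_eq (h : Bary a ρ lam p) (hb : Reg b) (hd : 0 < d) (hρ : 0 < ρ) :
    AA a * (Matrix.fromBlocks (MM (LL b ρ p))
      (Matrix.of fun k _ => -(∑ i, (1 / (d + 1) : ℝ) • p i) k / ρ) 0 1 :
        Matrix (Fin d ⊕ Unit) (Fin d ⊕ Unit) ℝ)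
      = Matrix.diagonal (fun i => 1 / ((d + 1) * lam ((ee d).symm i))) * AA b := by
  ext i k
  rw [Matrix.mul_apply, Fintype.sum_sum_type, Matrix.diagonal_mul]
  rcases k with k | k
  · simp only [AA_inl, AA_inr, Matrix.fromBlocks_apply₁₁, Matrix.fromBlocks_apply₂₁,
      Matrix.zero_apply, mul_zero, Finset.sum_const_zero, add_zero, MM, Matrix.of_apply]
    rw [← inner_eq_sum, inner_LL h hb hd hρ]
    congr 1
    rw [inner_eq_sum]
    simp
  · simp only [AA_inl, AA_inr, Matrix.fromBlocks_apply₁₂, Matrix.fromBlocks_apply₂₂,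
      Matrix.of_apply, Finset.univ_unique, Finset.sum_singleton, Matrix.one_apply_eq, mul_one]
    have h1 : ∑ x, a ((ee d).symm i) x * (-(∑ i, (1 / (d + 1) : ℝ) • p i) x / ρ)
        = -(inner ℝ (a ((ee d).symm i)) (∑ i, (1 / (d + 1) : ℝ) • p i)) / ρ := by
      rw [inner_eq_sum, ← Finset.sum_neg_distrib, Finset.sum_div]
      exact Finset.sum_congr rfl fun x _ => by ring
    rw [h1, h.sum_p]
    have hl := (h.pos ((ee d).symm i)).ne'
    have hd1 : (d + 1 : ℝ) ≠ 0 := by positivity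
    have h2 : ∑ _j : Fin (d + 1), (1 / (d + 1) : ℝ) = 1 := by
      simp
      field_simp
    rw [h2]
    field_simp
    ring

/-- the affine map does not decrease volume -/
lemma one_le_det (h : Bary a ρ lam p) (hb : Reg b) (hd : 0 < d) (hρ : 0 < ρ) :
    1 ≤ |(LL b ρ p).det| := by
  have hd' : (0 : ℝ) < d := by exact_mod_cast hd
  have hd1 : (0 : ℝ) < (d : ℝ) + 1 := by positivity
  have h1 := congrArg Matrix.det (matrix_eq h hb hd hρ)
  rw [Matrix.det_mul, Matrix.det_fromBlocks_zero₂₁, Matrix.det_one, mul_one, Matrix.det_mul,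
    Matrix.det_diagonal, ← det_MM] at h1
  have h2 : ∏ i, 1 / (((d : ℝ) + 1) * lam ((ee d).symm i))
      = 1 / (((d : ℝ) + 1) ^ (d + 1) * ∏ i, lam i) := by
    rw [Equiv.prod_comp (ee d).symm (fun i => 1 / (((d : ℝ) + 1) * lam i)),
      Finset.prod_div_distrib, Finset.prod_const_one, Finset.prod_mul_distrib]
    simp
  rw [h2] at h1
  have hP : 0 < ∏ i, lam i := Finset.prod_pos fun i _ => h.pos i
  have h3 := hb.det_sq hd
  have h4 := det_bound h hd
  have h5 : ∏ i, lam i ≤ (1 / ((d : ℝ) + 1)) ^ (d + 1) := by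
    have := prod_le_pow_avg lam (fun i => (h.pos i).le)
    rw [h.sum, Fintype.card_fin] at this
    push_cast at this
    exact this
  set P := ∏ i, lam i with hPd
  set X := (AA a).det with hX
  set Y := (AA b).det with hY
  set D := (LL b ρ p).det with hD
  set q := ((d : ℝ) + 1) ^ (d + 1) with hq
  have hq0 : 0 < q := by positivity
  have hqP : q * P ≤ 1 := by
    calc q * P ≤ q * (1 / ((d : ℝ) + 1)) ^ (d + 1) := by gcongr
      _ = 1 := by rw [hq, ← mul_pow, mul_one_div_cancel hd1.ne', one_pow]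
  set e := (d : ℝ) ^ d with he
  have he0 : 0 < e := by positivity
  have h4' : X ^ 2 * P ≤ 1 / e := by
    calc _ ≤ _ := h4
      _ = 1 / e := by rw [_root_.one_div_pow]
  -- X² D² = Y² / (q P)²
  have h6 : X ^ 2 * D ^ 2 = (q / e) / (q * P) ^ 2 := by
    rw [← mul_pow, h1, mul_pow, h3]
    field_simp
  have h7 : 1 ≤ D ^ 2 := by
    have h8 : (q / e) / (q * P) ^ 2 * P ≤ 1 / e * D ^ 2 := by
      rw [← h6]
      nlinarith [sq_nonneg D]
    have h9 : (q / e) / (q * P) ^ 2 * P = 1 / e * (1 / (q * P)) := by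
      field_simp
    rw [h9] at h8
    have h10 := le_of_mul_le_mul_left h8 (by positivity)
    have h11 : 1 ≤ 1 / (q * P) := by
      rw [le_div_iff₀ (by positivity)]; linarith
    linarith
  rw [← one_le_sq_iff_one_le_abs]
  exact h7

/-- the vertices are far away on average -/
lemma sum_sq_p (h : Bary a ρ lam p) (hρ : 0 < ρ) :
    (d + 1) * ((d : ℝ) * ρ) ^ 2 ≤ ∑ i, ‖p i‖ ^ 2 := by
  have h1 : ∀ i, ρ * (1 / lam i - 1) ≤ ‖p i‖ := by
    intro i
    have h2 := abs_real_inner_le_norm (a i) (p i)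
    rw [h.unit, one_mul, h.on] at h2
    have h3 := neg_abs_le (ρ - ρ / lam i)
    have : ρ * (1 / lam i - 1) = -(ρ - ρ / lam i) := by ring
    rw [this]
    linarith
  have hlam1 : ∀ i, lam i ≤ 1 := by
    intro i
    rw [← h.sum]
    exact Finset.single_le_sum (f := lam) (fun j _ => (h.pos j).le) (Finset.mem_univ i)
  have h0 : ∀ i, 0 ≤ 1 / lam i - 1 := by
    intro i
    rw [sub_nonneg, le_div_iff₀ (h.pos i), one_mul]
    exact hlam1 i
  -- tangent line bound: (1/x - 1)^2 ≥ d^2 + (slope) (x - 1/(d+1))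
  have key : ∀ i, (d : ℝ) ^ 2 - 2 * d * (d + 1) ^ 2 * (lam i - 1 / (d + 1)) ≤ (1 / lam i - 1) ^ 2 := by
    intro i
    have hx := h.pos i
    obtain ⟨t, ht⟩ : ∃ t, t = 1 / lam i := ⟨_, rfl⟩
    have ht0 : 0 < t := by rw [ht]; positivity
    have hl : lam i = 1 / t := by rw [ht]; field_simp
    rw [hl]
    have e1 : 1 / (1 / t) = t := by field_simp
    rw [e1]
    have hdn : (0 : ℝ) ≤ d := Nat.cast_nonneg d
    -- multiply by t
    have ht1 : 1 ≤ t := by
      have := h0 i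
      rw [← ht] at this
      linarith
    have e2 : (t - 1) ^ 2 - ((d : ℝ) ^ 2 - 2 * d * (d + 1) ^ 2 * (1 / t - 1 / (d + 1)))
        = (t - (d + 1)) ^ 2 * (t + 2 * d) / t := by
      field_simp
      ring
    have e3 : 0 ≤ (t - (d + 1)) ^ 2 * (t + 2 * d) / t := by positivity
    linarith
  have h3 : ∀ i, ρ ^ 2 * ((d : ℝ) ^ 2 - 2 * d * (d + 1) ^ 2 * (lam i - 1 / (d + 1)))
      ≤ ‖p i‖ ^ 2 := by
    intro i
    calc _ ≤ ρ ^ 2 * (1 / lam i - 1) ^ 2 := by
          apply mul_le_mul_of_nonneg_left (key i) (by positivity)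
      _ = (ρ * (1 / lam i - 1)) ^ 2 := by ring
      _ ≤ ‖p i‖ ^ 2 := pow_le_pow_left₀ (mul_nonneg hρ.le (h0 i)) (h1 i) 2
  refine le_trans (le_of_eq ?_) (Finset.sum_le_sum fun i (_ : i ∈ univ) => h3 i)
  rw [← Finset.mul_sum, Finset.sum_sub_distrib, ← Finset.mul_sum, Finset.sum_sub_distrib, h.sum]
  simp
  field_simp
  ring

end

/-! ### averaging over permutations -/

/-- `S j k = ∑_σ x_{σ j} x_{σ k}` -/
lemma perm_sum (n : ℕ) (x : Fin n → ℝ) : ∃ s t : ℝ, (∀ i, ∑ σ : Equiv.Perm (Fin n),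
    x (σ i) * x (σ i) = s) ∧ (∀ i j, i ≠ j → ∑ σ : Equiv.Perm (Fin n), x (σ i) * x (σ j) = t) ∧
    ((∀ i, 0 ≤ x i) → 0 ≤ t) := by
  have hinv : ∀ (τ : Equiv.Perm (Fin n)) (i j : Fin n), ∑ σ : Equiv.Perm (Fin n),
      x (σ (τ i)) * x (σ (τ j)) = ∑ σ : Equiv.Perm (Fin n), x (σ i) * x (σ j) := by
    intro τ i j
    exact Fintype.sum_equiv (Equiv.mulRight τ) _ _ (fun σ => by simp)
  by_cases hn : ∃ i0 j0 : Fin n, i0 ≠ j0
  · obtain ⟨i0, j0, h0⟩ := hn
    refine ⟨∑ σ : Equiv.Perm (Fin n), x (σ i0) * x (σ i0),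
      ∑ σ : Equiv.Perm (Fin n), x (σ i0) * x (σ j0), ?_, ?_, ?_⟩
    · intro i
      have := hinv (Equiv.swap i0 i) i0 i0
      rwa [Equiv.swap_apply_left] at this
    · intro i j hij
      obtain ⟨τ, h1, h2⟩ : ∃ τ : Equiv.Perm (Fin n), τ i0 = i ∧ τ j0 = j := by
        refine ⟨Equiv.swap (Equiv.swap i0 i j0) j * Equiv.swap i0 i, ?_, ?_⟩
        · rw [Equiv.Perm.mul_apply, Equiv.swap_apply_left]
          apply Equiv.swap_apply_of_ne_of_ne
          · intro hc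
            apply h0
            have := congrArg (Equiv.swap i0 i) hc
            rwa [Equiv.swap_apply_right, Equiv.swap_apply_self] at this
          · exact hij
        · rw [Equiv.Perm.mul_apply, Equiv.swap_apply_left]
      have := hinv τ i0 j0
      rwa [h1, h2] at this
    · intro hx
      exact Finset.sum_nonneg fun σ _ => mul_nonneg (hx _) (hx _)
  · push Not at hn
    by_cases hne : Nonempty (Fin n)
    · obtain ⟨i0⟩ := hne
      refine ⟨∑ σ : Equiv.Perm (Fin n), x (σ i0) * x (σ i0), 0, ?_, ?_, fun _ => le_rfl⟩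
      · intro i; rw [hn i i0]
      · intro i j hij; exact absurd (hn i j) hij
    · exact ⟨0, 0, fun i => absurd ⟨i⟩ hne, fun i => absurd ⟨i⟩ hne, fun _ => le_rfl⟩

lemma sum_perm_norm (n : ℕ) (x : Fin n → ℝ) {E : Type*} [NormedAddCommGroup E]
    [InnerProductSpace ℝ E] (v : Fin n → E) {s t : ℝ}
    (hs : ∀ i, ∑ σ : Equiv.Perm (Fin n), x (σ i) * x (σ i) = s)
    (ht : ∀ i j, i ≠ j → ∑ σ : Equiv.Perm (Fin n), x (σ i) * x (σ j) = t) :
    ∑ σ : Equiv.Perm (Fin n), ‖∑ i, x (σ i) • v i‖ ^ 2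
      = t * ‖∑ i, v i‖ ^ 2 + (s - t) * ∑ i, ‖v i‖ ^ 2 := by
  have h1 : ∀ σ : Equiv.Perm (Fin n), ‖∑ i, x (σ i) • v i‖ ^ 2
      = ∑ i, ∑ j, (x (σ i) * x (σ j)) * inner ℝ (v i) (v j) := by
    intro σ
    rw [← real_inner_self_eq_norm_sq, _root_.sum_inner]
    refine Finset.sum_congr rfl fun i _ => ?_
    rw [inner_sum]
    refine Finset.sum_congr rfl fun j _ => ?_
    rw [real_inner_smul_left, real_inner_smul_right]
    ring
  simp_rw [h1]
  rw [Finset.sum_comm]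
  have h2 : ∀ i, ∑ σ : Equiv.Perm (Fin n), ∑ j, (x (σ i) * x (σ j)) * inner ℝ (v i) (v j)
      = t * inner ℝ (v i) (∑ j, v j) + (s - t) * ‖v i‖ ^ 2 := by
    intro i
    rw [Finset.sum_comm]
    have h3 : ∀ j, ∑ σ : Equiv.Perm (Fin n), (x (σ i) * x (σ j)) * inner ℝ (v i) (v j)
        = t * inner ℝ (v i) (v j) + (if i = j then (s - t) * ‖v i‖ ^ 2 else 0) := by
      intro j
      rw [← Finset.sum_mul]
      by_cases hij : i = j
      · subst hij
        rw [hs, if_pos rfl, real_inner_self_eq_norm_sq]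
        ring
      · rw [ht i j hij, if_neg hij, add_zero]
    simp_rw [h3]
    rw [Finset.sum_add_distrib, ← Finset.mul_sum, ← inner_sum]
    simp
  simp_rw [h2]
  rw [Finset.sum_add_distrib, ← Finset.mul_sum, ← Finset.mul_sum, ← _root_.sum_inner,
    real_inner_self_eq_norm_sq]

/-- the vertices of the regular simplex -/
lemma Reg.bary {b : Fin (d + 1) → EuclideanSpace ℝ (Fin d)} (h : Reg b) (hd : 0 < d) (ρ : ℝ) :
    Bary b ρ (fun _ => 1 / (d + 1)) (fun i => (-(d * ρ)) • b i) where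
  unit := h.unit
  pos := fun _ => by positivity
  sum := by simp; field_simp
  bal := by rw [← Finset.smul_sum, h.sum_eq hd, smul_zero]
  off := by
    intro i j hij
    rw [inner_smul_right, h.gram i j hij]
    have : (d : ℝ) ≠ 0 := by exact_mod_cast hd.ne'
    field_simp
  on := by
    intro i
    rw [inner_smul_right, h.self]
    have : (d : ℝ) + 1 ≠ 0 := by positivity
    field_simp
    ring

section

variable {a b : Fin (d + 1) → EuclideanSpace ℝ (Fin d)} {ρ : ℝ} {lam : Fin (d + 1) → ℝ}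
  {p : Fin (d + 1) → EuclideanSpace ℝ (Fin d)}

lemma reg_rep (hb : Reg b) (hd : 0 < d) (hρ : 0 < ρ) (y : EuclideanSpace ℝ (Fin d)) :
    FF b ρ (fun i => (-(d * ρ)) • b i) y = y := by
  rw [← sub_eq_zero]
  refine reg_inj hb hd fun i => ?_
  rw [inner_sub_right, inner_FF (hb.bary hd ρ) hb hd]
  unfold bb
  have : (d : ℝ) + 1 ≠ 0 := by positivity
  field_simp
  ring

/-- the average of `|A_σ y|²` over all permutations is at least `|y|²` -/
lemma avg_norm (h : Bary a ρ lam p) (hb : Reg b) (hd : 0 < d) (hρ : 0 < ρ)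
    {y : EuclideanSpace ℝ (Fin d)} (hy : y ∈ TT b ρ) :
    (Fintype.card (Equiv.Perm (Fin (d + 1))) : ℝ) * ‖y‖ ^ 2
      ≤ ∑ σ : Equiv.Perm (Fin (d + 1)), ‖FF (b ∘ σ) ρ p y‖ ^ 2 := by
  obtain ⟨s, t, hs, ht, ht0⟩ := perm_sum (d + 1) (bb b ρ y)
  have hx : ∀ i, 0 ≤ bb b ρ y i := fun i => (bb_nonneg hρ i).2 (hy i)
  have hts := ht0 hx
  have hst : 0 ≤ s - t := by
    have h1 : ∑ σ : Equiv.Perm (Fin (d + 1)), (bb b ρ y (σ 0) - bb b ρ y (σ (Fin.last d))) ^ 2
        = 2 * (s - t) := by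
      have hne : (0 : Fin (d + 1)) ≠ Fin.last d := by
        intro hc
        have := congrArg Fin.val hc
        simp at this
        omega
      have e : ∀ σ : Equiv.Perm (Fin (d + 1)), (bb b ρ y (σ 0) - bb b ρ y (σ (Fin.last d))) ^ 2
          = bb b ρ y (σ 0) * bb b ρ y (σ 0) + bb b ρ y (σ (Fin.last d)) * bb b ρ y (σ (Fin.last d))
            - 2 * (bb b ρ y (σ 0) * bb b ρ y (σ (Fin.last d))) := by
        intro σ; ring
      simp_rw [e]
      rw [Finset.sum_sub_distrib, Finset.sum_add_distrib, hs, hs, ← Finset.mul_sum,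
        ht _ _ hne]
      ring
    have h2 : 0 ≤ ∑ σ : Equiv.Perm (Fin (d + 1)),
        (bb b ρ y (σ 0) - bb b ρ y (σ (Fin.last d))) ^ 2 :=
      Finset.sum_nonneg fun _ _ => sq_nonneg _
    linarith
  have e1 : ∀ σ : Equiv.Perm (Fin (d + 1)), FF (b ∘ σ) ρ p y = ∑ i, bb b ρ y (σ i) • p i :=
    fun σ => rfl
  simp_rw [e1]
  rw [sum_perm_norm (d + 1) (bb b ρ y) p hs ht]
  -- the same for the regular simplex
  have e2 := sum_perm_norm (d + 1) (bb b ρ y) (fun i => (-(d * ρ)) • b i) hs ht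
  have e3 : ∀ σ : Equiv.Perm (Fin (d + 1)), ‖∑ i, bb b ρ y (σ i) • ((-(d * ρ)) • b i)‖ ^ 2
      = ‖y‖ ^ 2 := by
    intro σ
    -- `∑ x_{σ i} b_i` has the same norm as `∑ x_i b_i`
    have hg : ∀ c : Fin (d + 1) → EuclideanSpace ℝ (Fin d), Reg c →
        ‖∑ i, bb b ρ y i • ((-(d * ρ)) • c i)‖ ^ 2
          = ∑ i, ∑ j, bb b ρ y i * bb b ρ y j * ((d * ρ) ^ 2 *
              (if i = j then 1 else (-1 : ℝ) / d)) := by
      intro c hc
      rw [← real_inner_self_eq_norm_sq, _root_.sum_inner]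
      refine Finset.sum_congr rfl fun i _ => ?_
      rw [inner_sum]
      refine Finset.sum_congr rfl fun j _ => ?_
      rw [real_inner_smul_left, real_inner_smul_right, real_inner_smul_left,
        real_inner_smul_right]
      split_ifs with hij
      · subst hij
        rw [hc.self]; ring
      · rw [hc.gram i j hij]; ring
    have h1 : ∑ i, bb b ρ y (σ i) • ((-(d * ρ)) • b i)
        = ∑ i, bb b ρ y i • ((-(d * ρ)) • (b ∘ σ.symm) i) := by
      rw [← Equiv.sum_comp σ (fun i => bb b ρ y i • ((-(d * ρ)) • (b ∘ σ.symm) i))]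
      simp
    rw [h1, hg _ (hb.comp σ.symm), ← hg b hb]
    have h2 := reg_rep hb hd hρ y
    unfold FF at h2
    rw [h2]
  simp_rw [e3] at e2
  rw [Finset.sum_const, Finset.card_univ, nsmul_eq_mul] at e2
  rw [e2, ← Finset.smul_sum, hb.sum_eq hd, smul_zero, norm_zero]
  have e4 : ∑ i, ‖(-(d * ρ)) • b i‖ ^ 2 = (d + 1) * (d * ρ) ^ 2 := by
    have : ∀ i, ‖(-(d * ρ)) • b i‖ ^ 2 = (d * ρ) ^ 2 := by
      intro i
      rw [norm_smul, hb.unit, mul_one, Real.norm_eq_abs, abs_neg, sq_abs]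
    simp_rw [this]
    simp
  rw [e4]
  have h5 := sum_sq_p h hρ
  have h6 : 0 ≤ t * ‖∑ i, p i‖ ^ 2 := mul_nonneg hts (sq_nonneg _)
  have h7 := mul_le_mul_of_nonneg_left h5 hst
  linarith

end

/-- the density of the hyperbolic volume in the Klein model, as a function of `|x|²` -/
noncomputable def phi (d : ℕ) (s : ℝ) : ℝ := (1 - s) ^ (-(((d : ℝ) + 1) / 2))

lemma phi_convex (d : ℕ) : ConvexOn ℝ (Set.Iio 1) (phi d) := by
  have h1 : ConvexOn ℝ (Set.Iio (1 : ℝ)) (fun s => -(((d : ℝ) + 1) / 2) * Real.log (1 - s)) := by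
    have h2 : ConvexOn ℝ (Set.Iio (1 : ℝ)) (fun s => - Real.log (1 - s)) := by
      refine ⟨convex_Iio 1, fun x hx y hy α β hα hβ hαβ => ?_⟩
      have hx' : 0 < 1 - x := sub_pos.2 hx
      have hy' : 0 < 1 - y := sub_pos.2 hy
      have := strictConcaveOn_log_Ioi.concaveOn.2 (Set.mem_Ioi.2 hx') (Set.mem_Ioi.2 hy') hα hβ hαβ
      simp only [smul_eq_mul] at this ⊢
      have e : 1 - (α * x + β * y) = α * (1 - x) + β * (1 - y) := by
        calc 1 - (α * x + β * y) = (α + β) - (α * x + β * y) := by rw [hαβ]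
          _ = _ := by ring
      rw [e]
      linarith
    have h3 := h2.smul (c := ((d : ℝ) + 1) / 2) (by positivity)
    refine h3.congr fun s _ => ?_
    simp only [Pi.smul_apply, smul_eq_mul]
    ring
  have h4 : ConvexOn ℝ (Set.Iio (1 : ℝ)) (Real.exp ∘ fun s => -(((d : ℝ) + 1) / 2) *
      Real.log (1 - s)) := by
    refine ⟨convex_Iio 1, fun x hx y hy α β hα hβ hαβ => ?_⟩
    exact (Real.exp_le_exp.2 (h1.2 hx hy hα hβ hαβ)).trans
      (convexOn_exp.2 (Set.mem_univ _) (Set.mem_univ _) hα hβ hαβ)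
  refine h4.congr fun s hs => ?_
  have hs' : 0 < 1 - s := sub_pos.2 hs
  simp only [Function.comp_apply, phi]
  rw [Real.rpow_def_of_pos hs']
  ring_nf

lemma phi_mono (d : ℕ) {s t : ℝ} (hst : s ≤ t) (ht : t < 1) : phi d s ≤ phi d t := by
  unfold phi
  apply Real.rpow_le_rpow_of_nonpos (by linarith) (by linarith)
  have : (0 : ℝ) ≤ ((d : ℝ) + 1) / 2 := by positivity
  linarith

lemma phi_nonneg (d : ℕ) {s : ℝ} (hs : s ≤ 1) : 0 ≤ phi d s :=
  Real.rpow_nonneg (by linarith) _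

section

variable {a b : Fin (d + 1) → EuclideanSpace ℝ (Fin d)} {ρ : ℝ}

lemma TT_comp (b : Fin (d + 1) → EuclideanSpace ℝ (Fin d)) (ρ : ℝ)
    (σ : Equiv.Perm (Fin (d + 1))) : TT (b ∘ σ) ρ = TT b ρ := by
  ext x
  constructor
  · intro h i
    have := h (σ.symm i)
    simpa using this
  · intro h i
    exact h (σ i)

lemma measurableSet_TT (b : Fin (d + 1) → EuclideanSpace ℝ (Fin d)) (ρ : ℝ) :
    MeasurableSet (TT b ρ) := by
  have : TT b ρ = ⋂ i, {x | inner ℝ (b i) x ≤ ρ} := by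
    ext x; simp [TT]
  rw [this]
  refine MeasurableSet.iInter fun i => ?_
  exact (isClosed_le (by fun_prop) continuous_const).measurableSet

/-- every simplex circumscribed about the ball forces the regular one to be compact too -/
theorem reg_subset (hd : 0 < d) (hρ : 0 < ρ) (ha : ∀ i, ‖a i‖ = 1) (hb : Reg b)
    (hsub : TT a ρ ⊆ Metric.ball 0 1) : TT b ρ ⊆ Metric.ball 0 1 := by
  obtain ⟨lam, p, h⟩ := exists_bary hρ ha hsub
  intro y hy
  have h1 := avg_norm h hb hd hρ hy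
  have h2 : ∀ σ : Equiv.Perm (Fin (d + 1)), ‖FF (b ∘ σ) ρ p y‖ ^ 2 < 1 := by
    intro σ
    have h3 : FF (b ∘ σ) ρ p y ∈ TT a ρ := by
      rw [FF_mem_iff h (hb.comp σ) hd hρ, TT_comp]
      exact hy
    have h4 := hsub h3
    rw [mem_ball_zero_iff] at h4
    nlinarith [norm_nonneg (FF (b ∘ σ) ρ p y)]
  have h3 : ∑ σ : Equiv.Perm (Fin (d + 1)), ‖FF (b ∘ σ) ρ p y‖ ^ 2
      < ∑ _σ : Equiv.Perm (Fin (d + 1)), (1 : ℝ) :=
    Finset.sum_lt_sum_of_nonempty Finset.univ_nonempty fun σ _ => h2 σ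
  rw [Finset.sum_const, Finset.card_univ, nsmul_eq_mul, mul_one] at h3
  have hc : (0 : ℝ) < (Fintype.card (Equiv.Perm (Fin (d + 1))) : ℝ) := by
    exact_mod_cast Fintype.card_pos
  have h4 : ‖y‖ ^ 2 < 1 := by
    by_contra hcon
    push Not at hcon
    have := mul_le_mul_of_nonneg_left hcon hc.le
    linarith
  rw [mem_ball_zero_iff]
  nlinarith [norm_nonneg y]

theorem volume_le (hd : 0 < d) (hρ : 0 < ρ) (ha : ∀ i, ‖a i‖ = 1) (hb : Reg b)
    (hsub : TT a ρ ⊆ Metric.ball 0 1) :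
    ∫⁻ x in TT b ρ, ENNReal.ofReal (phi d (‖x‖ ^ 2))
      ≤ ∫⁻ x in TT a ρ, ENNReal.ofReal (phi d (‖x‖ ^ 2)) := by
  obtain ⟨lam, p, h⟩ := exists_bary hρ ha hsub
  have hsubb := reg_subset hd hρ ha hb hsub
  have hinj : ∀ x : EuclideanSpace ℝ (Fin d), (∀ i, inner ℝ (a i) x = 0) → x = 0 :=
    fun x hx => zero_of_bdd hρ hsub fun i => (hx i).le
  set g : EuclideanSpace ℝ (Fin d) → ENNReal := fun x => ENNReal.ofReal (phi d (‖x‖ ^ 2)) with hg
  have hgm : Measurable g := by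
    unfold g phi
    fun_prop
  set N : ℕ := Fintype.card (Equiv.Perm (Fin (d + 1))) with hN
  have hNpos : 0 < N := Fintype.card_pos
  -- each permutation
  have h1 : ∀ σ : Equiv.Perm (Fin (d + 1)), ∫⁻ y in TT b ρ, g (FF (b ∘ σ) ρ p y)
      ≤ ∫⁻ x in TT a ρ, g x := by
    intro σ
    have hbσ := hb.comp σ
    rw [← FF_image h hbσ hd hρ hinj, TT_comp,
      MeasureTheory.lintegral_image_eq_lintegral_abs_det_fderiv_mul MeasureTheory.volume
        (measurableSet_TT b ρ)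
        (fun y _ => (FF_hasFDerivAt (b ∘ σ) ρ p y).hasFDerivWithinAt)
        (FF_injective h hbσ hd hρ).injOn]
    refine MeasureTheory.lintegral_mono fun y => ?_
    have h2 : (1 : ENNReal) ≤ ENNReal.ofReal |(LL (b ∘ σ) ρ p).det| := by
      rw [← ENNReal.ofReal_one]
      exact ENNReal.ofReal_le_ofReal (one_le_det h hbσ hd hρ)
    calc g (FF (b ∘ σ) ρ p y) = 1 * g (FF (b ∘ σ) ρ p y) := (one_mul _).symm
      _ ≤ _ := by gcongr
  -- pointwise Jensen
  have h2 : ∀ y ∈ TT b ρ, (N : ENNReal) * g y ≤ ∑ σ : Equiv.Perm (Fin (d + 1)),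
      g (FF (b ∘ σ) ρ p y) := by
    intro y hy
    have hlt : ∀ σ : Equiv.Perm (Fin (d + 1)), ‖FF (b ∘ σ) ρ p y‖ ^ 2 < 1 := by
      intro σ
      have h3 : FF (b ∘ σ) ρ p y ∈ TT a ρ := by
        rw [FF_mem_iff h (hb.comp σ) hd hρ, TT_comp]
        exact hy
      have h4 := hsub h3
      rw [mem_ball_zero_iff] at h4
      nlinarith [norm_nonneg (FF (b ∘ σ) ρ p y)]
    have hN0 : (0 : ℝ) < N := by exact_mod_cast hNpos
    have hj := (phi_convex d).map_sum_le (t := (univ : Finset (Equiv.Perm (Fin (d + 1)))))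
      (w := fun _ => (1 : ℝ) / N) (p := fun σ => ‖FF (b ∘ σ) ρ p y‖ ^ 2)
      (fun _ _ => by positivity)
      (by rw [Finset.sum_const, Finset.card_univ, ← hN, nsmul_eq_mul]; field_simp)
      (fun σ _ => hlt σ)
    simp only [smul_eq_mul] at hj
    rw [← Finset.mul_sum, ← Finset.mul_sum] at hj
    have h3 := avg_norm h hb hd hρ hy
    rw [← hN] at h3
    have h4 : ‖y‖ ^ 2 ≤ 1 / (N : ℝ) * ∑ σ : Equiv.Perm (Fin (d + 1)), ‖FF (b ∘ σ) ρ p y‖ ^ 2 := by
      rw [one_div, ← div_eq_inv_mul, le_div_iff₀ hN0, mul_comm]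
      exact h3
    have h5 : 1 / (N : ℝ) * ∑ σ : Equiv.Perm (Fin (d + 1)), ‖FF (b ∘ σ) ρ p y‖ ^ 2 < 1 := by
      have h6 : ∑ σ : Equiv.Perm (Fin (d + 1)), ‖FF (b ∘ σ) ρ p y‖ ^ 2
          < ∑ _σ : Equiv.Perm (Fin (d + 1)), (1 : ℝ) :=
        Finset.sum_lt_sum_of_nonempty Finset.univ_nonempty fun σ _ => hlt σ
      rw [Finset.sum_const, Finset.card_univ, nsmul_eq_mul, mul_one, ← hN] at h6
      rw [one_div, ← div_eq_inv_mul, div_lt_one hN0]
      exact h6
    have h6 := (phi_mono d h4 h5).trans hj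
    have h7 : (N : ℝ) * phi d (‖y‖ ^ 2) ≤ ∑ σ : Equiv.Perm (Fin (d + 1)),
        phi d (‖FF (b ∘ σ) ρ p y‖ ^ 2) := by
      rw [one_div, ← div_eq_inv_mul, le_div_iff₀ hN0] at h6
      linarith
    simp only [hg]
    rw [← ENNReal.ofReal_natCast, ← ENNReal.ofReal_mul (by positivity),
      ← ENNReal.ofReal_sum_of_nonneg (fun σ _ => phi_nonneg d (hlt σ).le)]
    exact ENNReal.ofReal_le_ofReal h7
  have hFm : ∀ σ : Equiv.Perm (Fin (d + 1)), Measurable fun y => g (FF (b ∘ σ) ρ p y) := by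
    intro σ
    apply hgm.comp
    have : Continuous (FF (b ∘ σ) ρ p) := by
      rw [show FF (b ∘ σ) ρ p = fun y => (∑ i, (1 / (d + 1) : ℝ) • p i) + LL (b ∘ σ) ρ p y from
        funext fun y => FF_eq _ _ _ y]
      fun_prop
    exact this.measurable
  have h3 : (N : ENNReal) * ∫⁻ y in TT b ρ, g y ≤ (N : ENNReal) * ∫⁻ x in TT a ρ, g x := by
    calc (N : ENNReal) * ∫⁻ y in TT b ρ, g y = ∫⁻ y in TT b ρ, (N : ENNReal) * g y := by
          rw [MeasureTheory.lintegral_const_mul _ hgm]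
      _ ≤ ∫⁻ y in TT b ρ, ∑ σ : Equiv.Perm (Fin (d + 1)), g (FF (b ∘ σ) ρ p y) :=
          MeasureTheory.setLIntegral_mono' (measurableSet_TT b ρ) h2
      _ = ∑ σ : Equiv.Perm (Fin (d + 1)), ∫⁻ y in TT b ρ, g (FF (b ∘ σ) ρ p y) := by
          rw [MeasureTheory.lintegral_finsetSum _ (fun σ _ => hFm σ)]
      _ ≤ ∑ _σ : Equiv.Perm (Fin (d + 1)), ∫⁻ x in TT a ρ, g x :=
          Finset.sum_le_sum fun σ _ => h1 σ
      _ = (N : ENNReal) * ∫⁻ x in TT a ρ, g x := by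
          rw [Finset.sum_const, Finset.card_univ, ← hN, nsmul_eq_mul]
  have hN1 : (N : ENNReal) ≠ 0 := by exact_mod_cast hNpos.ne'
  exact (ENNReal.mul_le_mul_iff_right hN1 (ENNReal.natCast_ne_top N)).1 h3

end

end Pool.Agent.H859R2
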