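import Pool.Agent.H859R2.SimplexDet

set_option autoImplicit false

namespace Pool.Agent.H859R2

open Finset Matrix

variable {d : ℕ}

/-- the simplex with outer unit normals `a` and inball `B(0, ρ)` -/
def TT (a : Fin (d + 1) → EuclideanSpace ℝ (Fin d)) (ρ : ℝ) : Set (EuclideanSpace ℝ (Fin d)) :=
  {x | ∀ i, inner ℝ (a i) x ≤ ρ}

lemma zero_of_bdd {a : Fin (d + 1) → EuclideanSpace ℝ (Fin d)} {ρ : ℝ} (hρ : 0 < ρ)
    (hb : TT a ρ ⊆ Metric.ball 0 1) {x : EuclideanSpace ℝ (Fin d)}
    (hx : ∀ i, inner ℝ (a i) x ≤ 0) : x = 0 := by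
  by_contra hne
  have hn : 0 < ‖x‖ := norm_pos_iff.2 hne
  have h1 : (1 / ‖x‖) • x ∈ TT a ρ := by
    intro i
    rw [inner_smul_right]
    have : 1 / ‖x‖ * inner ℝ (a i) x ≤ 0 :=
      mul_nonpos_of_nonneg_of_nonpos (by positivity) (hx i)
    linarith
  have h2 := hb h1
  rw [mem_ball_zero_iff, norm_smul, Real.norm_eq_abs, abs_of_pos (by positivity),
    one_div_mul_cancel hn.ne'] at h2
  exact lt_irrefl _ h2

/-- barycentric data from boundedness -/
lemma exists_bary {a : Fin (d + 1) → EuclideanSpace ℝ (Fin d)} {ρ : ℝ} (hρ : 0 < ρ)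
    (ha : ∀ i, ‖a i‖ = 1) (hb : TT a ρ ⊆ Metric.ball 0 1) :
    ∃ lam p, Bary a ρ lam p := by
  -- the linear map `x ↦ (⟪a_i, x⟫)_i`
  let L : EuclideanSpace ℝ (Fin d) →ₗ[ℝ] (Fin (d + 1) → ℝ) :=
    LinearMap.pi fun i => (innerSL ℝ (a i)).toLinearMap
  have hL : ∀ x i, L x i = inner ℝ (a i) x := fun x i => rfl
  have hinj : Function.Injective L := by
    rw [← LinearMap.ker_eq_bot, LinearMap.ker_eq_bot']
    intro x hx
    refine zero_of_bdd hρ hb fun i => ?_
    rw [← hL, hx]
    exact le_rfl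
  have hrk : Module.finrank ℝ (LinearMap.range L) = d := by
    rw [LinearMap.finrank_range_of_inj hinj, finrank_euclideanSpace, Fintype.card_fin]
  obtain ⟨m, hm1, i0, hm2⟩ : ∃ m : Fin (d + 1) → ℝ, ∑ i, m i • a i = 0 ∧ ∃ i, m i ≠ 0 := by
    have hdep : ¬ LinearIndependent ℝ a := by
      intro h
      have := h.fintype_card_le_finrank
      rw [finrank_euclideanSpace, Fintype.card_fin, Fintype.card_fin] at this
      omega
    exact Fintype.not_linearIndependent_iff.1 hdep
  -- the functional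
  let φ : (Fin (d + 1) → ℝ) →ₗ[ℝ] ℝ := ∑ i, m i • LinearMap.proj i
  have hφ : ∀ v, φ v = ∑ i, m i * v i := by
    intro v
    simp [φ]
  have hφne : φ ≠ 0 := by
    intro h
    have h1 := hφ (Pi.single i0 1)
    rw [h] at h1
    simp [Pi.single_apply] at h1
    exact hm2 h1.symm
  have hker : Module.finrank ℝ (LinearMap.ker φ) = d := by
    have h1 := φ.finrank_range_add_finrank_ker
    have h2 : LinearMap.range φ = ⊤ := LinearMap.range_eq_top.2 (LinearMap.surjective hφne)
    rw [h2, finrank_top, Module.finrank_self, Module.finrank_fintype_fun_eq_card,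
      Fintype.card_fin] at h1
    omega
  have hle : LinearMap.range L ≤ LinearMap.ker φ := by
    rintro _ ⟨x, rfl⟩
    rw [LinearMap.mem_ker, hφ]
    have h1 : inner ℝ (∑ i, m i • a i) x = 0 := by rw [hm1, inner_zero_left]
    rw [_root_.sum_inner] at h1
    rw [← h1]
    refine Finset.sum_congr rfl fun i _ => ?_
    rw [real_inner_smul_left, hL]
  have heq : LinearMap.range L = LinearMap.ker φ :=
    Submodule.eq_of_le_of_finrank_eq hle (by rw [hrk, hker])
  have hsur : ∀ v : Fin (d + 1) → ℝ, ∑ i, m i * v i = 0 → ∃ x, ∀ i, inner ℝ (a i) x = v i := by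
    intro v hv
    have h1 : v ∈ LinearMap.ker φ := by rw [LinearMap.mem_ker, hφ, hv]
    rw [← heq] at h1
    obtain ⟨x, hx⟩ := h1
    exact ⟨x, fun i => by rw [← hL, hx]⟩
  -- no zero coefficient
  have hne : ∀ i, m i ≠ 0 := by
    intro i hi
    obtain ⟨x, hx⟩ := hsur (Pi.single i (-1)) (by
      simp [Pi.single_apply, hi])
    have h1 : x = 0 := zero_of_bdd hρ hb fun j => by
      rw [hx]
      by_cases h : j = i
      · subst h; simp
      · simp [Pi.single_apply, h]
    have h2 := hx i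
    rw [h1] at h2
    simp at h2
  -- all of the same sign
  have hsign : ∀ i j, 0 < m i * m j := by
    intro i j
    by_contra hcon
    push Not at hcon
    have hlt : m i * m j < 0 := lt_of_le_of_ne hcon (mul_ne_zero (hne i) (hne j))
    have hij : i ≠ j := by
      rintro rfl
      nlinarith [mul_self_nonneg (m i)]
    obtain ⟨x, hx⟩ := hsur (Pi.single i (-|m j|) + Pi.single j (-|m i|)) (by
      simp only [Pi.add_apply, mul_add, Finset.sum_add_distrib]
      simp only [Pi.single_apply, mul_ite, mul_zero, Finset.sum_ite_eq', Finset.sum_ite_eq,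
        Finset.mem_univ, if_true]
      rcases lt_or_gt_of_ne (hne i) with h | h
      · have h2 : 0 < m j := by nlinarith
        rw [abs_of_pos h2, abs_of_neg h]
        ring
      · have h2 : m j < 0 := by nlinarith
        rw [abs_of_neg h2, abs_of_pos h]
        ring)
    have h1 : x = 0 := zero_of_bdd hρ hb fun k => by
      rw [hx]
      have e1 : (Pi.single i (-|m j|) : Fin (d + 1) → ℝ) k ≤ 0 := by
        rw [Pi.single_apply]
        split_ifs
        · exact neg_nonpos.2 (abs_nonneg _)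
        · exact le_rfl
      have e2 : (Pi.single j (-|m i|) : Fin (d + 1) → ℝ) k ≤ 0 := by
        rw [Pi.single_apply]
        split_ifs
        · exact neg_nonpos.2 (abs_nonneg _)
        · exact le_rfl
      rw [Pi.add_apply]
      linarith
    have h2 := hx i
    rw [h1, inner_zero_right, Pi.add_apply, Pi.single_eq_same, Pi.single_eq_of_ne hij, add_zero]
      at h2
    have := abs_pos.2 (hne j)
    linarith
  obtain ⟨S, hS⟩ : ∃ S, S = ∑ i, m i := ⟨_, rfl⟩
  have hmS : ∀ i, 0 < m i * S := by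
    intro i
    rw [hS, Finset.mul_sum]
    exact Finset.sum_pos (fun j _ => hsign i j) ⟨i, Finset.mem_univ i⟩
  have hS0 : S ≠ 0 := by
    intro h
    have := hmS i0
    rw [h, mul_zero] at this
    exact lt_irrefl _ this
  have hpos : ∀ i, 0 < m i / S := by
    intro i
    have h1 := hmS i
    have h2 : m i / S = m i * S / S ^ 2 := by field_simp
    rw [h2]
    positivity
  have hsum : ∑ i, m i / S = 1 := by
    rw [← Finset.sum_div, ← hS, div_self hS0]
  have hp : ∀ i, ∃ x, ∀ j, inner ℝ (a j) x = if j = i then ρ - ρ / (m i / S) else ρ := by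
    intro i
    refine hsur _ ?_
    have h1 : ∀ j, m j * (if j = i then ρ - ρ / (m i / S) else ρ)
        = m j * ρ - (if j = i then ρ * S else 0) := by
      intro j
      split_ifs with h
      · subst h
        have := hne j
        field_simp
      · ring
    simp_rw [h1]
    rw [Finset.sum_sub_distrib, ← Finset.sum_mul, ← hS]
    simp
    ring
  choose p hp using hp
  refine ⟨fun i => m i / S, p, ha, hpos, hsum, ?_, ?_, ?_⟩
  · have : ∑ i, (m i / S) • a i = (1 / S) • ∑ i, m i • a i := by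
      rw [Finset.smul_sum]
      refine Finset.sum_congr rfl fun i _ => ?_
      rw [smul_smul]
      congr 1
      ring
    rw [this, hm1, smul_zero]
  · intro i j hij
    rw [hp, if_neg hij]
  · intro i
    rw [hp, if_pos rfl]

/-- barycentric coordinates in the regular simplex -/
noncomputable def bb (b : Fin (d + 1) → EuclideanSpace ℝ (Fin d)) (ρ : ℝ)
    (y : EuclideanSpace ℝ (Fin d)) (i : Fin (d + 1)) : ℝ :=
  1 / (d + 1) * (1 - inner ℝ (b i) y / ρ)

lemma Reg.sum_bb {b : Fin (d + 1) → EuclideanSpace ℝ (Fin d)} (h : Reg b) (hd : 0 < d) (ρ : ℝ)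
    (y : EuclideanSpace ℝ (Fin d)) : ∑ i, bb b ρ y i = 1 := by
  unfold bb
  rw [← Finset.mul_sum, Finset.sum_sub_distrib, ← Finset.sum_div, ← _root_.sum_inner, h.sum_eq hd]
  simp
  field_simp

lemma bb_nonneg {b : Fin (d + 1) → EuclideanSpace ℝ (Fin d)} {ρ : ℝ} (hρ : 0 < ρ)
    {y : EuclideanSpace ℝ (Fin d)} (i : Fin (d + 1)) :
    0 ≤ bb b ρ y i ↔ inner ℝ (b i) y ≤ ρ := by
  unfold bb
  rw [mul_nonneg_iff_of_pos_left (by positivity), sub_nonneg, div_le_one hρ]

/-- the affine map -/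
noncomputable def FF (b : Fin (d + 1) → EuclideanSpace ℝ (Fin d)) (ρ : ℝ)
    (p : Fin (d + 1) → EuclideanSpace ℝ (Fin d)) (y : EuclideanSpace ℝ (Fin d)) :
    EuclideanSpace ℝ (Fin d) := ∑ i, bb b ρ y i • p i

/-- its linear part -/
noncomputable def LL (b : Fin (d + 1) → EuclideanSpace ℝ (Fin d)) (ρ : ℝ)
    (p : Fin (d + 1) → EuclideanSpace ℝ (Fin d)) :
    EuclideanSpace ℝ (Fin d) →L[ℝ] EuclideanSpace ℝ (Fin d) :=
  ∑ i, (-(1 / ((d + 1) * ρ)) : ℝ) • (innerSL ℝ (b i)).smulRight (p i)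

lemma LL_apply (b : Fin (d + 1) → EuclideanSpace ℝ (Fin d)) (ρ : ℝ)
    (p : Fin (d + 1) → EuclideanSpace ℝ (Fin d)) (y : EuclideanSpace ℝ (Fin d)) :
    LL b ρ p y = ∑ i, (-(1 / ((d + 1) * ρ)) * inner ℝ (b i) y) • p i := by
  unfold LL
  simp [ContinuousLinearMap.sum_apply, smul_smul]

lemma FF_eq (b : Fin (d + 1) → EuclideanSpace ℝ (Fin d)) (ρ : ℝ)
    (p : Fin (d + 1) → EuclideanSpace ℝ (Fin d)) (y : EuclideanSpace ℝ (Fin d)) :
    FF b ρ p y = (∑ i, (1 / (d + 1) : ℝ) • p i) + LL b ρ p y := by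
  rw [LL_apply, ← Finset.sum_add_distrib]
  unfold FF bb
  refine Finset.sum_congr rfl fun i _ => ?_
  rw [← add_smul]
  congr 1
  by_cases h : ρ = 0
  · simp [h]
  · field_simp
    ring

lemma FF_hasFDerivAt (b : Fin (d + 1) → EuclideanSpace ℝ (Fin d)) (ρ : ℝ)
    (p : Fin (d + 1) → EuclideanSpace ℝ (Fin d)) (y : EuclideanSpace ℝ (Fin d)) :
    HasFDerivAt (FF b ρ p) (LL b ρ p) y := by
  have h : FF b ρ p = fun y => (∑ i, (1 / (d + 1) : ℝ) • p i) + LL b ρ p y := by
    funext y; exact FF_eq b ρ p y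
  rw [h]
  exact (LL b ρ p).hasFDerivAt.const_add _

section

variable {a b : Fin (d + 1) → EuclideanSpace ℝ (Fin d)} {ρ : ℝ} {lam : Fin (d + 1) → ℝ}
  {p : Fin (d + 1) → EuclideanSpace ℝ (Fin d)}

lemma inner_FF (h : Bary a ρ lam p) (hb : Reg b) (hd : 0 < d) (y : EuclideanSpace ℝ (Fin d))
    (i : Fin (d + 1)) : inner ℝ (a i) (FF b ρ p y) = ρ - ρ / lam i * bb b ρ y i := by
  unfold FF
  rw [h.sum_p, hb.sum_bb hd, mul_one]

lemma FF_mem_iff (h : Bary a ρ lam p) (hb : Reg b) (hd : 0 < d) (hρ : 0 < ρ)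
    (y : EuclideanSpace ℝ (Fin d)) : FF b ρ p y ∈ TT a ρ ↔ y ∈ TT b ρ := by
  unfold TT
  simp only [Set.mem_setOf_eq]
  refine forall_congr' fun i => ?_
  rw [inner_FF h hb hd, ← bb_nonneg hρ, sub_le_self_iff,
    mul_nonneg_iff_of_pos_left (div_pos hρ (h.pos i))]

lemma reg_inj (hb : Reg b) (hd : 0 < d) {x : EuclideanSpace ℝ (Fin d)}
    (hx : ∀ i, inner ℝ (b i) x = 0) : x = 0 := by
  have h1 := hb.expand hd x x
  simp only [hx, mul_zero, Finset.sum_const_zero] at h1
  have h2 : (0 : ℝ) < (d + 1 : ℝ) / d := by positivity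
  have h3 : inner ℝ x x = 0 := by
    rcases mul_eq_zero.1 h1.symm with h | h
    · exact absurd h h2.ne'
    · exact h
  exact inner_self_eq_zero.1 h3

lemma FF_injective (h : Bary a ρ lam p) (hb : Reg b) (hd : 0 < d) (hρ : 0 < ρ) :
    Function.Injective (FF b ρ p) := by
  intro y z hyz
  have h1 : ∀ i, inner ℝ (b i) (y - z) = 0 := by
    intro i
    have e1 := inner_FF h hb hd y i
    have e2 := inner_FF h hb hd z i
    rw [hyz, e2] at e1
    have hl := h.pos i
    have e3 : bb b ρ z i = bb b ρ y i := by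
      have : ρ / lam i * bb b ρ z i = ρ / lam i * bb b ρ y i := by linarith
      exact mul_left_cancel₀ (div_pos hρ hl).ne' this
    unfold bb at e3
    have e4 : (1 : ℝ) / (d + 1) ≠ 0 := by positivity
    have e5 := mul_left_cancel₀ e4 e3
    rw [inner_sub_right]
    field_simp at e5
    linarith
  exact sub_eq_zero.1 (reg_inj hb hd h1)

lemma reg_sur (hb : Reg b) (hd : 0 < d) (v : Fin (d + 1) → ℝ) (hv : ∑ i, v i = 0) :
    ∃ y, ∀ i, inner ℝ (b i) y = v i := by
  have hd' : (d : ℝ) ≠ 0 := by exact_mod_cast hd.ne'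
  refine ⟨((d : ℝ) / (d + 1)) • ∑ k, v k • b k, fun i => ?_⟩
  rw [inner_smul_right, inner_sum]
  simp_rw [inner_smul_right]
  rw [← Finset.add_sum_erase _ _ (Finset.mem_univ i), hb.self,
    Finset.sum_congr rfl (g := fun k => v k * ((-1 : ℝ) / d))
      (fun k hk => by rw [hb.gram i k (Finset.ne_of_mem_erase hk).symm]),
    ← Finset.sum_mul]
  have h1 := Finset.add_sum_erase univ v (Finset.mem_univ i)
  rw [hv] at h1
  have h2 : ∑ x ∈ univ.erase i, v x = - v i := by linarith
  rw [h2]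
  field_simp

lemma FF_image (h : Bary a ρ lam p) (hb : Reg b) (hd : 0 < d) (hρ : 0 < ρ)
    (hinj : ∀ x : EuclideanSpace ℝ (Fin d), (∀ i, inner ℝ (a i) x = 0) → x = 0) :
    FF b ρ p '' (TT b ρ) = TT a ρ := by
  ext x
  constructor
  · rintro ⟨y, hy, rfl⟩
    exact (FF_mem_iff h hb hd hρ y).2 hy
  · intro hx
    have hd1 : (d + 1 : ℝ) ≠ 0 := by positivity
    obtain ⟨y, hy⟩ := reg_sur hb hd
      (fun i => ρ - (d + 1) * lam i * (ρ - inner ℝ (a i) x)) (by
        have e : ∀ i, ρ - (d + 1) * lam i * (ρ - inner ℝ (a i) x)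
            = ρ - (d + 1) * ρ * lam i + (d + 1) * (lam i * inner ℝ (a i) x) := by
          intro i; ring
        simp_rw [e]
        rw [Finset.sum_add_distrib, Finset.sum_sub_distrib, ← Finset.mul_sum, ← Finset.mul_sum,
          h.sum]
        have e2 : ∑ i, lam i * inner ℝ (a i) x = 0 := by
          have : inner ℝ (∑ i, lam i • a i) x = 0 := by rw [h.bal, inner_zero_left]
          rw [_root_.sum_inner] at this
          rw [← this]
          exact Finset.sum_congr rfl fun i _ => by rw [real_inner_smul_left]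
        rw [e2]
        simp)
    have hxe : FF b ρ p y = x := by
      rw [← sub_eq_zero]
      refine hinj _ fun i => ?_
      rw [inner_sub_right, inner_FF h hb hd]
      unfold bb
      rw [hy]
      have hl := (h.pos i).ne'
      field_simp
      ring
    exact ⟨y, by rwa [← FF_mem_iff h hb hd hρ, hxe], hxe⟩

end

end Pool.Agent.H859R2
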